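import Pool.Agent.Helper97.EK.E3a
set_option autoImplicit false
open Complex MeasureTheory Metric Set
open scoped Real ComplexConjugate

/-!
# Project EK7: the Schwarzian derivative in the strip coordinate
-/

namespace Pool.Agent.Helper69.EK7

open Pool.Agent.Helper39.Area Pool.Agent.Helper52.EK Pool.Agent.Helper97.EK

/-- the Schwarzian derivative of `φ ζ = ζ⁻¹ + β ζ` -/
noncomputable def Sc (β : ℂ → ℂ) (z : ℂ) : ℂ :=
  deriv (deriv (N β)) z / N β z - 3 / 2 * (deriv (N β) z / N β z) ^ 2 +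
    2 / z * (deriv (N β) z / N β z)

/-- the normalised Schwarzian derivative in the radial frame -/
noncomputable def srad (β : ℂ → ℂ) (z : ℂ) : ℂ :=
  (z / ‖z‖) ^ 2 * (1 - ‖z‖ ^ 2) ^ 2 * Sc β z

/-- the Schwarzian derivative as a function of `X`, `Y = X'`, `Z = X''` and the angle -/
noncomputable def tX (X Y Z : ℂ) (s c : ℝ) : ℂ :=
  4 * (s : ℂ) ^ 2 * e0 s c * (1 / 2 - 2 * X ^ 2 + Z / X - 3 / 2 * (Y / X) ^ 2)

theorem hasDerivAt_N1 {β : ℂ → ℂ} (h : Ext β) {z : ℂ} (hz : z ∈ ball (0 : ℂ) 1) :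
    HasDerivAt (N β) (deriv (N β) z) z := (hasDerivAt_N h hz).differentiableAt.hasDerivAt

theorem N_diffOn {β : ℂ → ℂ} (h : Ext β) : DifferentiableOn ℂ (N β) (ball 0 1) := fun _ hz =>
  (hasDerivAt_N h hz).differentiableAt.differentiableWithinAt

theorem hasDerivAt_N2 {β : ℂ → ℂ} (h : Ext β) {z : ℂ} (hz : z ∈ ball (0 : ℂ) 1) :
    HasDerivAt (deriv (N β)) (deriv (deriv (N β)) z) z :=
  (((N_diffOn h).deriv isOpen_ball).differentiableAt (isOpen_ball.mem_nhds hz)).hasDerivAt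

/-- the derivative of `N'/N - 2/z` -/
theorem hasDerivAt_D {β : ℂ → ℂ} (h : Ext β) {z : ℂ} (hz : z ∈ ball (0 : ℂ) 1) (hz0 : z ≠ 0) :
    HasDerivAt (fun z => deriv (N β) z / N β z - 2 / z)
      (Sc β z + (deriv (N β) z / N β z - 2 / z) ^ 2 / 2) z := by
  have hN : N β z ≠ 0 := h.ne z hz
  have h1 := (hasDerivAt_N2 h hz).div (hasDerivAt_N1 h hz) hN
  have h2 : HasDerivAt (fun z : ℂ => 2 / z) (-(2 / z ^ 2)) z := by
    have h3 := (hasDerivAt_inv hz0).const_mul 2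
    refine (h3.congr_deriv ?_).congr_of_eventuallyEq (Filter.Eventually.of_forall fun w => ?_)
    · field_simp
    · simp only
      rw [div_eq_mul_inv]
  refine (h1.sub h2).congr_deriv ?_
  unfold Sc
  field_simp
  ring

theorem deriv2_Xf {β : ℂ → ℂ} (h : Ext β) {a : ℝ} (ha : 0 < a) (ha1 : a < 1) {ω : ℂ}
    (hω : I + Complex.exp ω ≠ 0) (hz : zf ω ∈ ball (0 : ℂ) 1) (hz0 : zf ω ≠ 0)
    (hza : zf ω ≠ (a : ℂ)) :
    deriv (Xf β a) ω = Xf β a ω * (zf ω + zd ω * (deriv (N β) (zf ω) / N β (zf ω) - 2 / zf ω)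
      - 2 * Xf β a ω) ∧
    deriv (deriv (Xf β a)) ω = Xf β a ω * ((zf ω + zd ω * (deriv (N β) (zf ω) / N β (zf ω) -
        2 / zf ω) - 2 * Xf β a ω) ^ 2 +
      (zd ω + zd ω * zf ω * (deriv (N β) (zf ω) / N β (zf ω) - 2 / zf ω) + zd ω *
        ((Sc β (zf ω) + (deriv (N β) (zf ω) / N β (zf ω) - 2 / zf ω) ^ 2 / 2) * zd ω) -
        2 * (Xf β a ω * (zf ω + zd ω * (deriv (N β) (zf ω) / N β (zf ω) - 2 / zf ω)
      - 2 * Xf β a ω)))) := by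
  have haB : (a : ℂ) ∈ ball (0 : ℂ) 1 := by
    rw [mem_ball_zero_iff, Complex.norm_real, Real.norm_of_nonneg ha.le]
    exact ha1
  have ha0 : (a : ℂ) ≠ 0 := Complex.ofReal_ne_zero.2 ha.ne'
  have hne : ∀ z : ℂ, z ∈ ball (0 : ℂ) 1 → z ≠ 0 → z ≠ (a : ℂ) →
      phi β z - phi β (a : ℂ) ≠ 0 := fun z h1 h2 h3 h4 =>
    h3 (h.inj _ _ h1 haB h2 ha0 (sub_eq_zero.1 h4))
  have hzf : ContinuousAt zf ω := (hasDerivAt_zf hω).continuousAt
  have ev1 : ∀ᶠ v in nhds ω, I + Complex.exp v ≠ 0 :=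
    (continuous_const.add Complex.continuous_exp).continuousAt.eventually_ne hω
  have ev2 : ∀ᶠ v in nhds ω, zf v ∈ ball (0 : ℂ) 1 := hzf.eventually (isOpen_ball.mem_nhds hz)
  have ev3 : ∀ᶠ v in nhds ω, zf v ≠ 0 := hzf.eventually_ne hz0
  have ev4 : ∀ᶠ v in nhds ω, zf v ≠ (a : ℂ) := hzf.eventually_ne hza
  have ev : deriv (Xf β a) =ᶠ[nhds ω] fun v => Xf β a v * (zf v + zd v *
      (deriv (N β) (zf v) / N β (zf v) - 2 / zf v) - 2 * Xf β a v) := by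
    filter_upwards [ev1, ev2, ev3, ev4] with v h1 h2 h3 h4
    exact deriv_Xf h h1 h2 h3 (hne _ h2 h3 h4)
  have e1 : deriv (Xf β a) ω = Xf β a ω * (zf ω + zd ω * (deriv (N β) (zf ω) / N β (zf ω) -
      2 / zf ω) - 2 * Xf β a ω) := ev.self_of_nhds
  refine ⟨e1, ?_⟩
  have hXd : HasDerivAt (Xf β a) (deriv (Xf β a) ω) ω := by
    have h1 := hasDerivAt_zf hω
    have h2 := hasDerivAt_zd hω
    have h3 := (hasDerivAt_dphi h hz hz0).comp ω h1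
    have h4 := (hasDerivAt_phi h.diff hz hz0).comp ω h1
    exact ((h2.mul h3).div ((h4.sub_const (phi β (a : ℂ))).const_mul 2)
      (mul_ne_zero two_ne_zero (hne _ hz hz0 hza))).differentiableAt.hasDerivAt
  have hD := (hasDerivAt_D h hz hz0).comp ω (hasDerivAt_zf hω)
  have hA := ((hasDerivAt_zf hω).add ((hasDerivAt_zd hω).mul hD)).sub (hXd.const_mul 2)
  have hF := hXd.mul hA
  rw [ev.deriv_eq]
  have e2 := hF.deriv
  refine Eq.trans e2 ?_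
  simp only [Function.comp_apply, Pi.add_apply, Pi.sub_apply, Pi.mul_apply]
  rw [e1]
  ring

/-- the bracket is the Schwarzian derivative times `zd²` -/
theorem bracket_alg {X q A z d S D : ℂ} (hX : X ≠ 0) (hA : A = z + d * D) (hq : q = A - 2 * X)
    (hz : 1 / 2 - z ^ 2 / 2 + d = 0) :
    1 / 2 - 2 * X ^ 2 + X * (q ^ 2 + (d + d * z * D + d * ((S + D ^ 2 / 2) * d) -
      2 * (X * q))) / X - 3 / 2 * (X * q / X) ^ 2 = d ^ 2 * S := by
  rw [mul_div_cancel_left₀ _ hX, mul_div_cancel_left₀ _ hX, hq, hA]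
  linear_combination hz

theorem half_zf {ω : ℂ} (h : I + Complex.exp ω ≠ 0) :
    1 / 2 - zf ω ^ 2 / 2 + zd ω = 0 := by
  unfold zf zd
  rw [add_comm (Complex.exp ω) I]
  field_simp
  ring

/-- the frames -/
theorem frame_sq (Z W y r₁ r₂ : ℂ) (hW : W = Z - 2 * y * I) (hZ : Z ≠ 0) (h1 : I + Z ≠ 0)
    (h2 : I - Z ≠ 0) (h3 : I - W ≠ 0) (hr1 : r₁ ≠ 0) (hr2 : r₂ ≠ 0) :
    ((I - Z) / (I + Z) / (r₁ / r₂)) ^ 2 * (1 - (I - Z) / (I + Z) * ((-I - W) / (-I + W))) ^ 2 =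
    (r₂ / r₁ * ((I - Z) / (I - W))) ^ 2 *
      (-(4 * y ^ 2 / Z ^ 2) * (-2 * I * Z / (Z + I) ^ 2) ^ 2) := by
  have h3' : -I + W ≠ 0 := by
    intro h
    apply h3
    linear_combination -h
  have h1' : Z + I ≠ 0 := by rwa [add_comm]
  have e1 : 1 - (I - Z) / (I + Z) * ((-I - W) / (-I + W)) = 4 * y / ((I + Z) * (-I + W)) := by
    rw [div_mul_div_comm, eq_div_iff (mul_ne_zero h1 h3'), sub_mul,
      div_mul_cancel₀ _ (mul_ne_zero h1 h3'), hW]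
    linear_combination (-4 * y) * I_sq
  have e3 : (4 * y / ((I + Z) * (-I + W))) ^ 2 = (4 * y) ^ 2 / ((I + Z) ^ 2 * (I - W) ^ 2) := by
    have e2 : (-I + W) ^ 2 = (I - W) ^ 2 := by ring
    rw [div_pow, mul_pow (I + Z), e2]
  have e4 : (-2 * I * Z / (Z + I) ^ 2) ^ 2 = -(4 * Z ^ 2) / (I + Z) ^ 4 := by
    rw [div_pow, add_comm Z I]
    congr 1
    · linear_combination (4 * Z ^ 2) * I_sq
    · ring
  rw [e1, e3, e4]
  field_simp

/-- `4 s² e₀ = - 4 y² / Z²` -/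
theorem s2_e0 (ξ η : ℝ) : 4 * ((Real.sin η : ℝ) : ℂ) ^ 2 * e0 (Real.sin η) (Real.cos η) =
    -(4 * ((Complex.exp (pt ξ η)).im : ℂ) ^ 2 / Complex.exp (pt ξ η) ^ 2) := by
  have hE := Complex.exp_ne_zero (pt ξ η)
  have hc : conj (Complex.exp (pt ξ η)) ≠ 0 := (map_ne_zero _).2 hE
  rw [e0_eq ξ η, exp_pt_im]
  have h1 : Complex.exp (pt ξ η) * conj (Complex.exp (pt ξ η)) = ((Real.exp ξ : ℝ) : ℂ) ^ 2 := by
    rw [Complex.mul_conj', norm_exp_pt]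
  rw [Complex.ofReal_mul, mul_pow, ← h1]
  field_simp

theorem E3a3 {β : ℂ → ℂ} (h : Ext β) {a : ℝ} (ha : 0 < a) (ha1 : a < 1) {ξ η : ℝ} (h0 : 0 < η)
    (h1 : η < π) (hξ : ξ < 0) (hξ1 : Real.log (tau a) < ξ) :
    srad β (zf (pt ξ η)) = ph (Complex.exp (pt ξ η)) ^ 2 *
      tX (Xf β a (pt ξ η)) (deriv (Xf β a) (pt ξ η)) (deriv (deriv (Xf β a)) (pt ξ η))
        (Real.sin η) (Real.cos η) := by
  have a1 := addI_ne (ξ := ξ) h0 h1
  have a2 := subI_ne (η := η) hξ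
  have a3 := subconj_ne (ξ := ξ) h0 h1
  have hz := zf_mem (ξ := ξ) h0 h1
  have hz0 := zf_ne h0 h1 hξ
  have hza := zf_ne_a ha ha1 h0 h1 hξ1
  have haB : (a : ℂ) ∈ ball (0 : ℂ) 1 := by
    rw [mem_ball_zero_iff, Complex.norm_real, Real.norm_of_nonneg ha.le]
    exact ha1
  have ha0 : (a : ℂ) ≠ 0 := Complex.ofReal_ne_zero.2 ha.ne'
  have hΔ : phi β (zf (pt ξ η)) - phi β (a : ℂ) ≠ 0 := fun h2 =>
    hza (h.inj _ _ hz haB hz0 ha0 (sub_eq_zero.1 h2))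
  have hN : N β (zf (pt ξ η)) ≠ 0 := h.ne _ hz
  have hdphi : dphi β (zf (pt ξ η)) ≠ 0 := by
    rw [dphi_eq hz0]
    exact div_ne_zero (neg_ne_zero.2 hN) (pow_ne_zero 2 hz0)
  have hzd : zd (pt ξ η) ≠ 0 := by
    unfold zd
    refine div_ne_zero (mul_ne_zero (mul_ne_zero (by norm_num) Complex.I_ne_zero)
      (Complex.exp_ne_zero _)) (pow_ne_zero 2 (by rwa [add_comm]))
  have hX : Xf β a (pt ξ η) ≠ 0 := by
    unfold Xf
    exact div_ne_zero (mul_ne_zero hzd hdphi) (mul_ne_zero two_ne_zero hΔ)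
  obtain ⟨d1, d2⟩ := deriv2_Xf h ha ha1 a1 hz hz0 hza
  have hnz : (1 : ℂ) - ((‖zf (pt ξ η)‖ : ℝ) : ℂ) ^ 2 =
      1 - zf (pt ξ η) * conj (zf (pt ξ η)) := by
    rw [Complex.mul_conj']
  have hconj : conj (Complex.exp (pt ξ η)) = Complex.exp (pt ξ η) -
      2 * ((Complex.exp (pt ξ η)).im : ℂ) * I := by
    have := Complex.sub_conj (Complex.exp (pt ξ η))
    push_cast at this
    linear_combination -this
  unfold tX
  rw [d1, d2, bracket_alg hX rfl rfl (half_zf a1), s2_e0 ξ η]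
  unfold srad
  rw [hnz, norm_zf, Complex.ofReal_div]
  have h4 := frame_sq (Complex.exp (pt ξ η)) (conj (Complex.exp (pt ξ η)))
    ((Complex.exp (pt ξ η)).im : ℂ) (‖I - Complex.exp (pt ξ η)‖ : ℝ)
    (‖I + Complex.exp (pt ξ η)‖ : ℝ) hconj (Complex.exp_ne_zero _) a1 a2 a3
    (Complex.ofReal_ne_zero.2 (norm_ne_zero_iff.2 a2))
    (Complex.ofReal_ne_zero.2 (norm_ne_zero_iff.2 a1))
  rw [conj_zf]
  obtain ⟨S, hS⟩ : ∃ S, S = Sc β (zf (pt ξ η)) := ⟨_, rfl⟩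
  rw [← hS]
  unfold ph zf zd
  rw [Complex.ofReal_div]
  linear_combination S * h4

end Pool.Agent.Helper69.EK7
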