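import Pool.Agent.Helper69.EK7.Field
set_option autoImplicit false
open Complex MeasureTheory Metric Set
open scoped Real ComplexConjugate

/-!
# Project EK7: from the disc to the strip, and the Gibbs step
-/

namespace Pool.Agent.Helper69.EK7

open Pool.Agent.Helper39.Area Pool.Agent.Helper52.EK Pool.Agent.Helper70.EK
open Pool.Agent.Helper9.EK (rotβ rot_ExtR)
open Pool.Agent.Helper61.EK (N_circ_cont N_circ_pos EntropyStmt KfContStmt exp_per)

/-- the abstract comparison -/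
theorem core2 {G : ℂ → ℂ → ℂ} {L : ℝ} (hG : GLip2 G L) {p e m err t : ℂ} {δ : ℝ} (hp : ‖p‖ = 1)
    (he : ‖e‖ = 1) (h1 : ‖p - 1‖ ≤ 16 * δ) (h2 : ‖err‖ ≤ 12 * δ) :
    ‖p * e - G (p * (m + err)) (p ^ 2 * t)‖ ^ 2 ≤
      ‖G m t - e‖ ^ 2 + 4 * (16 + 28 * L) * δ := by
  have hL := hG.nonneg
  have a1 : ‖p * e - e‖ ≤ 16 * δ := by
    have : p * e - e = (p - 1) * e := by ring
    rw [this, norm_mul, he, mul_one]
    exact h1
  have a2 : ‖G m t - G (m + err) t‖ ≤ L * (12 * δ) := by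
    have h3 := hG.lip m (m + err) t
    have h4 : ‖m - (m + err)‖ = ‖err‖ := by
      have : m - (m + err) = -err := by ring
      rw [this, norm_neg]
    rw [h4] at h3
    exact h3.trans (mul_le_mul_of_nonneg_left h2 hL)
  have a3 : ‖G (p * (m + err)) (p ^ 2 * t) - G (m + err) t‖ ≤ L * (16 * δ) :=
    (hG.rot p (m + err) t hp).trans (mul_le_mul_of_nonneg_left h1 hL)
  have a4 : ‖p * e - G (p * (m + err)) (p ^ 2 * t)‖ ≤ ‖G m t - e‖ + (16 + 28 * L) * δ := by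
    have e1 : p * e - G (p * (m + err)) (p ^ 2 * t) = (p * e - e) + (-(G m t - e)) +
        (G m t - G (m + err) t) + (-(G (p * (m + err)) (p ^ 2 * t) - G (m + err) t)) := by ring
    rw [e1]
    have b1 := norm_add_le ((p * e - e) + (-(G m t - e)) + (G m t - G (m + err) t))
      (-(G (p * (m + err)) (p ^ 2 * t) - G (m + err) t))
    have b2 := norm_add_le ((p * e - e) + (-(G m t - e))) (G m t - G (m + err) t)
    have b3 := norm_add_le (p * e - e) (-(G m t - e))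
    rw [norm_neg] at b1 b3
    nlinarith
  have a5 : ‖p * e - G (p * (m + err)) (p ^ 2 * t)‖ ≤ 2 := by
    have b1 := norm_sub_le (p * e) (G (p * (m + err)) (p ^ 2 * t))
    rw [norm_mul, hp, he] at b1
    have b2 := hG.le_one (p * (m + err)) (p ^ 2 * t)
    linarith
  have a6 : ‖G m t - e‖ ≤ 2 := by
    have b1 := norm_sub_le (G m t) e
    rw [he] at b1
    have b2 := hG.le_one m t
    linarith
  have hδ : 0 ≤ (16 + 28 * L) * δ := by
    have : 0 ≤ δ := by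
      have := norm_nonneg (p - 1)
      linarith
    positivity
  have c1 := norm_nonneg (p * e - G (p * (m + err)) (p ^ 2 * t))
  have c2 := norm_nonneg (G m t - e)
  nlinarith [mul_nonneg hδ c1, mul_nonneg hδ c2]

theorem F3_contOn {G : ℂ → ℂ → ℂ} {L : ℝ} (hG : GLip2 G L) {X : ℂ → ℂ} {x₁ x₂ : ℝ}
    (hX : NiceX X x₁ x₂) :
    ContinuousOn (fun p : ℝ × ℝ => TG2 G (X (pt p.1 p.2)) (deriv X (pt p.1 p.2))
      (deriv (deriv X) (pt p.1 p.2)) (Real.sin p.2) (Real.cos p.2)) (Icc x₁ x₂ ×ˢ Icc 0 π) := by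
  have hmap : MapsTo (fun p : ℝ × ℝ => pt p.1 p.2) (Icc x₁ x₂ ×ˢ Icc 0 π) (Rect x₁ x₂) := by
    rintro ⟨ξ, η⟩ ⟨hξ, hη⟩
    change pt ξ η ∈ Rect x₁ x₂
    unfold Rect
    rw [Complex.mem_reProdIm]
    have e1 : (pt ξ η).re = ξ := by simp [pt]
    have e2 : (pt ξ η).im = η := by simp [pt]
    rw [e1, e2]
    exact ⟨hξ, hη⟩
  have h1 : ContinuousOn (fun p : ℝ × ℝ => X (pt p.1 p.2)) (Icc x₁ x₂ ×ˢ Icc 0 π) :=
    hX.an.continuousOn.comp continuous_pt.continuousOn hmap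
  have h2 : ContinuousOn (fun p : ℝ × ℝ => deriv X (pt p.1 p.2)) (Icc x₁ x₂ ×ˢ Icc 0 π) :=
    hX.an.deriv.continuousOn.comp continuous_pt.continuousOn hmap
  have h2' : ContinuousOn (fun p : ℝ × ℝ => deriv (deriv X) (pt p.1 p.2))
      (Icc x₁ x₂ ×ˢ Icc 0 π) :=
    hX.an.deriv.deriv.continuousOn.comp continuous_pt.continuousOn hmap
  have hne : ∀ p ∈ Icc x₁ x₂ ×ˢ Icc 0 π, X (pt p.1 p.2) ≠ 0 := fun p hp => hX.ne _ (hmap hp)
  have h3 : ContinuousOn (fun p : ℝ × ℝ => deriv X (pt p.1 p.2) / X (pt p.1 p.2))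
      (Icc x₁ x₂ ×ˢ Icc 0 π) := h2.div h1 hne
  have h3' : ContinuousOn (fun p : ℝ × ℝ => deriv (deriv X) (pt p.1 p.2) / X (pt p.1 p.2))
      (Icc x₁ x₂ ×ˢ Icc 0 π) := h2'.div h1 hne
  have h4 : ContinuousOn (fun p : ℝ × ℝ => e0 (Real.sin p.2) (Real.cos p.2))
      (Icc x₁ x₂ ×ˢ Icc 0 π) := by
    apply Continuous.continuousOn
    unfold e0
    fun_prop
  have h5 : ContinuousOn (fun p : ℝ × ℝ => mX (X (pt p.1 p.2)) (deriv X (pt p.1 p.2))
      (Real.sin p.2) (Real.cos p.2)) (Icc x₁ x₂ ×ˢ Icc 0 π) := by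
    unfold mX
    exact ((continuousOn_const.add h4).mul
      (((continuousOn_const.mul h1).sub continuousOn_const).add h3)).sub continuousOn_const
  have h6 : ContinuousOn (fun p : ℝ × ℝ => tX (X (pt p.1 p.2)) (deriv X (pt p.1 p.2))
      (deriv (deriv X) (pt p.1 p.2)) (Real.sin p.2) (Real.cos p.2)) (Icc x₁ x₂ ×ˢ Icc 0 π) := by
    unfold tX
    have h7 : ContinuousOn (fun p : ℝ × ℝ => 4 * ((Real.sin p.2 : ℝ) : ℂ) ^ 2)
        (Icc x₁ x₂ ×ˢ Icc 0 π) := by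
      apply Continuous.continuousOn
      fun_prop
    exact (h7.mul h4).mul (((continuousOn_const.sub (continuousOn_const.mul (h1.pow 2))).add
      h3').sub (continuousOn_const.mul (h3.pow 2)))
  unfold TG2
  exact ((hG.cont.comp_continuousOn (h5.prodMk h6)).sub h4).norm.pow 2

/-- **from the disc to the strip** -/
theorem E3F {G : ℂ → ℂ → ℂ} {L : ℝ} (hG : GLip2 G L) : ∀ A : ℝ, 1 ≤ A → ∃ C : ℝ,
    ∀ (β : ℂ → ℂ) (R a : ℝ), ExtR β R → Real.exp (-1) < a → a < 1 →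
    Real.log (tau a) + A ≤ -A →
    Kf (wf2 G β) 1 (-1) (Real.log a) ≤ π⁻¹ * II (Real.log (tau a) + A) (-A)
      (fun ξ η => TG2 G (Xf β a (pt ξ η)) (deriv (Xf β a) (pt ξ η))
        (deriv (deriv (Xf β a)) (pt ξ η)) (Real.sin η) (Real.cos η)) + C := by
  intro A hA
  obtain ⟨C, hC⟩ := Pool.Agent.Helper84.EK.E3b A hA
  refine ⟨C + 4 * (16 + 28 * L), ?_⟩
  intro β R a hβ ha ha1 hx
  have ha0 : 0 < a := (Real.exp_pos _).trans ha
  have hw := wf2_cont hG hβ.toExt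
  have h1 := hC (wf2 G β) a hw (wf2_le_one hG β) ha ha1 hx
  have hL := hG.nonneg
  set x₁ := Real.log (tau a) + A with hx₁
  have hx₂ : -A < 0 := by linarith
  have hxx : Real.log (tau a) < x₁ := by linarith
  have hX : NiceX (Xf β a) x₁ (-A) := Pool.Agent.Helper67.EK.E1c hβ ha0 ha1 hxx hx₂
  have hsub : Ioc x₁ (-A) ×ˢ Ioo 0 π ⊆ Icc x₁ (-A) ×ˢ Icc 0 π :=
    prod_mono Ioc_subset_Icc_self Ioo_subset_Icc_self
  have h2 : II x₁ (-A) (fun ξ η => ‖ee 1 (zf (pt ξ η)) - wf2 G β (zf (pt ξ η))‖ ^ 2) ≤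
      II x₁ (-A) (fun ξ η => TG2 G (Xf β a (pt ξ η)) (deriv (Xf β a) (pt ξ η))
        (deriv (deriv (Xf β a)) (pt ξ η)) (Real.sin η)
        (Real.cos η)) + (4 * (16 + 28 * L)) * π := by
    apply II_le (M := 4) hx hx₂.le (by positivity) (F1_contOn hw hx₂)
      ((F3_contOn hG hX).mono hsub)
    · intro p hp
      have h3 := (zf_mapsTo hx₂ hp).2
      change ‖zf (pt p.1 p.2)‖ < 1 at h3
      have h4 := norm_sub_le (ee 1 (zf (pt p.1 p.2))) (wf2 G β (zf (pt p.1 p.2)))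
      rw [norm_ee h3] at h4
      have h5 := wf2_le_one hG β (zf (pt p.1 p.2))
      rw [norm_pow, norm_norm]
      have h6 := norm_nonneg (ee 1 (zf (pt p.1 p.2)) - wf2 G β (zf (pt p.1 p.2)))
      nlinarith
    · intro p hp
      unfold TG2
      rw [norm_pow, norm_norm]
      have h4 := norm_sub_le (G (mX (Xf β a (pt p.1 p.2)) (deriv (Xf β a) (pt p.1 p.2))
        (Real.sin p.2) (Real.cos p.2)) (tX (Xf β a (pt p.1 p.2)) (deriv (Xf β a) (pt p.1 p.2))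
        (deriv (deriv (Xf β a)) (pt p.1 p.2)) (Real.sin p.2) (Real.cos p.2)))
        (e0 (Real.sin p.2) (Real.cos p.2))
      rw [norm_e0] at h4
      have h5 := hG.le_one (mX (Xf β a (pt p.1 p.2)) (deriv (Xf β a) (pt p.1 p.2))
        (Real.sin p.2) (Real.cos p.2)) (tX (Xf β a (pt p.1 p.2)) (deriv (Xf β a) (pt p.1 p.2))
        (deriv (deriv (Xf β a)) (pt p.1 p.2)) (Real.sin p.2) (Real.cos p.2))
      have h6 := norm_nonneg (G (mX (Xf β a (pt p.1 p.2)) (deriv (Xf β a) (pt p.1 p.2))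
        (Real.sin p.2) (Real.cos p.2)) (tX (Xf β a (pt p.1 p.2)) (deriv (Xf β a) (pt p.1 p.2))
        (deriv (deriv (Xf β a)) (pt p.1 p.2)) (Real.sin p.2) (Real.cos p.2)) -
        e0 (Real.sin p.2) (Real.cos p.2))
      nlinarith
    · rintro ⟨ξ, η⟩ ⟨hξ, hη⟩
      have hξ' : x₁ < ξ ∧ ξ ≤ -A := hξ
      have hη' : 0 < η ∧ η < π := hη
      have hξ0 : ξ < 0 := by linarith [hξ'.2]
      have hz := zf_norm hη'.1 hη'.2 hξ0
      change ‖ee 1 (zf (pt ξ η)) - wf2 G β (zf (pt ξ η))‖ ^ 2 ≤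
        TG2 G (Xf β a (pt ξ η)) (deriv (Xf β a) (pt ξ η)) (deriv (deriv (Xf β a)) (pt ξ η))
          (Real.sin η) (Real.cos η) + (4 * (16 + 28 * L)) * Real.exp ξ
      have hE : ‖Complex.exp (pt ξ η)‖ ≤ 1 / 2 := by
        rw [norm_E]
        have h7 : ξ ≤ -1 := by linarith [hξ'.2]
        have h8 : Real.exp ξ ≤ Real.exp (-1) := Real.exp_le_exp.mpr h7
        have h9 : Real.exp (-1) < 0.3678794412 := Real.exp_neg_one_lt_d9
        linarith
      have h10 := core2 hG (m := mX (Xf β a (pt ξ η)) (deriv (Xf β a) (pt ξ η)) (Real.sin η)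
        (Real.cos η)) (t := tX (Xf β a (pt ξ η)) (deriv (Xf β a) (pt ξ η))
        (deriv (deriv (Xf β a)) (pt ξ η)) (Real.sin η) (Real.cos η)) (norm_ph hE) (norm_e0 η)
        (ph_sub_one hE) (err_le hE)
      rw [norm_E] at h10
      have m1 := Pool.Agent.Helper97.EK.E3a1 hη'.1 hη'.2 hξ0
      have m2 := Pool.Agent.Helper97.EK.E3a2 hβ.toExt ha0 ha1 hη'.1 hη'.2 hξ0
        (lt_trans hxx hξ'.1)
      have m3 := E3a3 hβ.toExt ha0 ha1 hη'.1 hη'.2 hξ0 (lt_trans hxx hξ'.1)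
      have h11 : ‖ee 1 (zf (pt ξ η)) - wf2 G β (zf (pt ξ η))‖ =
          ‖ph (Complex.exp (pt ξ η)) * e0 (Real.sin η) (Real.cos η) -
            G (ph (Complex.exp (pt ξ η)) * (mX (Xf β a (pt ξ η)) (deriv (Xf β a) (pt ξ η))
              (Real.sin η) (Real.cos η) +
              (2 * I * (Complex.exp (pt ξ η)).im / (Complex.exp (pt ξ η) + I) +
              4 * I * (Complex.exp (pt ξ η)).im / (Complex.exp (pt ξ η) - I))))
              (ph (Complex.exp (pt ξ η)) ^ 2 * tX (Xf β a (pt ξ η)) (deriv (Xf β a) (pt ξ η))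
        (deriv (deriv (Xf β a)) (pt ξ η)) (Real.sin η) (Real.cos η))‖ := by
        unfold wf2
        rw [wf_term hz.1, m1, m2, m3, add_assoc]
        rfl
      rw [h11]
      exact h10
  have hπ : 0 < π⁻¹ := inv_pos.mpr Real.pi_pos
  have h3 := mul_le_mul_of_nonneg_left h2 hπ.le
  have h4 : π⁻¹ * ((4 * (16 + 28 * L)) * π) = 4 * (16 + 28 * L) := by
    field_simp
  rw [mul_add, h4] at h3
  linarith

/-- the Gibbs step -/
theorem gibbs2 {κ L : ℝ} {G : ℂ → ℂ → ℂ} (hG : GLip2 G L)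
    (hK : ∃ C a₀ : ℝ, a₀ < 1 ∧ ∀ (β : ℂ → ℂ) (R a : ℝ), ExtR β R → a₀ < a → a < 1 →
      Kf (wf2 G β) 1 (-1) (Real.log a) ≤ κ * Real.log (‖N β a‖ / (1 - a ^ 2)) + C) :
    ∃ C a₀ : ℝ, a₀ < 1 ∧ ∀ (β : ℂ → ℂ) (R a : ℝ), ExtR β R → a₀ < a → a < 1 →
      (2 * π)⁻¹ * (∫ α in (0:ℝ)..(2 * π), ‖N β (a * Complex.exp (α * I))‖ ^ (-κ)) ≤
        C * (1 - a ^ 2) ^ (-(κ - 1)) := by
  have hKc : KfContStmt := fun hw _ h1 h2 => Pool.Agent.Helper26.EK.Kf_cont hw h1 h2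
  obtain ⟨C₁, hE⟩ := Pool.Agent.Helper5.EK.entropy
  obtain ⟨C₂, a₀, ha₀, hK⟩ := hK
  refine ⟨Real.exp (C₁ + C₂), max a₀ (Real.exp (-1)), ?_, ?_⟩
  · apply max_lt ha₀
    rw [Real.exp_lt_one_iff]
    norm_num
  intro β R a h haa ha1
  have ha0 : a₀ < a := (le_max_left _ _).trans_lt haa
  have hae : Real.exp (-1) < a := (le_max_right _ _).trans_lt haa
  have hap : 0 < a := (Real.exp_pos _).trans hae
  have h2π : (0:ℝ) < 2 * π := by positivity
  have hs : 0 < 1 - a ^ 2 := by nlinarith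
  set f : ℝ → ℝ := fun α => ‖N β (a * Complex.exp (α * I))‖ with hf
  have hfc : Continuous f := (N_circ_cont h hap ha1).norm
  have hfp : ∀ α, 0 < f α := fun α => N_circ_pos h hap ha1 α
  set V : ℝ → ℝ := fun α => κ * (Real.log (f α) - Real.log (1 - a ^ 2)) with hV
  have hVc : Continuous V :=
    continuous_const.mul ((hfc.log fun α => (hfp α).ne').sub continuous_const)
  have hfper : Function.Periodic f (2 * π) := by
    intro α
    simp only [hf]
    rw [exp_per]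
  have hVp : Function.Periodic V (2 * π) := by
    intro α
    simp only [hV]
    rw [hfper α]
  have hw := wf2_cont hG h.toExt
  have hKV : ∀ α : ℝ, Kf (wf2 G β) (Complex.exp (α * I)) (-1) (Real.log a) ≤ V α + C₂ := by
    intro α
    rw [rot_Kf2 α]
    have h1 := hK (rotβ β α) R a (rot_ExtR h α) ha0 ha1
    have h2 : N (rotβ β α) (a : ℂ) = N β (a * Complex.exp (α * I)) := by
      rw [Pool.Agent.Helper9.EK.rot_N' α, mul_comm]
    rw [h2, Real.log_div (hfp α).ne' hs.ne'] at h1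
    simpa only [hV, hf] using h1
  have hmain := Pool.Agent.Helper61.EK.gibbs_core hE hKc hw hae ha1 hVc hVp hKV
  have e : ∀ α, Real.exp (-V α) = f α ^ (-κ) * (1 - a ^ 2) ^ κ := by
    intro α
    rw [Real.rpow_def_of_pos (hfp α), Real.rpow_def_of_pos hs, ← Real.exp_add]
    congr 1
    simp only [hV]
    ring
  simp only [e] at hmain
  rw [intervalIntegral.integral_mul_const, ← mul_assoc] at hmain
  have hsκ : 0 < (1 - a ^ 2) ^ κ := Real.rpow_pos_of_pos hs _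
  have h5 : (1 - a ^ 2) ^ (-(κ - 1)) * (1 - a ^ 2) ^ κ = 1 - a ^ 2 := by
    rw [← Real.rpow_add hs]
    have : -(κ - 1) + κ = 1 := by ring
    rw [this, Real.rpow_one]
  refine le_of_mul_le_mul_right (hmain.trans (le_of_eq ?_)) hsκ
  rw [mul_assoc, h5]

end Pool.Agent.Helper69.EK7
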