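import Pool.Agent.Helper69.EK6.Fin
set_option autoImplicit false
open Complex MeasureTheory Metric Set
open scoped Real ComplexConjugate

/-!
# Project EK7: expressions in eleven variables, complex expressions

Variables: `0: l, 1: S, 2: C, 3, 4: P, 5, 6: X - 1, 7, 8: ρ, 9, 10: v`.
-/

namespace Pool.Agent.Helper69.EK7

open Pool.Sos71 Pool.EK71 Pool.Agent.Helper52.EK

structure Pnt9 where
  t : Pnt
  r1 : ℝ
  r2 : ℝ
  v1 : ℝ
  v2 : ℝ

/-- the value of an expression -/
noncomputable def re9 (x : Pnt9) : Ex → ℝ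
  | Ex.lit z => z
  | Ex.va i => match i with
    | 0 => x.t.a
    | 1 => x.t.b
    | 2 => x.t.c
    | 3 => x.t.d
    | 4 => x.t.e
    | 5 => x.t.f
    | 6 => x.t.g
    | 7 => x.r1
    | 8 => x.r2
    | 9 => x.v1
    | _ => x.v2
  | Ex.add p q => re9 x p + re9 x q
  | Ex.mul p q => re9 x p * re9 x q
  | Ex.sc z p => z * re9 x p
  | Ex.pow p n => re9 x p ^ n
  | Ex.bp P => ev2 x.t.f x.t.g P

/-- only the variables `0, ..., 6` occur -/
def low : Ex → Bool
  | Ex.lit _ => true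
  | Ex.va i => Nat.ble i 6
  | Ex.add p q => low p && low q
  | Ex.mul p q => low p && low q
  | Ex.sc _ p => low p
  | Ex.pow p _ => low p
  | Ex.bp _ => true

theorem re9_low (x : Pnt9) (p : Ex) (h : low p = true) : re9 x p = p.re x.t := by
  induction p with
  | lit z => rfl
  | va i =>
    simp only [low, Nat.ble_eq] at h
    rcases i with _ | _ | _ | _ | _ | _ | _ | i <;> first | rfl | omega
  | add p q ihp ihq =>
    simp only [low, Bool.and_eq_true] at h
    show re9 x p + re9 x q = p.re x.t + q.re x.t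
    rw [ihp h.1, ihq h.2]
  | mul p q ihp ihq =>
    simp only [low, Bool.and_eq_true] at h
    show re9 x p * re9 x q = p.re x.t * q.re x.t
    rw [ihp h.1, ihq h.2]
  | sc z p ih =>
    simp only [low] at h
    show (z : ℝ) * re9 x p = z * p.re x.t
    rw [ih h]
  | pow p n ih =>
    simp only [low] at h
    show re9 x p ^ n = p.re x.t ^ n
    rw [ih h]
  | bp P => rfl

/-! ### complex expressions -/

structure CE where
  r : Ex
  i : Ex

namespace CE

def add (a b : CE) : CE := ⟨Ex.add a.r b.r, Ex.add a.i b.i⟩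
def mul (a b : CE) : CE := ⟨Ex.add (Ex.mul a.r b.r) (Ex.sc (-1) (Ex.mul a.i b.i)),
  Ex.add (Ex.mul a.r b.i) (Ex.mul a.i b.r)⟩
def sc (z : ℤ) (a : CE) : CE := ⟨Ex.sc z a.r, Ex.sc z a.i⟩
def cj (a : CE) : CE := ⟨a.r, Ex.sc (-1) a.i⟩
def mI (a : CE) : CE := ⟨Ex.sc (-1) a.i, a.r⟩
def pow (a : CE) : ℕ → CE
  | 0 => ⟨Ex.lit 1, Ex.lit 0⟩
  | 1 => a
  | n + 2 => mul a (pow a (n + 1))
def ofR (p : Ex) : CE := ⟨p, Ex.sc 0 p⟩
/-- multiplication by a real expression -/
def rm (p : Ex) (a : CE) : CE := ⟨Ex.mul p a.r, Ex.mul p a.i⟩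

/-- the value -/
noncomputable def v (x : Pnt9) (a : CE) : ℂ := ⟨re9 x a.r, re9 x a.i⟩

variable (x : Pnt9) (a b : CE)

theorem v_re : (v x a).re = re9 x a.r := rfl
theorem v_im : (v x a).im = re9 x a.i := rfl

theorem v_add : v x (add a b) = v x a + v x b := by
  apply Complex.ext
  · rfl
  · rfl

theorem v_mul : v x (mul a b) = v x a * v x b := by
  apply Complex.ext
  · rw [mul_re]
    simp only [v, mul, re9]
    push_cast
    ring
  · rw [mul_im]
    simp only [v, mul, re9]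

theorem v_sc (z : ℤ) : v x (sc z a) = (z : ℂ) * v x a := by
  apply Complex.ext
  · simp [v, sc, re9]
  · simp [v, sc, re9]

theorem v_cj : v x (cj a) = conj (v x a) := by
  apply Complex.ext
  · rfl
  · simp [v, cj, re9]

theorem v_mI : v x (mI a) = I * v x a := by
  apply Complex.ext
  · simp [v, mI, re9]
  · simp [v, mI, re9]

theorem v_pow (n : ℕ) : v x (pow a n) = v x a ^ n := by
  induction n using Nat.strong_induction_on with
  | _ n ih =>
    match n with
    | 0 =>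
      apply Complex.ext
      · simp [v, pow, re9]
      · simp [v, pow, re9]
    | 1 => simp [pow]
    | n + 2 =>
      rw [pow, v_mul, ih (n + 1) (by omega)]
      ring

theorem v_ofR (p : Ex) : v x (ofR p) = (re9 x p : ℂ) := by
  apply Complex.ext
  · rfl
  · simp [v, ofR, re9]

theorem v_rm (p : Ex) : v x (rm p a) = (re9 x p : ℂ) * v x a := by
  apply Complex.ext
  · simp [v, rm, re9]
  · simp [v, rm, re9]

end CE

/-- `P` -/
def cP : CE := ⟨Ex.va 3, Ex.va 4⟩
/-- `X` -/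
def cX : CE := ⟨Ex.bp [[1], [1]], Ex.bp [[0, 1]]⟩
/-- `X - 1` -/
def cU : CE := ⟨Ex.bp [[0], [1]], Ex.bp [[0, 1]]⟩
/-- `ρ` -/
def cR : CE := ⟨Ex.va 7, Ex.va 8⟩
/-- `v` -/
def cV : CE := ⟨Ex.va 9, Ex.va 10⟩

/-- the point of the variables -/
noncomputable def px9 (l η : ℝ) (X Y Z w : ℂ) : Pnt9 :=
  ⟨EK6.px l η X Y, ((Real.sin (η / 2) : ℂ) ^ 2 * (Z / X - (Y / X) ^ 2)).re,
    ((Real.sin (η / 2) : ℂ) ^ 2 * (Z / X - (Y / X) ^ 2)).im, w.re, w.im⟩

variable (l η : ℝ) (X Y Z w : ℂ)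

theorem v_cP : CE.v (px9 l η X Y Z w) cP = (Real.sin (η / 2) : ℂ) * (Y / X) := by
  apply Complex.ext
  · simp only [CE.v, cP, re9, px9, EK6.px, mul_re, ofReal_re, ofReal_im]
    ring
  · simp only [CE.v, cP, re9, px9, EK6.px, mul_im, ofReal_re, ofReal_im]
    ring

theorem v_cX : CE.v (px9 l η X Y Z w) cX = X := by
  apply Complex.ext
  · simp only [CE.v, cX, re9, px9, EK6.px, ev2, ev1]
    push_cast
    ring
  · simp only [CE.v, cX, re9, px9, EK6.px, ev2, ev1]
    push_cast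
    ring

theorem v_cU : CE.v (px9 l η X Y Z w) cU = X - 1 := by
  apply Complex.ext
  · simp only [CE.v, cU, re9, px9, EK6.px, ev2, ev1, sub_re, one_re]
    push_cast
    ring
  · simp only [CE.v, cU, re9, px9, EK6.px, ev2, ev1, sub_im, one_im]
    push_cast
    ring

theorem v_cR : CE.v (px9 l η X Y Z w) cR =
    (Real.sin (η / 2) : ℂ) ^ 2 * (Z / X - (Y / X) ^ 2) := Complex.ext rfl rfl

theorem v_cV : CE.v (px9 l η X Y Z w) cV = w := Complex.ext rfl rfl

end Pool.Agent.Helper69.EK7
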