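import Pool.Agent.Helper69.EK7.Pot
import Pool.Agent.Helper69.EK7.Px
import Pool.Agent.Helper69.EK7.KOneF
set_option autoImplicit false
open Complex MeasureTheory Metric Set
open scoped Real ComplexConjugate

/-!
# Project EK7: groups of potentials `2 S g(S, C) (M₁ + i M₂) / D^k P^j conj(P)^n ρ^e`
-/

namespace Pool.Agent.Helper69.EK7

open Pool.Sos71
open Pool.EK71 Pool.Agent.Helper52.EK Pool.Agent.Helper2.EK
open Pool.Agent.Helper69.EK3 hiding qX qY qL Rr c1_Rr c2_Rr Rr_le Dn Dn_ev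
open Pool.Agent.Helper69.EK5 (DQ Dd Dd_pos Dd_low DL e_D qX qY Rr c1_Rr Dn Dn_ev normsq_sub_one)
open Pool.Agent.Helper71.EK3 (xL yL e_x e_y)
open Pool.Agent.Helper71.EKC (e_sb sb2)

/-! ### angular functions -/

/-- `ader (ash (w + 1) 0 g) = S^w adw w g` -/
def adw (w : ℕ) : AP → AP
  | [] => []
  | (c, i, j) :: g => (Int.mul c (Int.ofNat (w + 1 + i)), i, j + 1) ::
      ((match j with
        | 0 => []
        | j' + 1 => [(Int.mul (-c) (Int.ofNat (j' + 1)), i + 2, j')]) ++ adw w g)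

theorem aev_adw (S C : ℝ) (w : ℕ) (g : AP) :
    aev S C (ader (ash (w + 1) 0 g)) = S ^ w * aev S C (adw w g) := by
  induction g with
  | nil => simp [ader, ash, adw, aev]
  | cons t g ih =>
    obtain ⟨c, i, j⟩ := t
    have e : i + (w + 1) = (i + w) + 1 := by omega
    cases j with
    | zero =>
      simp only [ash, e, ader, adw, List.cons_append, List.nil_append, aev, imul_cast',
        ofNat_cast', add_zero]
      rw [mul_add, ← ih]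
      push_cast
      ring
    | succ j =>
      simp only [ash, e, ader, adw, List.cons_append, List.nil_append, aev, imul_cast',
        ofNat_cast', add_zero]
      rw [mul_add, mul_add, ← ih]
      push_cast
      simp only [Nat.succ_eq_add_one]
      ring

theorem af_adw (w : ℕ) (g : AP) (η : ℝ) :
    af (ader (ash (w + 1) 0 g)) η = Real.sin (η / 2) ^ w * af (adw w g) η := by
  unfold af
  rw [aev_adw]

theorem af_ashw (w : ℕ) (g : AP) (η : ℝ) :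
    af (ash (w + 1) 0 g) η = Real.sin (η / 2) ^ (w + 1) * af g η := by
  unfold af
  rw [aev_ash]
  ring

/-! ### the data -/

/-- the potentials `2 S g (M₁ + i M₂) / D^k P^j conj(P)^n ρ^e`, `(g, M₁, M₂) ∈ l` -/
structure Grp where
  j : ℕ
  n : ℕ
  e : ℕ
  k : ℕ
  l : List (AP × BP × BP)

/-- the weight of the jet factor -/
def Grp.w (G : Grp) : ℕ := G.j + G.n + 2 * G.e

/-- the growth condition of one potential -/
def okG (k : ℕ) (t : AP × BP × BP) : Bool :=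
  t.1.all fun s => dle (2 * k + 3 + s.2.1) t.2.1 && dle (2 * k + 3 + s.2.1) t.2.2

/-- homogeneity, growth -/
def Grp.ok (G : Grp) (H : ℕ) : Bool :=
  Nat.ble (G.w + 1) (2 * H) && G.l.all fun t => ahom (2 * H - 1 - G.w) t.1 && okG G.k t

/-! ### functionals of the jets -/

noncomputable def qF (X : ℂ → ℂ) (ω : ℂ) : ℂ := deriv X ω / X ω

noncomputable def qR (X : ℂ → ℂ) (ω : ℂ) : ℂ :=
  deriv (deriv X) ω / X ω - (deriv X ω / X ω) ^ 2

noncomputable def fG (j e : ℕ) (X : ℂ → ℂ) (ω : ℂ) : ℂ := qF X ω ^ j * qR X ω ^ e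

noncomputable def hG (n : ℕ) (X : ℂ → ℂ) (ω : ℂ) : ℂ := qF X ω ^ n

theorem anF_q : AnF qF := fun _ _ _ hX => hX.an.deriv.div hX.an hX.ne

theorem anF_r : AnF qR := fun _ _ _ hX =>
  (hX.an.deriv.deriv.div hX.an hX.ne).sub ((hX.an.deriv.div hX.an hX.ne).pow 2)

theorem anF_f (j e : ℕ) : AnF (fG j e) := fun X x₁ x₂ hX =>
  ((anF_q X x₁ x₂ hX).pow j).mul ((anF_r X x₁ x₂ hX).pow e)

theorem anF_h (n : ℕ) : AnF (hG n) := fun X x₁ x₂ hX => (anF_q X x₁ x₂ hX).pow n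

theorem deriv_qF {X : ℂ → ℂ} {ω : ℂ} (h : AnalyticAt ℂ X ω) (h0 : X ω ≠ 0) :
    HasDerivAt (qF X) (qR X ω) ω := by
  have h1 := h.deriv.differentiableAt.hasDerivAt.div h.differentiableAt.hasDerivAt h0
  refine h1.congr_deriv ?_
  unfold qR
  field_simp

theorem deriv_hG {X : ℂ → ℂ} {ω : ℂ} (h : AnalyticAt ℂ X ω) (h0 : X ω ≠ 0) (n : ℕ) :
    deriv (hG n X) ω = n * (qF X ω ^ (n - 1) * qR X ω) := by
  have h1 := ((deriv_qF h h0).pow n).deriv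
  have e : hG n X = qF X ^ n := rfl
  rw [e, h1]
  ring

/-! ### the complex function of one potential -/

noncomputable def HC (a : DQ) (k : ℕ) (M1 M2 : BP) (X : ℂ) : ℂ :=
  (Rr a k M1 X : ℂ) + I * (Rr a k M2 X : ℂ)

theorem c1_HC (a : DQ) (k : ℕ) (M1 M2 : BP) : C1c (HC a k M1 M2)
    (HC a (k + 1) (qX a k M1) (qX a k M2)) (HC a (k + 1) (qY a k M1) (qY a k M2)) := by
  have h1 := C1c_real (c1_Rr a k M1)
  have h2 := C1c_I (c1_Rr a k M2)
  refine ⟨fun X hX => ?_, h1.cx.add h2.cx, h1.cy.add h2.cy⟩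
  refine ((h1.hd X hX).add (h2.hd X hX)).congr_fderiv ?_
  ext v
  simp [HC]
  ring

/-! ### the bounds of the class -/

theorem s_half {η : ℝ} (hη : η ∈ Icc (0:ℝ) (π / 2)) :
    0 ≤ Real.sin (η / 2) ∧ Real.sin (η / 2) ≤ 1 ∧ Real.sin (η / 2) ≤ Real.sin η ∧
      0 ≤ Real.cos (η / 2) ∧ Real.cos (η / 2) ≤ 1 := by
  have hp := Real.pi_pos
  obtain ⟨h0, h1, _⟩ := EK6.half_le hη
  exact ⟨h0, Real.sin_le_one _, h1, Real.cos_nonneg_of_neg_pi_div_two_le_of_le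
    (by linarith [hη.1]) (by linarith [hη.2]), Real.cos_le_one _⟩

/-- the bounds of the class in half angles -/
theorem DiscK.bd {X : ℂ → ℂ} {x₁ x₂ : ℝ} (hx : x₁ ≤ x₂) (hX : NiceH X x₁ x₂)
    (hP : DiscK X x₁ x₂) {ξ η : ℝ} (hξ : ξ ∈ Icc x₁ x₂) (hη : η ∈ Icc (0:ℝ) (π / 2)) :
    Real.sin (η / 2) * ‖X (pt ξ η) - 1‖ ≤ 10 ∧ Real.sin (η / 2) * ‖qF X (pt ξ η)‖ ≤ 38 ∧
      Real.sin (η / 2) ^ 2 * ‖qR X (pt ξ η)‖ ≤ 886 := by
  have q9 := DiscP.X_le X x₁ x₂ hx hX hP.1 ξ hξ η hη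
  have q38 := DiscP.q_le X x₁ x₂ hx hX hP.1 ξ hξ η hη
  have q6 := hP.2 ξ hξ η hη
  obtain ⟨s0, s1, s2, _, _⟩ := s_half hη
  have hs0 : 0 ≤ Real.sin η := s0.trans s2
  refine ⟨?_, (mul_le_mul_of_nonneg_right s2 (norm_nonneg _)).trans q38, ?_⟩
  · have h1 : ‖X (pt ξ η) - 1‖ ≤ ‖X (pt ξ η)‖ + 1 := by
      have := norm_sub_le (X (pt ξ η)) 1
      rwa [norm_one] at this
    calc Real.sin (η / 2) * ‖X (pt ξ η) - 1‖ ≤ Real.sin (η / 2) * (‖X (pt ξ η)‖ + 1) :=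
          mul_le_mul_of_nonneg_left h1 s0
      _ = Real.sin (η / 2) * ‖X (pt ξ η)‖ + Real.sin (η / 2) := by ring
      _ ≤ Real.sin η * ‖X (pt ξ η)‖ + 1 :=
          add_le_add (mul_le_mul_of_nonneg_right s2 (norm_nonneg _)) s1
      _ ≤ 10 := by linarith
  · unfold tX at q6
    unfold qR
    generalize hZ : deriv (deriv X) (pt ξ η) / X (pt ξ η) = z at q6
    generalize hq : deriv X (pt ξ η) / X (pt ξ η) = q at q6 q38
    generalize hx0 : X (pt ξ η) = x at q6 q9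
    have e1 : ‖4 * ((Real.sin η : ℝ) : ℂ) ^ 2 * e0 (Real.sin η) (Real.cos η)‖ =
        4 * Real.sin η ^ 2 := by
      rw [norm_mul, norm_mul, norm_pow, norm_real, norm_e0, mul_one, Real.norm_of_nonneg hs0]
      simp
    rw [norm_mul, e1] at q6
    have e2 : z - q ^ 2 = (1 / 2 - 2 * x ^ 2 + z - 3 / 2 * q ^ 2) + (-(1 / 2) + 2 * x ^ 2 +
        1 / 2 * q ^ 2) := by ring
    have e3 : ‖z - q ^ 2‖ ≤ ‖1 / 2 - 2 * x ^ 2 + z - 3 / 2 * q ^ 2‖ +
        (1 / 2 + 2 * ‖x‖ ^ 2 + 1 / 2 * ‖q‖ ^ 2) := by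
      rw [e2]
      refine (norm_add_le _ _).trans (add_le_add le_rfl ?_)
      refine (norm_add_le _ _).trans (add_le_add ((norm_add_le _ _).trans
        (add_le_add ?_ ?_)) ?_)
      · rw [norm_neg]
        simp
      · rw [norm_mul, norm_pow]
        simp
      · rw [norm_mul, norm_pow]
        simp
    have h1 : Real.sin (η / 2) ^ 2 ≤ Real.sin η ^ 2 := pow_le_pow_left₀ s0 s2 2
    have h2 : Real.sin η ^ 2 ≤ 1 := by nlinarith [Real.sin_le_one η]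
    have h9 : Real.sin η ^ 2 * ‖x‖ ^ 2 ≤ 81 := by
      have := pow_le_pow_left₀ (mul_nonneg hs0 (norm_nonneg _)) q9 2
      rw [mul_pow] at this
      linarith
    have h38 : Real.sin η ^ 2 * ‖q‖ ^ 2 ≤ 1444 := by
      have := pow_le_pow_left₀ (mul_nonneg hs0 (norm_nonneg _)) q38 2
      rw [mul_pow] at this
      linarith
    calc Real.sin (η / 2) ^ 2 * ‖z - q ^ 2‖ ≤ Real.sin η ^ 2 * ‖z - q ^ 2‖ :=
          mul_le_mul_of_nonneg_right h1 (norm_nonneg _)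
      _ ≤ Real.sin η ^ 2 * (‖1 / 2 - 2 * x ^ 2 + z - 3 / 2 * q ^ 2‖ +
        (1 / 2 + 2 * ‖x‖ ^ 2 + 1 / 2 * ‖q‖ ^ 2)) :=
          mul_le_mul_of_nonneg_left e3 (sq_nonneg _)
      _ ≤ 886 := by linarith

/-- growth of one potential -/
theorem Rr_gr (a : DQ) (k m : ℕ) (M : BP) (h : dle (2 * k + 2 + m) M = true) :
    ∃ C : ℝ, 0 ≤ C ∧ ∀ (X : ℂ) (S : ℝ), 0 ≤ S → S ≤ 1 → S * ‖X - 1‖ ≤ 10 →
      S ^ m * |Rr a k M X| ≤ C * (1 + ‖X - 1‖ ^ 2) := by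
  obtain ⟨c, hc, hl⟩ := Dd_low a
  refine ⟨nr2 M * 11 ^ m * c ^ k, mul_nonneg (mul_nonneg (nr2_nonneg M) (by positivity))
    (by positivity), fun X S hS0 hS1 hSX => ?_⟩
  have e := normsq_sub_one X
  obtain ⟨T, hT⟩ : ∃ T, T = Real.sqrt (1 + ‖X - 1‖ ^ 2) := ⟨_, rfl⟩
  have hT2 : T ^ 2 = 1 + ‖X - 1‖ ^ 2 := by
    rw [hT]
    exact Real.sq_sqrt (by positivity)
  have hT0 : 0 ≤ T := by rw [hT]; exact Real.sqrt_nonneg _
  have hT1 : 1 ≤ T := by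
    have : (1:ℝ) ^ 2 ≤ T ^ 2 := by rw [hT2]; nlinarith [sq_nonneg ‖X - 1‖]
    exact le_of_sq_le_sq this hT0
  have hT3 : T ≤ 1 + ‖X - 1‖ := by
    refine le_of_sq_le_sq ?_ (by positivity)
    rw [hT2]
    nlinarith [norm_nonneg (X - 1)]
  have hx : |X.re - 1| ≤ T := by
    refine le_of_sq_le_sq ?_ hT0
    rw [sq_abs, hT2, e]
    nlinarith [sq_nonneg X.im]
  have hy : |X.im| ≤ T := by
    refine le_of_sq_le_sq ?_ hT0
    rw [sq_abs, hT2, e]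
    nlinarith [sq_nonneg (X.re - 1)]
  have h1 := ev2_le' hT1 hx hy _ M h
  have hD : 1 + ‖X - 1‖ ^ 2 ≤ c * Dd a X.re X.im := by
    rw [e]
    exact hl X.re X.im
  have hDp := Dd_pos a X.re X.im
  have hST : S * T ≤ 11 := by
    calc S * T ≤ S * (1 + ‖X - 1‖) := mul_le_mul_of_nonneg_left hT3 hS0
      _ = S + S * ‖X - 1‖ := by ring
      _ ≤ 11 := by linarith
  have hSTm : (S * T) ^ m ≤ 11 ^ m := pow_le_pow_left₀ (mul_nonneg hS0 hT0) hST m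
  have hTD : T ^ (2 * k) ≤ c ^ k * Dd a X.re X.im ^ k := by
    rw [pow_mul, hT2, ← mul_pow]
    exact pow_le_pow_left₀ (by positivity) hD k
  have hn := nr2_nonneg M
  unfold Rr
  rw [abs_div, abs_of_pos (pow_pos hDp k), ← mul_div_assoc, div_le_iff₀ (pow_pos hDp k)]
  calc S ^ m * |ev2 (X.re - 1) X.im M| ≤ S ^ m * (nr2 M * T ^ (2 * k + 2 + m)) :=
        mul_le_mul_of_nonneg_left h1 (pow_nonneg hS0 m)
    _ = nr2 M * (S * T) ^ m * T ^ (2 * k) * (1 + ‖X - 1‖ ^ 2) := by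
        rw [← hT2, mul_pow]
        ring
    _ ≤ nr2 M * 11 ^ m * (c ^ k * Dd a X.re X.im ^ k) * (1 + ‖X - 1‖ ^ 2) := by
        gcongr
    _ = nr2 M * 11 ^ m * c ^ k * (1 + ‖X - 1‖ ^ 2) * Dd a X.re X.im ^ k := by ring

theorem HC_gr1 (a : DQ) (k m : ℕ) (M1 M2 : BP) (h : dle (2 * k + 2 + m) M1 = true)
    (h' : dle (2 * k + 2 + m) M2 = true) :
    ∃ C : ℝ, 0 ≤ C ∧ ∀ (X : ℂ) (S : ℝ), 0 ≤ S → S ≤ 1 → S * ‖X - 1‖ ≤ 10 →
      S ^ m * ‖HC a k M1 M2 X‖ ≤ C * (1 + ‖X - 1‖ ^ 2) := by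
  obtain ⟨C₁, h1, k1⟩ := Rr_gr a k m M1 h
  obtain ⟨C₂, h2, k2⟩ := Rr_gr a k m M2 h'
  refine ⟨C₁ + C₂, add_nonneg h1 h2, fun X S a1 a2 a3 => ?_⟩
  have e : ‖HC a k M1 M2 X‖ ≤ |Rr a k M1 X| + |Rr a k M2 X| := by
    unfold HC
    refine (norm_add_le _ _).trans (add_le_add ?_ ?_)
    · rw [norm_real, Real.norm_eq_abs]
    · rw [norm_mul, norm_I, one_mul, norm_real, Real.norm_eq_abs]
  have h3 := mul_le_mul_of_nonneg_left e (pow_nonneg a1 m)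
  have h4 := k1 X S a1 a2 a3
  have h5 := k2 X S a1 a2 a3
  rw [mul_add] at h3
  rw [add_mul]
  linarith

theorem HC_gr (a : DQ) (k : ℕ) (M1 M2 : BP) (g : AP) (h : okG k (g, M1, M2) = true) :
    ∃ C : ℝ, 0 ≤ C ∧ ∀ (X : ℂ) (η : ℝ), η ∈ Icc (0:ℝ) (π / 2) →
      Real.sin (η / 2) * ‖X - 1‖ ≤ 10 →
      Real.sin (η / 2) * |af g η| * ‖HC a k M1 M2 X‖ ≤ C * (1 + ‖X - 1‖ ^ 2) := by
  induction g with
  | nil =>
    refine ⟨0, le_rfl, fun X η hη _ => ?_⟩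
    simp [af, aev]
  | cons t g ih =>
    obtain ⟨c, i, j⟩ := t
    simp only [okG, List.all_cons, Bool.and_eq_true] at h
    obtain ⟨⟨a1, a2⟩, a3⟩ := h
    obtain ⟨C₁, h1, k1⟩ := ih (by simpa only [okG] using a3)
    have e0 : 2 * k + 3 + i = 2 * k + 2 + (i + 1) := by omega
    rw [e0] at a1 a2
    obtain ⟨C₂, h2, k2⟩ := HC_gr1 a k (i + 1) M1 M2 a1 a2
    refine ⟨|(c : ℝ)| * C₂ + C₁, by positivity, fun X η hη hX => ?_⟩
    obtain ⟨s0, s1, _, c0, c1⟩ := s_half hη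
    have k3 := k1 X η hη hX
    have k4 := k2 X _ s0 s1 hX
    have hn := norm_nonneg (HC a k M1 M2 X)
    have e1 : |af ((c, i, j) :: g) η| ≤ |(c : ℝ)| * Real.sin (η / 2) ^ i + |af g η| := by
      unfold af
      rw [aev]
      refine (abs_add_le _ _).trans (add_le_add ?_ le_rfl)
      rw [abs_mul, abs_of_nonneg (mul_nonneg (pow_nonneg s0 i) (pow_nonneg c0 j))]
      refine mul_le_mul_of_nonneg_left ?_ (abs_nonneg _)
      exact mul_le_of_le_one_right (pow_nonneg s0 i) (pow_le_one₀ c0 c1)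
    have h3 : Real.sin (η / 2) * |af ((c, i, j) :: g) η| * ‖HC a k M1 M2 X‖ ≤
        Real.sin (η / 2) * (|(c : ℝ)| * Real.sin (η / 2) ^ i + |af g η|) *
          ‖HC a k M1 M2 X‖ := by gcongr
    refine h3.trans ?_
    have e2 : Real.sin (η / 2) * (|(c : ℝ)| * Real.sin (η / 2) ^ i + |af g η|) *
        ‖HC a k M1 M2 X‖ = |(c : ℝ)| * (Real.sin (η / 2) ^ (i + 1) * ‖HC a k M1 M2 X‖) +
        Real.sin (η / 2) * |af g η| * ‖HC a k M1 M2 X‖ := by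
      rw [pow_succ]
      ring
    rw [e2, add_mul]
    refine add_le_add ?_ k3
    rw [mul_assoc]
    exact mul_le_mul_of_nonneg_left k4 (abs_nonneg _)

/-! ### the null Lagrangian of one potential -/

/-- the angular factor -/
noncomputable def aT (w : ℕ) (g : AP) (η : ℝ) : ℝ := 2 * af (ash (w + 1) 0 g) η

theorem hd_aT (w : ℕ) (g : AP) (η : ℝ) :
    HasDerivAt (aT w g) (af (ader (ash (w + 1) 0 g)) η) η := by
  refine ((af_hasDerivAt (ash (w + 1) 0 g) η).const_mul 2).congr_deriv ?_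
  ring

/-- the integrand of one potential -/
noncomputable def NT1 (a : DQ) (G : Grp) (t : AP × BP × BP) : (ℂ → ℂ) → ℝ → ℝ → ℝ :=
  NF (aT G.w t.1) (fun η => af (ader (ash (G.w + 1) 0 t.1)) η) (HC a G.k t.2.1 t.2.2)
    (HC a (G.k + 1) (qX a G.k t.2.1) (qX a G.k t.2.2))
    (HC a (G.k + 1) (qY a G.k t.2.1) (qY a G.k t.2.2)) (fG G.j G.e) (hG G.n)

/-- the centre term of one potential -/
noncomputable def KT1 (a : DQ) (G : Grp) (t : AP × BP × BP) (X : ℂ → ℂ) (ξ : ℝ) : ℝ :=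
  - (FA (aT G.w t.1) (HC a G.k t.2.1 t.2.2) (fG G.j G.e) (hG G.n) X ξ (π / 2)).im

theorem isNullF_T1 (a : DQ) (G : Grp) (t : AP × BP × BP) (h : okG G.k t = true) :
    IsNullF DiscK (NT1 a G t) (KT1 a G t) := by
  obtain ⟨g, M1, M2⟩ := t
  obtain ⟨C, hC0, hC⟩ := HC_gr a G.k M1 M2 g h
  refine isNullF_A (C := 2 * (38 ^ G.j * 886 ^ G.e * 38 ^ G.n) * C) (c1_HC a G.k M1 M2)
    (anF_f G.j G.e) (anF_h G.n) (hd_aT G.w g) (af_cont _) ?_ ?_
  · unfold aT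
    rw [af_ashw]
    simp
  · intro X x₁ x₂ hx hX hP ξ hξ η hη
    obtain ⟨b1, b2, b3⟩ := hP.bd hx hX hξ hη
    obtain ⟨s0, s1, _, _, _⟩ := s_half hη
    have h1 := hC (X (pt ξ η)) η hη b1
    unfold FA aT fG hG
    rw [af_ashw, norm_mul, norm_mul, norm_mul, norm_mul, norm_real, RCLike.norm_conj, norm_pow,
      norm_pow, norm_pow, Real.norm_eq_abs, abs_mul, abs_mul, abs_of_nonneg (pow_nonneg s0 _),
      abs_of_pos (by norm_num : (0:ℝ) < 2)]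
    have e : 2 * (Real.sin (η / 2) ^ (G.w + 1) * |af g η|) * ‖HC a G.k M1 M2 (X (pt ξ η))‖ *
        (‖qF X (pt ξ η)‖ ^ G.j * ‖qR X (pt ξ η)‖ ^ G.e) * ‖qF X (pt ξ η)‖ ^ G.n =
        2 * ((Real.sin (η / 2) * ‖qF X (pt ξ η)‖) ^ G.j *
          (Real.sin (η / 2) ^ 2 * ‖qR X (pt ξ η)‖) ^ G.e *
          (Real.sin (η / 2) * ‖qF X (pt ξ η)‖) ^ G.n) *
          (Real.sin (η / 2) * |af g η| * ‖HC a G.k M1 M2 (X (pt ξ η))‖) := by
      unfold Grp.w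
      rw [mul_pow, mul_pow, mul_pow, pow_add, pow_add, pow_add, pow_mul]
      ring
    rw [e, mul_assoc (2 * (38 ^ G.j * 886 ^ G.e * 38 ^ G.n))]
    have n1 := norm_nonneg (qF X (pt ξ η))
    have n2 := norm_nonneg (qR X (pt ξ η))
    have n3 := norm_nonneg (HC a G.k M1 M2 (X (pt ξ η)))
    gcongr

/-! ### groups -/

/-- sums over lists -/
theorem IsNullF.lsum {P : (ℂ → ℂ) → ℝ → ℝ → Prop} {ι : Type} (L : List ι)
    {N : ι → (ℂ → ℂ) → ℝ → ℝ → ℝ} {K : ι → (ℂ → ℂ) → ℝ → ℝ}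
    (h : ∀ i ∈ L, IsNullF P (N i) (K i)) :
    IsNullF P (fun X ξ η => (L.map fun i => N i X ξ η).sum)
      (fun X ξ => (L.map fun i => K i X ξ).sum) := by
  induction L with
  | nil => simpa using IsNullF.zero (P := P)
  | cons i L ih =>
    have h1 := (h i (by simp)).add (ih fun j hj => h j (by simp [hj]))
    simpa only [List.map_cons, List.sum_cons] using h1

noncomputable def NGr (a : DQ) (G : Grp) (X : ℂ → ℂ) (ξ η : ℝ) : ℝ :=
  (G.l.map fun t => NT1 a G t X ξ η).sum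

noncomputable def KGr (a : DQ) (G : Grp) (X : ℂ → ℂ) (ξ : ℝ) : ℝ :=
  (G.l.map fun t => KT1 a G t X ξ).sum

theorem isNullF_Gr (a : DQ) (G : Grp) {H : ℕ} (h : G.ok H = true) :
    IsNullF DiscK (NGr a G) (KGr a G) := by
  refine IsNullF.lsum G.l fun t ht => isNullF_T1 a G t ?_
  simp only [Grp.ok, Bool.and_eq_true, List.all_eq_true] at h
  exact (h.2 t ht).2

end Pool.Agent.Helper69.EK7
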