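import Pool.Agent.Helper69.EK7.Jet
import Pool.Agent.Helper70.EK.E3
import Pool.Agent.Helper61.EK.Gibbs
set_option autoImplicit false
open Complex MeasureTheory Metric Set
open scoped Real ComplexConjugate

/-!
# Project EK7: fields built from the gradient and the Schwarzian derivative
-/

namespace Pool.Agent.Helper69.EK7

open Pool.Agent.Helper39.Area Pool.Agent.Helper52.EK

/-- admissible functions of the two invariants -/
structure GLip2 (G : ℂ → ℂ → ℂ) (L : ℝ) : Prop where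
  le_one : ∀ m t, ‖G m t‖ ≤ 1
  lip : ∀ m m' t, ‖G m t - G m' t‖ ≤ L * ‖m - m'‖
  rot : ∀ u m t : ℂ, ‖u‖ = 1 → ‖G (u * m) (u ^ 2 * t) - G m t‖ ≤ L * ‖u - 1‖
  cont : Continuous (fun p : ℂ × ℂ => G p.1 p.2)

/-- the field -/
noncomputable def wf2 (G : ℂ → ℂ → ℂ) (β : ℂ → ℂ) (z : ℂ) : ℂ :=
  conj (z / ‖z‖) * G (mrad β z) (srad β z)

/-- the integrand `‖G m t - e₀‖²` -/
noncomputable def TG2 (G : ℂ → ℂ → ℂ) (X Y Z : ℂ) (s c : ℝ) : ℝ :=
  ‖G (mX X Y s c) (tX X Y Z s c) - e0 s c‖ ^ 2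

theorem GLip2.nonneg {G : ℂ → ℂ → ℂ} {L : ℝ} (hG : GLip2 G L) : 0 ≤ L := by
  have h := hG.lip 1 0 0
  have h2 : L * ‖(1:ℂ) - 0‖ = L := by simp
  rw [h2] at h
  exact (norm_nonneg _).trans h

theorem srad_cont {β : ℂ → ℂ} (h : Ext β) :
    ContinuousOn (srad β) {z | 0 < ‖z‖ ∧ ‖z‖ < 1} := by
  have hs : {z : ℂ | 0 < ‖z‖ ∧ ‖z‖ < 1} ⊆ ball 0 1 := by
    rintro z ⟨_, hz⟩
    rw [mem_ball, dist_zero_right]
    exact hz
  have hd := N_diffOn h
  have h1 : ContinuousOn (N β) {z : ℂ | 0 < ‖z‖ ∧ ‖z‖ < 1} := hd.continuousOn.mono hs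
  have h2 : ContinuousOn (deriv (N β)) {z : ℂ | 0 < ‖z‖ ∧ ‖z‖ < 1} :=
    (hd.deriv isOpen_ball).continuousOn.mono hs
  have h2' : ContinuousOn (deriv (deriv (N β))) {z : ℂ | 0 < ‖z‖ ∧ ‖z‖ < 1} :=
    ((hd.deriv isOpen_ball).deriv isOpen_ball).continuousOn.mono hs
  have h3 : ∀ z ∈ {z : ℂ | 0 < ‖z‖ ∧ ‖z‖ < 1}, N β z ≠ 0 := fun z hz => h.ne z (hs hz)
  have h4 : ContinuousOn (fun z : ℂ => z / (‖z‖ : ℂ)) {z : ℂ | 0 < ‖z‖ ∧ ‖z‖ < 1} := by
    apply ContinuousOn.div continuousOn_id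
    · exact (Complex.continuous_ofReal.comp continuous_norm).continuousOn
    · rintro z ⟨hz, _⟩
      exact Complex.ofReal_ne_zero.mpr hz.ne'
  have h5 : ContinuousOn (fun z : ℂ => deriv (N β) z / N β z) {z : ℂ | 0 < ‖z‖ ∧ ‖z‖ < 1} :=
    h2.div h1 h3
  have h6 : ContinuousOn (fun z : ℂ => 2 / z) {z : ℂ | 0 < ‖z‖ ∧ ‖z‖ < 1} := by
    apply ContinuousOn.div continuousOn_const continuousOn_id
    rintro z ⟨hz, _⟩
    exact norm_pos_iff.1 hz
  have h7 : ContinuousOn (Sc β) {z : ℂ | 0 < ‖z‖ ∧ ‖z‖ < 1} := by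
    unfold Sc
    exact ((h2'.div h1 h3).sub (continuousOn_const.mul (h5.pow 2))).add (h6.mul h5)
  have h8 : ContinuousOn (fun z : ℂ => ((1 : ℂ) - (‖z‖ : ℂ) ^ 2) ^ 2)
      {z : ℂ | 0 < ‖z‖ ∧ ‖z‖ < 1} :=
    ((continuous_const.sub ((Complex.continuous_ofReal.comp continuous_norm).pow 2)).pow
      2).continuousOn
  unfold srad
  exact ((h4.pow 2).mul h8).mul h7

theorem wf2_cont {G : ℂ → ℂ → ℂ} {L : ℝ} (hG : GLip2 G L) {β : ℂ → ℂ} (h : Ext β) :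
    ContinuousOn (wf2 G β) {z | 0 < ‖z‖ ∧ ‖z‖ < 1} := by
  have h4 : ContinuousOn (fun z : ℂ => conj (z / (‖z‖ : ℂ))) {z : ℂ | 0 < ‖z‖ ∧ ‖z‖ < 1} := by
    apply Complex.continuous_conj.comp_continuousOn
    apply ContinuousOn.div continuousOn_id
    · exact (Complex.continuous_ofReal.comp continuous_norm).continuousOn
    · rintro z ⟨hz, _⟩
      exact Complex.ofReal_ne_zero.mpr hz.ne'
  exact h4.mul (hG.cont.comp_continuousOn
    ((Pool.Agent.Helper70.EK.mrad_cont h).prodMk (srad_cont h)))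

theorem wf2_le_one {G : ℂ → ℂ → ℂ} {L : ℝ} (hG : GLip2 G L) (β : ℂ → ℂ) (z : ℂ) :
    ‖wf2 G β z‖ ≤ 1 := by
  unfold wf2
  rw [norm_mul, RCLike.norm_conj, norm_div, Complex.norm_real, norm_norm]
  have h1 : ‖z‖ / ‖z‖ ≤ 1 := div_self_le_one _
  have h2 := hG.le_one (mrad β z) (srad β z)
  have h3 : 0 ≤ ‖z‖ / ‖z‖ := by positivity
  nlinarith [norm_nonneg (G (mrad β z) (srad β z))]

/-! ### rotation -/

open Pool.Agent.Helper9.EK

theorem Sc_rot {β : ℂ → ℂ} (α : ℝ) (z : ℂ) :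
    Sc (rotβ β α) z = Complex.exp (α * I) ^ 2 * Sc β (Complex.exp (α * I) * z) := by
  have h1 : N (rotβ β α) = fun z => N β (Complex.exp (α * I) * z) := funext (rot_N' α)
  have h2 : deriv (N (rotβ β α)) = fun z => Complex.exp (α * I) *
      deriv (N β) (Complex.exp (α * I) * z) := by
    funext w
    rw [h1, deriv_comp_mul_left, smul_eq_mul]
  have h3 : deriv (deriv (N (rotβ β α))) z = Complex.exp (α * I) ^ 2 *
      deriv (deriv (N β)) (Complex.exp (α * I) * z) := by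
    rw [h2]
    have h4 : (fun z => Complex.exp (α * I) * deriv (N β) (Complex.exp (α * I) * z)) =
        fun z => Complex.exp (α * I) * (fun z => deriv (N β) (Complex.exp (α * I) * z)) z := rfl
    rw [h4, deriv_const_mul_field, deriv_comp_mul_left, smul_eq_mul]
    ring
  unfold Sc
  rw [h3, h2, h1]
  have hu : Complex.exp (α * I) ≠ 0 := Complex.exp_ne_zero _
  have h5 : 2 / z = 2 / (Complex.exp (α * I) * z) * Complex.exp (α * I) := by
    rcases eq_or_ne z 0 with rfl | hz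
    · simp
    · field_simp
  simp only
  rw [h5]
  ring

theorem srad_rot {β : ℂ → ℂ} (α : ℝ) (z : ℂ) :
    srad (rotβ β α) z = srad β (Complex.exp (α * I) * z) := by
  unfold srad
  rw [Sc_rot, norm_exp_mul]
  ring

theorem wf2_rot {G : ℂ → ℂ → ℂ} {β : ℂ → ℂ} (α : ℝ) (z : ℂ) :
    wf2 G β (Complex.exp (α * I) * z) = conj (Complex.exp (α * I)) * wf2 G (rotβ β α) z := by
  unfold wf2
  rw [mrad_rot, srad_rot, norm_exp_mul, mul_div_assoc, map_mul]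
  ring

theorem rot_Kf2 {β : ℂ → ℂ} {G : ℂ → ℂ → ℂ} (α : ℝ) (t₀ t₂ : ℝ) :
    Kf (wf2 G β) (Complex.exp (α * I)) t₀ t₂ = Kf (wf2 G (rotβ β α)) 1 t₀ t₂ := by
  unfold Kf
  congr 1
  apply intervalIntegral.integral_congr
  intro t _
  show (∫ θ in (-π)..π, (t₂ - t) * Pk (Complex.exp (α * I)) (ep t θ) *
      ‖ee (Complex.exp (α * I)) (ep t θ) - wf2 G β (ep t θ)‖ ^ 2 / Real.sinh t ^ 2) =
    ∫ θ in (-π)..π, (t₂ - t) * Pk 1 (ep t θ) *
      ‖ee 1 (ep t θ) - wf2 G (rotβ β α) (ep t θ)‖ ^ 2 / Real.sinh t ^ 2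
  set f : ℝ → ℝ := fun θ => (t₂ - t) * Pk (Complex.exp (α * I)) (ep t θ) *
      ‖ee (Complex.exp (α * I)) (ep t θ) - wf2 G β (ep t θ)‖ ^ 2 / Real.sinh t ^ 2 with hf
  have hper : Function.Periodic f (2 * π) := by
    intro θ
    simp only [hf, ep_two_pi]
  have hshift : ∀ θ, f (θ + α) = (t₂ - t) * Pk 1 (ep t θ) *
      ‖ee 1 (ep t θ) - wf2 G (rotβ β α) (ep t θ)‖ ^ 2 / Real.sinh t ^ 2 := by
    intro θ
    simp only [hf]
    rw [ep_add, Pk_rot, ee_rot, wf2_rot, ← mul_sub, norm_mul]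
    have : ‖conj (Complex.exp (α * I))‖ = 1 := by
      rw [RCLike.norm_conj, norm_exp_one]
    rw [this, one_mul]
  have h1 : (∫ θ in (-π)..π, (t₂ - t) * Pk 1 (ep t θ) *
      ‖ee 1 (ep t θ) - wf2 G (rotβ β α) (ep t θ)‖ ^ 2 / Real.sinh t ^ 2) =
      ∫ θ in (-π)..π, f (θ + α) := by
    apply intervalIntegral.integral_congr
    intro θ _
    exact (hshift θ).symm
  rw [h1, intervalIntegral.integral_comp_add_right]
  have h2 := hper.intervalIntegral_add_eq (-π) (-π + α)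
  have e1 : -π + 2 * π = π := by ring
  have e2 : -π + α + 2 * π = π + α := by ring
  rw [e1, e2] at h2
  exact h2

end Pool.Agent.Helper69.EK7
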