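import Pool.Agent.Helper69.EK7.Grp
set_option autoImplicit false
open Complex MeasureTheory Metric Set
open scoped Real ComplexConjugate

/-!
# Project EK7: the groups as expressions
-/

namespace Pool.Agent.Helper69.EK7

open Pool.Sos71
open Pool.EK71 Pool.Agent.Helper52.EK Pool.Agent.Helper2.EK
open Pool.Agent.Helper69.EK3 hiding qX qY qL Rr c1_Rr c2_Rr Rr_le Dn Dn_ev
open Pool.Agent.Helper69.EK5 (DQ Dd Dd_pos Dd_low DL e_D qX qY Rr c1_Rr Dn Dn_ev normsq_sub_one)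
open Pool.Agent.Helper71.EK3 (xL yL e_x e_y)
open Pool.Agent.Helper71.EKC (e_sb sb2)

namespace CE

/-- sums over lists -/
def sumC {ι : Type} (f : ι → CE) : List ι → CE
  | [] => ⟨Ex.lit 0, Ex.lit 0⟩
  | [t] => f t
  | t :: s :: L => add (f t) (sumC f (s :: L))

theorem v_sumC {ι : Type} (x : Pnt9) (f : ι → CE) (L : List ι) :
    v x (sumC f L) = (L.map fun t => v x (f t)).sum := by
  induction L with
  | nil =>
    apply Complex.ext
    · simp [v, sumC, re9]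
    · simp [v, sumC, re9]
  | cons t L ih =>
    cases L with
    | nil => simp [sumC]
    | cons s L =>
      rw [sumC, v_add, ih]
      simp

/-- products of lists -/
def prodC : List CE → CE
  | [] => ⟨Ex.lit 1, Ex.lit 0⟩
  | [a] => a
  | a :: b :: L => mul a (prodC (b :: L))

theorem v_prodC (x : Pnt9) (L : List CE) : v x (prodC L) = (L.map fun a => v x a).prod := by
  induction L with
  | nil =>
    apply Complex.ext
    · simp [v, prodC, re9]
    · simp [v, prodC, re9]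
  | cons a L ih =>
    cases L with
    | nil => simp [prodC]
    | cons b L =>
      rw [prodC, v_mul, ih]
      simp

end CE

/-- `P^j conj(P)^n ρ^e` -/
def cQ (j n e : ℕ) : CE :=
  CE.prodC (List.replicate j cP ++ (List.replicate n (CE.cj cP) ++ List.replicate e cR))

theorem v_cQ (x : Pnt9) (j n e : ℕ) : CE.v x (cQ j n e) =
    CE.v x cP ^ j * conj (CE.v x cP) ^ n * CE.v x cR ^ e := by
  rw [cQ, CE.v_prodC]
  simp only [List.map_append, List.map_replicate, List.prod_append, List.prod_replicate,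
    CE.v_cj]
  ring

section
variable (a : DQ) (K k : ℕ)

def cM (m : ℕ) (M1 M2 : BP) : CE := ⟨Ex.bp (mu2 M1 (Dn a m)), Ex.bp (mu2 M2 (Dn a m))⟩

/-- the numerator of `conj(X) (H_x + i H_y)` times `D^m` -/
def cB (m : ℕ) (M1 M2 : BP) : CE :=
  ⟨Ex.bp (mu2 (ad2 (mu2 xL (sb2 (qX a k M1) (qY a k M2)))
      (mu2 yL (ad2 (qX a k M2) (qY a k M1)))) (Dn a m)),
    Ex.bp (mu2 (sb2 (mu2 xL (ad2 (qX a k M2) (qY a k M1)))
      (mu2 yL (sb2 (qX a k M1) (qY a k M2)))) (Dn a m))⟩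

def tA (w : ℕ) (t : AP × BP × BP) : CE :=
  CE.mI (CE.rm (apE (adw w t.1)) (cM a (K - k) t.2.1 t.2.2))

def tB (t : AP × BP × BP) : CE :=
  CE.rm (Ex.sc 2 (apE t.1)) (cB a k (K - k - 1) t.2.1 t.2.2)

def tC (n : ℕ) (t : AP × BP × BP) : CE :=
  CE.rm (Ex.sc (4 * Int.ofNat n) (apE t.1)) (cM a (K - k) t.2.1 t.2.2)

end

/-- the expression of a group, times `D^K` -/
def EGr (a : DQ) (K : ℕ) (G : Grp) : Ex :=
  let s := CE.add (CE.sumC (tA a K G.k G.w) G.l) (CE.mul (CE.cj cP) (CE.sumC (tB a K G.k) G.l))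
  match G.n with
  | 0 => (match G.j, G.e with
    | 0, 0 => s.r
    | j, e => (CE.mul (cQ j 0 e) s).r)
  | n + 1 => Ex.add (CE.mul (cQ G.j (n + 1) G.e) s).r
      (CE.mul (CE.mul (cQ G.j n G.e) (CE.cj cR)) (CE.sumC (tC a K G.k (n + 1)) G.l)).r

/-! ### the pointwise form -/

noncomputable def Npc (a : DQ) (G : Grp) (t : AP × BP × BP) (X Y Z : ℂ) (η : ℝ) : ℂ :=
  I * ((Real.sin (η / 2) ^ G.w * af (adw G.w t.1) η : ℝ) : ℂ) * HC a G.k t.2.1 t.2.2 X *
      ((Y / X) ^ G.j * (Z / X - (Y / X) ^ 2) ^ G.e) * conj ((Y / X) ^ G.n) +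
    ((aT G.w t.1 η : ℝ) : ℂ) * ((HC a (G.k + 1) (qX a G.k t.2.1) (qX a G.k t.2.2) X +
      I * HC a (G.k + 1) (qY a G.k t.2.1) (qY a G.k t.2.2) X) * conj Y) *
      ((Y / X) ^ G.j * (Z / X - (Y / X) ^ 2) ^ G.e) * conj ((Y / X) ^ G.n) +
    2 * (((aT G.w t.1 η : ℝ) : ℂ) * HC a G.k t.2.1 t.2.2 X *
      ((Y / X) ^ G.j * (Z / X - (Y / X) ^ 2) ^ G.e) *
      conj (G.n * ((Y / X) ^ (G.n - 1) * (Z / X - (Y / X) ^ 2))))

theorem NT1_eq (a : DQ) (G : Grp) (t : AP × BP × BP) {X : ℂ → ℂ} {x₁ x₂ ξ η : ℝ}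
    (hX : NiceH X x₁ x₂) (hξ : ξ ∈ Icc x₁ x₂) (hη : η ∈ Icc (0:ℝ) (π / 2)) :
    NT1 a G t X ξ η = (Npc a G t (X (pt ξ η)) (deriv X (pt ξ η)) (deriv (deriv X) (pt ξ η))
      η).re := by
  have hm := pt_mem_RectH hξ hη
  unfold NT1 NF Npc
  rw [deriv_hG (hX.an _ hm) (hX.ne _ hm)]
  beta_reduce
  rw [af_adw]
  rfl

section
variable (l η : ℝ) (X Y Z w : ℂ)

theorem re9_mo (x : Pnt9) (c : ℤ) (i j : ℕ) :
    re9 x (moE c i j) = c * (x.t.b ^ i * x.t.c ^ j) := rfl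

theorem re9_ap (x : Pnt9) (g : AP) : re9 x (apE g) = aev x.t.b x.t.c g := by
  induction g with
  | nil => simp [apE, aev, re9]
  | cons t g ih =>
    obtain ⟨c, i, j⟩ := t
    cases g with
    | nil =>
      simp only [apE, aev, re9_mo]
      ring
    | cons t' g =>
      have : re9 x (apE ((c, i, j) :: t' :: g)) = re9 x (moE c i j) +
        re9 x (apE (t' :: g)) := rfl
      rw [this, ih, re9_mo]
      rfl

theorem re9_apf (g : AP) : re9 (px9 l η X Y Z w) (apE g) = af g η := by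
  rw [re9_ap]
  rfl

theorem v_cM (a : DQ) (m : ℕ) (M1 M2 : BP) : CE.v (px9 l η X Y Z w) (cM a m M1 M2) =
    (Dd a X.re X.im ^ m : ℝ) * ((ev2 (X.re - 1) X.im M1 : ℝ) +
      I * (ev2 (X.re - 1) X.im M2 : ℝ)) := by
  apply Complex.ext
  · simp only [CE.v, cM, re9, ev2_mu]
    rw [show (px9 l η X Y Z w).t.f = X.re - 1 from rfl,
      show (px9 l η X Y Z w).t.g = X.im from rfl, Dn_ev]
    simp only [mul_re, mul_im, add_re, add_im, ofReal_re, ofReal_im, I_re, I_im]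
    ring
  · simp only [CE.v, cM, re9, ev2_mu]
    rw [show (px9 l η X Y Z w).t.f = X.re - 1 from rfl,
      show (px9 l η X Y Z w).t.g = X.im from rfl, Dn_ev]
    simp only [mul_re, mul_im, add_re, add_im, ofReal_re, ofReal_im, I_re, I_im]
    ring

theorem v_cB (a : DQ) (k m : ℕ) (M1 M2 : BP) : CE.v (px9 l η X Y Z w) (cB a k m M1 M2) =
    (Dd a X.re X.im ^ m : ℝ) * (conj X * (((ev2 (X.re - 1) X.im (qX a k M1) : ℝ) +
      I * (ev2 (X.re - 1) X.im (qX a k M2) : ℝ)) + I * ((ev2 (X.re - 1) X.im (qY a k M1) : ℝ) +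
      I * (ev2 (X.re - 1) X.im (qY a k M2) : ℝ)))) := by
  have e4 : (1:ℝ) + (X.re - 1) = X.re := by ring
  apply Complex.ext
  · simp only [CE.v, cB, re9, ev2_mu, ev2_ad, e_sb, e_x, e_y]
    rw [show (px9 l η X Y Z w).t.f = X.re - 1 from rfl,
      show (px9 l η X Y Z w).t.g = X.im from rfl, Dn_ev, e4]
    simp only [mul_re, mul_im, add_re, add_im, ofReal_re, ofReal_im, I_re, I_im, conj_re,
      conj_im]
    ring
  · simp only [CE.v, cB, re9, ev2_mu, ev2_ad, e_sb, e_x, e_y]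
    rw [show (px9 l η X Y Z w).t.f = X.re - 1 from rfl,
      show (px9 l η X Y Z w).t.g = X.im from rfl, Dn_ev, e4]
    simp only [mul_re, mul_im, add_re, add_im, ofReal_re, ofReal_im, I_re, I_im, conj_re,
      conj_im]
    ring

end

/-- one potential -/
theorem EG1 (a : DQ) {K : ℕ} (G : Grp) (hK : G.k + 1 ≤ K) (t : AP × BP × BP) (l η : ℝ)
    {X : ℂ} (hX : X ≠ 0) (Y Z w : ℂ) :
    CE.v (px9 l η X Y Z w) (cQ G.j G.n G.e) * (CE.v (px9 l η X Y Z w) (tA a K G.k G.w t) +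
      conj (CE.v (px9 l η X Y Z w) cP) * CE.v (px9 l η X Y Z w) (tB a K G.k t)) +
    CE.v (px9 l η X Y Z w) (cQ G.j (G.n - 1) G.e) * conj (CE.v (px9 l η X Y Z w) cR) *
      CE.v (px9 l η X Y Z w) (tC a K G.k G.n t) =
    (Dd a X.re X.im ^ K : ℝ) * Npc a G t X Y Z η := by
  obtain ⟨m, rfl⟩ := Nat.exists_eq_add_of_le hK
  have hD : (Dd a X.re X.im : ℂ) ≠ 0 := by exact_mod_cast (Dd_pos a X.re X.im).ne'
  have e1 : G.k + 1 + m - G.k - 1 = m := by omega
  have e2 : G.k + 1 + m - G.k = m + 1 := by omega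
  rw [v_cQ, v_cQ, v_cP, v_cR]
  unfold tA tB tC
  rw [CE.v_mI, CE.v_rm, CE.v_rm, CE.v_rm, v_cM, v_cB, re9_apf, e1, e2]
  have e3 : re9 (px9 l η X Y Z w) (Ex.sc 2 (apE t.1)) = 2 * af t.1 η := by
    show ((2:ℤ) : ℝ) * re9 _ (apE t.1) = _
    rw [re9_apf]
    push_cast
    rfl
  have e4 : re9 (px9 l η X Y Z w) (Ex.sc (4 * Int.ofNat G.n) (apE t.1)) =
      4 * G.n * af t.1 η := by
    show ((4 * Int.ofNat G.n : ℤ) : ℝ) * re9 _ (apE t.1) = _
    rw [re9_apf]
    push_cast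
    simp
  rw [e3, e4]
  unfold Npc aT HC Rr
  rw [af_ashw]
  obtain ⟨q, hq⟩ : ∃ q, q = Y / X := ⟨_, rfl⟩
  have hY : Y = q * X := by rw [hq]; field_simp
  rw [← hq, hY]
  generalize Z / X - q ^ 2 = r
  generalize Real.sin (η / 2) = S
  generalize af t.1 η = g
  generalize af (adw G.w t.1) η = g'
  generalize ev2 (X.re - 1) X.im (qX a G.k t.2.1) = x1
  generalize ev2 (X.re - 1) X.im (qX a G.k t.2.2) = x2
  generalize ev2 (X.re - 1) X.im (qY a G.k t.2.1) = y1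
  generalize ev2 (X.re - 1) X.im (qY a G.k t.2.2) = y2
  generalize ev2 (X.re - 1) X.im t.2.1 = m1
  generalize ev2 (X.re - 1) X.im t.2.2 = m2
  generalize Dd a X.re X.im = D at hD
  simp only [map_mul, map_pow, conj_ofReal, map_natCast]
  push_cast
  have hw : G.w = G.j + G.n + 2 * G.e := rfl
  rw [hw]
  generalize conj X = X'
  generalize conj q = q'
  generalize conj r = r'
  rcases Nat.eq_zero_or_pos G.n with hn | hn
  · rw [hn]
    simp only [Nat.cast_zero, mul_zero, zero_mul, add_zero, pow_zero, mul_one]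
    field_simp
    ring
  · obtain ⟨n, hn⟩ : ∃ n, G.n = n + 1 := ⟨G.n - 1, by omega⟩
    rw [hn]
    simp only [Nat.add_sub_cancel]
    field_simp
    ring

/-- the value of the expression of a group -/
theorem EGr_re (a : DQ) {K : ℕ} (G : Grp) (hK : G.k + 1 ≤ K) (l η : ℝ)
    {X : ℂ} (hX : X ≠ 0) (Y Z w : ℂ) :
    re9 (px9 l η X Y Z w) (EGr a K G) =
      Dd a X.re X.im ^ K * (G.l.map fun t => (Npc a G t X Y Z η).re).sum := by
  have key : ∀ L : List (AP × BP × BP),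
      (CE.v (px9 l η X Y Z w) (cQ G.j G.n G.e) *
        ((L.map fun t => CE.v (px9 l η X Y Z w) (tA a K G.k G.w t)).sum +
      conj (CE.v (px9 l η X Y Z w) cP) *
        (L.map fun t => CE.v (px9 l η X Y Z w) (tB a K G.k t)).sum) +
      CE.v (px9 l η X Y Z w) (cQ G.j (G.n - 1) G.e) * conj (CE.v (px9 l η X Y Z w) cR) *
        (L.map fun t => CE.v (px9 l η X Y Z w) (tC a K G.k G.n t)).sum).re =
      Dd a X.re X.im ^ K * (L.map fun t => (Npc a G t X Y Z η).re).sum := by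
    intro L
    induction L with
    | nil => simp
    | cons t L ih =>
      simp only [List.map_cons, List.sum_cons]
      rw [mul_add (Dd a X.re X.im ^ K), ← ih]
      have h1 := congrArg Complex.re (EG1 a G hK t l η hX Y Z w)
      rw [re_ofReal_mul] at h1
      rw [← h1, ← add_re]
      congr 1
      ring
  rw [← key G.l]
  have h0 : ∀ c : CE, re9 (px9 l η X Y Z w) c.r = (CE.v (px9 l η X Y Z w) c).re := fun _ => rfl
  rcases Nat.eq_zero_or_pos G.n with hn | hn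
  · have e : re9 (px9 l η X Y Z w) (EGr a K G) = (CE.v (px9 l η X Y Z w) (cQ G.j 0 G.e) *
        CE.v (px9 l η X Y Z w) (CE.add (CE.sumC (tA a K G.k G.w) G.l)
          (CE.mul (CE.cj cP) (CE.sumC (tB a K G.k) G.l)))).re := by
      rw [← CE.v_mul]
      unfold EGr
      rw [hn]
      rcases Nat.eq_zero_or_pos G.j with hj | hj
      · rcases Nat.eq_zero_or_pos G.e with he | he
        · rw [hj, he]
          simp only
          rw [h0, CE.v_mul, v_cQ]
          simp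
        · obtain ⟨e, he⟩ : ∃ e, G.e = e + 1 := ⟨G.e - 1, by omega⟩
          rw [hj, he]
          rfl
      · obtain ⟨j, hj⟩ : ∃ j, G.j = j + 1 := ⟨G.j - 1, by omega⟩
        rw [hj]
        rfl
    rw [e, CE.v_add, CE.v_mul, CE.v_cj, CE.v_sumC, CE.v_sumC, hn]
    congr 1
    have z : (G.l.map fun t => CE.v (px9 l η X Y Z w) (tC a K G.k 0 t)).sum = 0 := by
      apply List.sum_eq_zero
      intro y hy
      simp only [List.mem_map] at hy
      obtain ⟨t, _, rfl⟩ := hy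
      unfold tC
      rw [CE.v_rm]
      have : re9 (px9 l η X Y Z w) (Ex.sc (4 * Int.ofNat 0) (apE t.1)) = 0 := by
        show ((4 * Int.ofNat 0 : ℤ) : ℝ) * _ = 0
        simp
      rw [this]
      simp
    rw [z, mul_zero, add_zero]
  · obtain ⟨n, hn⟩ : ∃ n, G.n = n + 1 := ⟨G.n - 1, by omega⟩
    have e : re9 (px9 l η X Y Z w) (EGr a K G) = (CE.v (px9 l η X Y Z w) (cQ G.j (n + 1) G.e) *
        CE.v (px9 l η X Y Z w) (CE.add (CE.sumC (tA a K G.k G.w) G.l)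
          (CE.mul (CE.cj cP) (CE.sumC (tB a K G.k) G.l))) +
        CE.v (px9 l η X Y Z w) (cQ G.j n G.e) * conj (CE.v (px9 l η X Y Z w) cR) *
          CE.v (px9 l η X Y Z w) (CE.sumC (tC a K G.k (n + 1)) G.l)).re := by
      rw [← CE.v_cj, ← CE.v_mul, ← CE.v_mul, ← CE.v_mul, add_re, ← h0, ← h0]
      unfold EGr
      rw [hn]
      rfl
    rw [e, CE.v_add, CE.v_mul, CE.v_cj, CE.v_sumC, CE.v_sumC, CE.v_sumC, hn]
    rfl

end Pool.Agent.Helper69.EK7
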