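import Pool.Agent.Helper69.EK7.KOneF
set_option autoImplicit false
open Complex MeasureTheory Metric Set
open scoped Real ComplexConjugate

/-!
# Project EK7: the bound for one target with a linear loss
-/

namespace Pool.Agent.Helper69.EK7

open Pool.Agent.Helper39.Area Pool.Agent.Helper52.EK Pool.Agent.Helper69.EK3

variable {P : (ℂ → ℂ) → ℝ → ℝ → Prop}

/-- a constant is a null Lagrangian with a constant on the centre line -/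
theorem isNullF_one : IsNullF P (fun _ _ _ => 1) (fun _ _ => π / 2) := by
  refine ⟨fun X x₁ x₂ _ => continuousOn_const, fun X x₁ x₂ _ => continuousOn_const,
    fun k _ => ⟨0, fun X x₁ x₂ l χ χ₁ χ₂ hl hx hc hX hP => ?_⟩⟩
  unfold IH
  have e : ∀ ξ : ℝ, ∫ _η in (0:ℝ)..(π / 2), χ ξ * 1 = χ ξ * (π / 2) := by
    intro ξ
    rw [intervalIntegral.integral_const, smul_eq_mul]
    ring
  simp only [e, sub_self, abs_zero, zero_mul, le_refl]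

/-- the integrated inequality with a linear term on the centre line -/
def StripIneqD (lam k₂ δ : ℝ) (T : (ℂ → ℂ) → ℝ → ℝ → ℝ) (adm : (ℂ → ℂ) → ℝ → ℝ → Prop) : Prop :=
  ∃ C : ℝ, ∀ (X : ℂ → ℂ) (x₁ x₂ l : ℝ), 1 ≤ l → x₁ + l ≤ x₂ - l → NiceX X x₁ x₂ → adm X x₁ x₂ →
    II (x₁ + l) (x₂ - l) (T X) ≤
    lam * II x₁ x₂ (fun ξ η => ‖X (pt ξ η) - 1‖ ^ 2) +
      (k₂ - lam) * (π * ∫ ξ in x₁..x₂, (1 - (X (pt ξ (π / 2))).re)) + δ * (π * (x₂ - x₁)) +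
      C * (1 + II x₁ x₂ (fun ξ η => ‖X (pt ξ η) - 1‖ ^ 2) / l)

/-- the bound for one target -/
theorem K_oneD {lam k₂ κ L dl : ℝ} (hdl : 0 ≤ dl) {G : ℂ → ℂ → ℂ} (hG : GLip2 G L) {adm : (ℂ → ℂ) → ℝ → ℝ → Prop}
    (hadm : ∀ (β : ℂ → ℂ) (R a : ℝ), ExtR β R → 0 < a → a < 1 → Real.log (tau a) + 1 ≤ -1 →
      adm (Xf β a) (Real.log (tau a) + 1) (-1))
    (line : ∀ δ : ℝ, 0 < δ → ∃ C : ℝ, ∀ (β : ℂ → ℂ) (R a : ℝ), ExtR β R → 0 < a → a < 1 →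
      ∀ x₁ x₂ : ℝ, Real.log (tau a) + 1 ≤ x₁ → x₁ ≤ x₂ → x₂ ≤ -1 →
      2 * ∫ ξ in x₁..x₂, (1 - (Xf β a (pt ξ (π / 2))).re) ≤
        (1 + δ) * Real.log (‖N β a‖ / (1 - a ^ 2)) + C)
    (hS : StripIneqD lam k₂ dl (T2 G) adm) (h0 : 0 ≤ lam) (h1 : lam ≤ k₂)
    (hκ : k₂ < 2 * κ) : ∃ C a₀ : ℝ, a₀ < 1 ∧ ∀ (β : ℂ → ℂ) (R a : ℝ), ExtR β R → a₀ < a → a < 1 →
      Kf (wf2 G β) 1 (-1) (Real.log a) ≤ κ * Real.log (‖N β a‖ / (1 - a ^ 2)) +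
        dl * -Real.log (1 - a ^ 2) + C := by
  obtain ⟨C₁, hC₁⟩ := hS
  obtain ⟨Cd, hCd⟩ := Pool.Agent.Helper16.EK.E1d
  obtain ⟨d, hd⟩ : ∃ d, d = 2 * κ - k₂ := ⟨_, rfl⟩
  have hd0 : 0 < d := by rw [hd]; linarith
  obtain ⟨D, hD⟩ : ∃ D, D = max C₁ 0 := ⟨_, rfl⟩
  have hD0 : 0 ≤ D := by rw [hD]; exact le_max_right _ _
  have hDC : C₁ ≤ D := by rw [hD]; exact le_max_left _ _
  obtain ⟨l, hl⟩ : ∃ l, l = 1 + 4 * D / d := ⟨_, rfl⟩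
  have hl1 : 1 ≤ l := by
    have : 0 ≤ 4 * D / d := by positivity
    linarith
  have hl0 : 0 < l := by linarith
  have hDl : D / l ≤ d / 4 := by
    rw [div_le_div_iff₀ hl0 (by norm_num)]
    have : D * 4 = d * (4 * D / d) := by field_simp
    rw [this]
    apply mul_le_mul_of_nonneg_left _ hd0.le
    linarith
  have hDl0 : 0 ≤ D / l := by positivity
  obtain ⟨k, hk⟩ : ∃ k, k = lam + D / l := ⟨_, rfl⟩
  have hk0 : 0 ≤ k := by rw [hk]; linarith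
  obtain ⟨g, hg⟩ : ∃ g, g = d / (4 * (k + 1)) := ⟨_, rfl⟩
  have hg0 : 0 < g := by rw [hg]; positivity
  have hkg : k * g ≤ d / 4 := by
    have h2 : 4 * (g * (k + 1)) = d := by
      rw [hg]
      field_simp
    nlinarith
  obtain ⟨e, he⟩ : ∃ e, e = d / (4 * (k₂ - lam + 1)) := ⟨_, rfl⟩
  have hkl : 0 < k₂ - lam + 1 := by linarith
  have he0 : 0 < e := by rw [he]; positivity
  have hke : (k₂ - lam) * e ≤ d / 4 := by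
    have h2 : 4 * (e * (k₂ - lam + 1)) = d := by
      rw [he]
      field_simp
    nlinarith
  obtain ⟨Cs, hCs⟩ := line e he0
  obtain ⟨A, hA⟩ : ∃ A, A = 1 + l := ⟨_, rfl⟩
  have hA1 : 1 ≤ A := by linarith
  obtain ⟨C₃, hC₃⟩ := E3F hG A hA1
  refine ⟨C₃ + π⁻¹ * (k * ((1 + 1 / g) * Cd)) + (k₂ - lam) * (Cs / 2) + π⁻¹ * D,
    max (Real.exp (-1)) (1 - Real.exp (-2 * A)), ?_, ?_⟩
  · apply max_lt
    · rw [← Real.exp_zero]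
      exact Real.exp_lt_exp.mpr (by norm_num)
    · linarith [Real.exp_pos (-2 * A)]
  intro β R a hβ ha ha1
  have hae : Real.exp (-1) < a := lt_of_le_of_lt (le_max_left _ _) ha
  have ha0 : 0 < a := (Real.exp_pos _).trans hae
  have hfar := Pool.Agent.Helper83.EK.tau_far (A := A) (lt_of_le_of_lt (le_max_right _ _) ha) ha0
    ha1
  have hK : Kf (wf2 G β) 1 (-1) (Real.log a) ≤
      π⁻¹ * II (Real.log (tau a) + A) (-A) (T2 G (Xf β a)) + C₃ := hC₃ β R a hβ hae ha1 hfar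
  obtain ⟨x₁, hx₁⟩ : ∃ x₁, x₁ = Real.log (tau a) + 1 := ⟨_, rfl⟩
  have e1 : Real.log (tau a) + A = x₁ + l := by rw [hA, hx₁]; ring
  have e2 : -A = -1 - l := by rw [hA]; ring
  rw [e1, e2] at hK hfar
  have hx12 : x₁ ≤ -1 := by linarith
  have hxt : Real.log (tau a) < x₁ := by linarith
  have hX : NiceX (Xf β a) x₁ (-1) := Pool.Agent.Helper67.EK.E1c hβ ha0 ha1 hxt (by norm_num)
  have hst := hC₁ (Xf β a) x₁ (-1) l hl1 hfar hX (by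
    rw [hx₁]
    exact hadm β R a hβ ha0 ha1 (by rw [← hx₁]; exact hx12))
  have hb := Pool.Agent.Helper86.EK.E1b hβ ha0 ha1 hxt hx12 (by norm_num)
  have hdd := hCd a ha0 ha1 x₁ (-1) hx₁.ge hx12 le_rfl
  have hs := hCs β R a hβ ha0 ha1 x₁ (-1) hx₁.ge hx12 le_rfl
  obtain ⟨Λ, hΛ⟩ : ∃ Λ, Λ = Real.log (‖N β a‖ / (1 - a ^ 2)) := ⟨_, rfl⟩
  rw [← hΛ] at hb hs ⊢
  -- continuity
  have cX : ContinuousOn (fun v : ℝ × ℝ => Xf β a (pt v.1 v.2)) (Icc x₁ (-1) ×ˢ Icc 0 π) :=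
    hX.an.continuousOn.comp Pool.Agent.Helper70.EK.continuous_pt.continuousOn
      (Pool.Agent.Helper83.EK.pt_mapsTo _ _)
  have cK : ContinuousOn (fun v : ℝ × ℝ => kap a (pt v.1 v.2)) (Icc x₁ (-1) ×ˢ Icc 0 π) :=
    Pool.Agent.Helper83.EK.kap_contOn ha0 ha1 hxt (by norm_num)
  have c1 : ContinuousOn (fun v : ℝ × ℝ => ‖Xf β a (pt v.1 v.2) - 1‖ ^ 2)
      (Icc x₁ (-1) ×ˢ Icc 0 π) := (cX.sub continuousOn_const).norm.pow 2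
  have c2 : ContinuousOn (fun v : ℝ × ℝ => ‖2 * Xf β a (pt v.1 v.2) - 2 * kap a (pt v.1 v.2)‖ ^ 2)
      (Icc x₁ (-1) ×ˢ Icc 0 π) :=
    ((continuousOn_const.mul cX).sub (continuousOn_const.mul cK)).norm.pow 2
  have c3 : ContinuousOn (fun v : ℝ × ℝ => ‖kap a (pt v.1 v.2) - 1‖ ^ 2)
      (Icc x₁ (-1) ×ˢ Icc 0 π) := (cK.sub continuousOn_const).norm.pow 2
  have hE := Pool.Agent.Helper83.EK.II_le3 (F₁ := fun ξ η => ‖Xf β a (pt ξ η) - 1‖ ^ 2)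
    (F₂ := fun ξ η => ‖2 * Xf β a (pt ξ η) - 2 * kap a (pt ξ η)‖ ^ 2)
    (F₃ := fun ξ η => ‖kap a (pt ξ η) - 1‖ ^ 2) (p := (1 + g) / 4) (q := 1 + 1 / g)
    hx12 c1 c2 c3 (by
      intro ξ η
      have h1 : Xf β a (pt ξ η) - 1 = (2 * Xf β a (pt ξ η) - 2 * kap a (pt ξ η)) / 2 +
        (kap a (pt ξ η) - 1) := by ring
      have h2 : ‖Xf β a (pt ξ η) - 1‖ ≤ ‖2 * Xf β a (pt ξ η) - 2 * kap a (pt ξ η)‖ / 2 +
          ‖kap a (pt ξ η) - 1‖ := by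
        rw [h1]
        refine (norm_add_le _ _).trans ?_
        rw [norm_div]
        simp
      have h3 := norm_nonneg (Xf β a (pt ξ η) - 1)
      have h4 := norm_nonneg (2 * Xf β a (pt ξ η) - 2 * kap a (pt ξ η))
      have h5 := norm_nonneg (kap a (pt ξ η) - 1)
      generalize ‖Xf β a (pt ξ η) - 1‖ = u at *
      generalize ‖2 * Xf β a (pt ξ η) - 2 * kap a (pt ξ η)‖ = v at *
      generalize ‖kap a (pt ξ η) - 1‖ = w at *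
      have h6 : u ^ 2 ≤ (v / 2 + w) ^ 2 := by nlinarith
      have h7 : (v / 2 + w) ^ 2 ≤ (1 + g) / 4 * v ^ 2 + (1 + 1 / g) * w ^ 2 := by
        have h8 : (1 + g) / 4 * v ^ 2 + (1 + 1 / g) * w ^ 2 - (v / 2 + w) ^ 2 =
            (g * v / 2 - w) ^ 2 / g := by
          field_simp
          ring
        have h9 : 0 ≤ (g * v / 2 - w) ^ 2 / g := by positivity
        linarith
      exact h6.trans h7)
  -- assemble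
  have hEn : 0 ≤ II x₁ (-1) (fun ξ η => ‖Xf β a (pt ξ η) - 1‖ ^ 2) :=
    Pool.Agent.Helper83.EK.II_nonneg hx12 (fun ξ η => by positivity)
  obtain ⟨E, hEdef⟩ : ∃ E, E = II x₁ (-1) (fun ξ η => ‖Xf β a (pt ξ η) - 1‖ ^ 2) := ⟨_, rfl⟩
  rw [← hEdef] at hE hEn hst
  obtain ⟨S, hSdef⟩ : ∃ S, S = ∫ ξ in x₁..(-1), (1 - (Xf β a (pt ξ (π / 2))).re) := ⟨_, rfl⟩
  rw [← hSdef] at hst hs
  have hπ : 0 < π := Real.pi_pos
  have hπi : 0 < π⁻¹ := inv_pos.mpr hπ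
  have hE2 : E ≤ (1 + g) / 4 * (2 * π * Λ) + (1 + 1 / g) * Cd := by
    have h1 : 0 < (1 + g) / 4 := by positivity
    have h2 : 0 < 1 + 1 / g := by positivity
    have h3 := mul_le_mul_of_nonneg_left hb h1.le
    have h4 := mul_le_mul_of_nonneg_left hdd h2.le
    linarith
  have hΛ0 : 0 ≤ Λ := by
    have h1 : 0 ≤ II x₁ (-1) (fun ξ η => ‖2 * Xf β a (pt ξ η) - 2 * kap a (pt ξ η)‖ ^ 2) :=
      Pool.Agent.Helper83.EK.II_nonneg hx12 (fun ξ η => by positivity)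
    have h2 : 0 ≤ 2 * π * Λ := h1.trans hb
    exact nonneg_of_mul_nonneg_right h2 (by positivity)
  have hEl : 0 ≤ E / l := div_nonneg hEn hl0.le
  obtain ⟨W, hW⟩ : ∃ W, W = -Real.log (1 - a ^ 2) := ⟨_, rfl⟩
  have hWx : -1 - x₁ ≤ W := by
    have h1a : 0 < 1 - a := by linarith
    have h2a : 0 < 1 + a := by linarith
    have h3a : 0 < 1 - a ^ 2 := by nlinarith
    have h4a : Real.log (1 - a ^ 2) = Real.log (1 - a) + Real.log (1 + a) := by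
      rw [← Real.log_mul h1a.ne' h2a.ne']
      congr 1
      ring
    have h5a : Real.log (tau a) = Real.log (1 - a) - Real.log (1 + a) := by
      unfold tau
      rw [Real.log_div h1a.ne' h2a.ne']
    have h6a : Real.log (1 + a) ≤ a := by
      have := Real.log_le_sub_one_of_pos h2a
      linarith
    rw [hW, hx₁, h4a, h5a]
    linarith
  rw [← hW]
  have hT : II (x₁ + l) (-1 - l) (T2 G (Xf β a)) ≤ k * E + (k₂ - lam) * (π * S) +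
      dl * (π * W) + D := by
    refine hst.trans ?_
    have h1 : dl * (π * (-1 - x₁)) ≤ dl * (π * W) :=
      mul_le_mul_of_nonneg_left (mul_le_mul_of_nonneg_left hWx hπ.le) hdl
    have h2 : C₁ * (1 + E / l) ≤ D * (1 + E / l) :=
      mul_le_mul_of_nonneg_right hDC (by linarith)
    have h3 : D * (1 + E / l) = D + D / l * E := by ring
    rw [hk, add_mul]
    linarith
  have h2 : k * E ≤ k * ((1 + g) / 4 * (2 * π * Λ) + (1 + 1 / g) * Cd) :=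
    mul_le_mul_of_nonneg_left hE2 hk0
  have h3 : (k₂ - lam) * (π * S) ≤ (k₂ - lam) * (π * (((1 + e) * Λ + Cs) / 2)) := by
    refine mul_le_mul_of_nonneg_left (mul_le_mul_of_nonneg_left ?_ hπ.le) (by linarith)
    linarith
  have h4 : π⁻¹ * II (x₁ + l) (-1 - l) (T2 G (Xf β a)) ≤
      π⁻¹ * (k * ((1 + g) / 4 * (2 * π * Λ) + (1 + 1 / g) * Cd) +
        (k₂ - lam) * (π * (((1 + e) * Λ + Cs) / 2)) + dl * (π * W) + D) :=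
    mul_le_mul_of_nonneg_left (by linarith) hπi.le
  have h5 : π⁻¹ * (k * ((1 + g) / 4 * (2 * π * Λ) + (1 + 1 / g) * Cd) +
        (k₂ - lam) * (π * (((1 + e) * Λ + Cs) / 2)) + dl * (π * W) + D) =
      dl * W + (k * (1 + g) + (k₂ - lam) * (1 + e)) / 2 * Λ + π⁻¹ * (k * ((1 + 1 / g) * Cd)) +
        (k₂ - lam) * (Cs / 2) + π⁻¹ * D := by
    field_simp
    ring
  have h6 : (k * (1 + g) + (k₂ - lam) * (1 + e)) / 2 * Λ ≤ κ * Λ := by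
    apply mul_le_mul_of_nonneg_right _ hΛ0
    have : k ≤ lam + d / 4 := by rw [hk]; linarith
    rw [hd] at this hkg hke hd0
    linarith
  linarith


/-! ### the integrated inequality -/


/-- the integrated inequality from the pointwise one and the centre line -/
theorem stripD_b {k₂ lam D dl : ℝ} (hdl : 0 ≤ dl) (hlam : 0 ≤ lam) (hk₂ : lam ≤ k₂)
    {T : (ℂ → ℂ) → ℝ → ℝ → ℝ} (hT0 : ∀ (X : ℂ → ℂ) (ξ η : ℝ), 0 ≤ T X ξ η)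
    (hTc : ∀ (X : ℂ → ℂ) (x₁ x₂ : ℝ), NiceX X x₁ x₂ → CH x₁ x₂ π (T X))
    (hTh : ∀ (X : ℂ → ℂ) (x₁ x₂ : ℝ), NiceH X x₁ x₂ → CH x₁ x₂ (π / 2) (T X))
    (hTm : ∀ (X : ℂ → ℂ) (x₁ x₂ : ℝ), NiceX X x₁ x₂ → ∀ ξ ∈ Icc x₁ x₂,
      ∀ η ∈ Icc (0:ℝ) (π / 2), T X ξ (π - η) = T (mir X) ξ η)
    {N : (ℂ → ℂ) → ℝ → ℝ → ℝ} {K : (ℂ → ℂ) → ℝ → ℝ} (hN : IsNullF P N K)
    (hp : ∀ (X : ℂ → ℂ) (x₁ x₂ : ℝ), x₁ ≤ x₂ → NiceH X x₁ x₂ → P X x₁ x₂ →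
      ∃ ε : ℝ → ℝ, Continuous ε ∧ (∀ ξ, 0 ≤ ε ξ) ∧ ∫ ξ in x₁..x₂, ε ξ ≤ D ∧
        ∀ ξ ∈ Icc x₁ x₂, ∀ η ∈ Icc (0:ℝ) (π / 2),
          T X ξ η ≤ k₂ * (1 - (X (pt ξ η)).re) +
            lam * (‖X (pt ξ η)‖ ^ 2 - (X (pt ξ η)).re) + N X ξ η + ε ξ)
    {Q : (ℂ → ℂ) → ℝ → ℝ → Prop}
    (hCen : ∀ k : ℝ, 0 ≤ k → ∃ C' : ℝ, ∀ (l x₁ x₂ : ℝ) (χ χ₁ χ₂ : ℝ → ℝ) (X : ℂ → ℂ),
      Cut k l x₁ x₂ χ χ₁ χ₂ → x₁ ≤ x₂ → NiceX X x₁ x₂ → Q X x₁ x₂ →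
      ∫ ξ in x₁..x₂, χ ξ * (K X ξ + K (mir X) ξ) ≤ C' + dl * (π * (x₂ - x₁)))
    {D' : ℝ} (hQ : ∀ (X : ℂ → ℂ) (x₁ x₂ : ℝ), Q X x₁ x₂ → ∃ δ : ℝ → ℝ, Continuous δ ∧
      (∀ ξ ∈ Icc x₁ x₂, 0 ≤ δ ξ) ∧ (∀ ξ ∈ Icc x₁ x₂, (X (pt ξ (π / 2))).re ≤ 1 + δ ξ) ∧
      ∫ ξ in x₁..x₂, δ ξ ≤ D') :
    StripIneqD lam k₂ dl T (fun X x₁ x₂ => P X x₁ x₂ ∧ P (mir X) x₁ x₂ ∧ Q X x₁ x₂) := by
  obtain ⟨k, C, hk, hC⟩ := stripF_core hlam hk₂ hT0 hTc hTh hTm hN hp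
  obtain ⟨C', hC'⟩ := hCen k hk
  refine ⟨|C| + |C'| + (k₂ - lam) * (π * |D'|), ?_⟩
  rintro X x₁ x₂ l hl hx hX ⟨hP, hP', hQX⟩
  obtain ⟨δ, cδ, δ0, hδ, hD'⟩ := hQ X x₁ x₂ hQX
  obtain ⟨χ, χ₁, χ₂, hc, hmain⟩ := hC X x₁ x₂ l hl hx hX hP hP'
  have hx12 : x₁ ≤ x₂ := by linarith
  have h1 := hC' l x₁ x₂ χ χ₁ χ₂ X hc hx12 hX hQX
  have h2 := line_lin hc hx12 (NiceX.half hX) cδ δ0 hδ
  have hE0' : 0 ≤ II x₁ x₂ (fun ξ η => ‖X (pt ξ η) - 1‖ ^ 2) := by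
    rw [← En_add hx12 hX]
    exact add_nonneg (En_nonneg hx12) (En_nonneg hx12)
  obtain ⟨F, hF⟩ : ∃ F, F = II x₁ x₂ (fun ξ η => ‖X (pt ξ η) - 1‖ ^ 2) / l := ⟨_, rfl⟩
  have hF0 : 0 ≤ F := by
    rw [hF]
    exact div_nonneg hE0' (by linarith)
  rw [← hF] at hmain ⊢
  have hd : ∫ ξ in x₁..x₂, δ ξ ≤ |D'| := hD'.trans (le_abs_self _)
  have a3 : C' ≤ |C'| := le_abs_self C'
  have hkl : 0 ≤ k₂ - lam := by linarith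
  have a4 : (k₂ - lam) * (π * ∫ ξ in x₁..x₂, χ ξ * (1 - (X (pt ξ (π / 2))).re)) ≤
      (k₂ - lam) * (π * ((∫ ξ in x₁..x₂, (1 - (X (pt ξ (π / 2))).re)) + |D'|)) := by
    refine mul_le_mul_of_nonneg_left (mul_le_mul_of_nonneg_left ?_ Real.pi_pos.le) hkl
    linarith
  have a5 : (k₂ - lam) * (π * ((∫ ξ in x₁..x₂, (1 - (X (pt ξ (π / 2))).re)) + |D'|)) =
      (k₂ - lam) * (π * ∫ ξ in x₁..x₂, (1 - (X (pt ξ (π / 2))).re)) +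
        (k₂ - lam) * (π * |D'|) := by ring
  have a6 : C * (1 + F) ≤ |C| * (1 + F) :=
    mul_le_mul_of_nonneg_right (le_abs_self C) (by linarith)
  have n1 : 0 ≤ |C'| * F := mul_nonneg (abs_nonneg _) hF0
  have n3 : 0 ≤ (k₂ - lam) * (π * |D'|) * F :=
    mul_nonneg (mul_nonneg hkl (mul_nonneg Real.pi_pos.le (abs_nonneg _))) hF0
  have a7 : (|C| + |C'| + (k₂ - lam) * (π * |D'|)) * (1 + F) =
      |C| * (1 + F) + |C'| + (k₂ - lam) * (π * |D'|) +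
        |C'| * F + (k₂ - lam) * (π * |D'|) * F := by ring
  rw [a7]
  have _a8 := hdl
  linarith

/-- **the bound for one target from a certificate with multipliers for the bounds of Koebe and
Bieberbach, under the bound of Kraus** -/
theorem K_oneD_d {k₂ lam κ L M dl : ℝ} (hM : 0 ≤ M) (hdl : 0 ≤ dl) (hlam : 0 ≤ lam) (hk₂ : lam ≤ k₂)
    (hκ : k₂ < 2 * κ) {G : ℂ → ℂ → ℂ} (hG : GLip2 G L)
    (hGc : ∀ m t, G (conj m) (conj t) = conj (G m t))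
    {Nl : (ℂ → ℂ) → ℝ → ℝ → ℝ} {Kl : (ℂ → ℂ) → ℝ → ℝ} (hN : IsNullF DiscK Nl Kl)
    (hp : ∀ (X : ℂ → ℂ) (x₁ x₂ : ℝ), NiceH X x₁ x₂ → ∀ ξ ∈ Icc x₁ x₂,
      ∀ η ∈ Icc (0:ℝ) (π / 2), ‖tX (X (pt ξ η)) (deriv X (pt ξ η)) (deriv (deriv X) (pt ξ η))
        (Real.sin η) (Real.cos η)‖ ≤ 6 → Real.sin η * ‖X (pt ξ η)‖ ≤ 9 →
      Real.sin η * ‖deriv X (pt ξ η) / X (pt ξ η)‖ ≤ 38 → ∃ l₀ l₁ l₂ : ℝ,
      0 ≤ l₀ ∧ l₀ ≤ M ∧ 0 ≤ l₁ ∧ l₁ ≤ M ∧ 0 ≤ l₂ ∧ l₂ ≤ M ∧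
      T2 G X ξ η + l₀ * (1 - (Real.sin η * ‖X (pt ξ η)‖) ^ 2) +
        l₁ * (16 - ‖dA 1 (X (pt ξ η)) (deriv X (pt ξ η)) (Real.sin η) (Real.cos η)‖ ^ 2) +
        l₂ * (16 - ‖dA (-1) (X (pt ξ η)) (deriv X (pt ξ η)) (Real.sin η) (Real.cos η)‖ ^ 2) ≤
      k₂ * (1 - (X (pt ξ η)).re) + lam * (‖X (pt ξ η)‖ ^ 2 - (X (pt ξ η)).re) + Nl X ξ η)
    {Q : (ℂ → ℂ) → ℝ → ℝ → Prop}
    (hQf : ∀ (β : ℂ → ℂ) (R a : ℝ), ExtR β R → 0 < a → a < 1 → Real.log (tau a) + 1 ≤ -1 →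
      Q (Xf β a) (Real.log (tau a) + 1) (-1))
    (hCen : ∀ k : ℝ, 0 ≤ k → ∃ C' : ℝ, ∀ (l x₁ x₂ : ℝ) (χ χ₁ χ₂ : ℝ → ℝ) (X : ℂ → ℂ),
      Cut k l x₁ x₂ χ χ₁ χ₂ → x₁ ≤ x₂ → NiceX X x₁ x₂ → Q X x₁ x₂ →
      ∫ ξ in x₁..x₂, χ ξ * (Kl X ξ + Kl (mir X) ξ) ≤ C' + dl * (π * (x₂ - x₁)))
    {D' : ℝ} (hQ : ∀ (X : ℂ → ℂ) (x₁ x₂ : ℝ), Q X x₁ x₂ → ∃ δ : ℝ → ℝ, Continuous δ ∧
      (∀ ξ ∈ Icc x₁ x₂, 0 ≤ δ ξ) ∧ (∀ ξ ∈ Icc x₁ x₂, (X (pt ξ (π / 2))).re ≤ 1 + δ ξ) ∧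
      ∫ ξ in x₁..x₂, δ ξ ≤ D') :
    ∃ C a₀ : ℝ, a₀ < 1 ∧ ∀ (β : ℂ → ℂ) (R a : ℝ), ExtR β R → a₀ < a → a < 1 →
      Kf (wf2 G β) 1 (-1) (Real.log a) ≤ κ * Real.log (‖N β a‖ / (1 - a ^ 2)) +
        dl * -Real.log (1 - a ^ 2) + C := by
  have hS := stripD_b hdl (P := DiscK) (T := T2 G) (D := 330 * M * 8) hlam hk₂
    (fun _ _ _ => sq_nonneg _) (fun X x₁ x₂ hX => F3_contOn hG hX) (T2_cont_H hG)
    (T2_mirror hGc) hN ?_ hCen hQ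
  · exact K_oneD hdl hG (fun β R a h ha ha1 hx => ⟨(discK_Xf β R a h ha ha1 hx).1,
      (discK_Xf β R a h ha ha1 hx).2, hQf β R a h ha ha1 hx⟩)
      (fun δ hδ => Pool.Agent.Helper79.EK3.centre_line hδ) hS hlam hk₂ hκ
  intro X x₁ x₂ hx hX hP
  have q9 := DiscP.X_le X x₁ x₂ hx hX hP.1
  have q38 := DiscP.q_le X x₁ x₂ hx hX hP.1
  obtain ⟨⟨δ, h1, h2, h3, h4, h5⟩, h6⟩ := hP
  refine ⟨fun ξ => 330 * M * δ ξ, by fun_prop, fun ξ => by have := h2 ξ; positivity, ?_, ?_⟩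
  · rw [intervalIntegral.integral_const_mul]
    exact mul_le_mul_of_nonneg_left h4 (by positivity)
  · intro ξ hξ η hη
    have hs : 0 ≤ Real.sin η := Real.sin_nonneg_of_nonneg_of_le_pi hη.1
      (hη.2.trans (by linarith [Real.pi_pos]))
    obtain ⟨l₀, l₁, l₂, a1, a2, b1, b2, c1, c2, hl⟩ := hp X x₁ x₂ hX ξ hξ η hη (h6 ξ hξ η hη)
      (q9 ξ hξ η hη) (q38 ξ hξ η hη)
    obtain ⟨k1, k2, k3⟩ := h5 ξ hξ η hη
    have hd0 := h2 ξ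
    have hd8 := h3 ξ hξ
    set d := δ ξ with hd
    have s1 : (Real.sin η * ‖X (pt ξ η)‖) ^ 2 ≤ 1 + 10 * d := by
      have := pow_le_pow_left₀ (mul_nonneg hs (norm_nonneg _)) k1 2
      nlinarith
    have s2 : ‖dA 1 (X (pt ξ η)) (deriv X (pt ξ η)) (Real.sin η) (Real.cos η)‖ ^ 2 ≤
        16 + 160 * d := by
      have := pow_le_pow_left₀ (norm_nonneg _) k2 2
      nlinarith
    have s3 : ‖dA (-1) (X (pt ξ η)) (deriv X (pt ξ η)) (Real.sin η) (Real.cos η)‖ ^ 2 ≤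
        16 + 160 * d := by
      have := pow_le_pow_left₀ (norm_nonneg _) k3 2
      nlinarith
    have m1 : l₀ * ((Real.sin η * ‖X (pt ξ η)‖) ^ 2 - 1) ≤ M * (10 * d) :=
      (mul_le_mul_of_nonneg_left (by linarith : _ ≤ 10 * d) a1).trans
        (mul_le_mul_of_nonneg_right a2 (by positivity))
    have m2 : l₁ * (‖dA 1 (X (pt ξ η)) (deriv X (pt ξ η)) (Real.sin η) (Real.cos η)‖ ^ 2 - 16) ≤
        M * (160 * d) :=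
      (mul_le_mul_of_nonneg_left (by linarith : _ ≤ 160 * d) b1).trans
        (mul_le_mul_of_nonneg_right b2 (by positivity))
    have m3 : l₂ * (‖dA (-1) (X (pt ξ η)) (deriv X (pt ξ η)) (Real.sin η) (Real.cos η)‖ ^ 2 -
        16) ≤ M * (160 * d) :=
      (mul_le_mul_of_nonneg_left (by linarith : _ ≤ 160 * d) c1).trans
        (mul_le_mul_of_nonneg_right c2 (by positivity))
    linarith

end Pool.Agent.Helper69.EK7
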