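import Pool.Agent.Helper69.EK7.E3F
import Pool.Agent.Helper28.EK.E6d
import Pool.Agent.Helper32.EK.Final
set_option autoImplicit false
open Complex MeasureTheory Metric Set
open scoped Real ComplexConjugate

/-!
# Project EK7: the Gibbs step and the moments with a loss
-/

namespace Pool.Agent.Helper69.EK7

open Pool.Agent.Helper39.Area Pool.Agent.Helper52.EK Pool.Agent.Helper70.EK
open Pool.Agent.Helper9.EK (rotβ rot_ExtR)
open Pool.Agent.Helper61.EK (N_circ_cont N_circ_pos EntropyStmt KfContStmt exp_per)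
open Pool.Agent.Helper28.EK (scale_mem scale_deriv scale_N scale_ExtR N_cont)
open Pool.Agent.Helper24.Br (deriv_ne_of_inj)

/-- the Gibbs step -/
theorem gibbs2D {κ L dl : ℝ} {G : ℂ → ℂ → ℂ} (hG : GLip2 G L)
    (hK : ∃ C a₀ : ℝ, a₀ < 1 ∧ ∀ (β : ℂ → ℂ) (R a : ℝ), ExtR β R → a₀ < a → a < 1 →
      Kf (wf2 G β) 1 (-1) (Real.log a) ≤ κ * Real.log (‖N β a‖ / (1 - a ^ 2)) +
        dl * -Real.log (1 - a ^ 2) + C) :
    ∃ C a₀ : ℝ, a₀ < 1 ∧ ∀ (β : ℂ → ℂ) (R a : ℝ), ExtR β R → a₀ < a → a < 1 →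
      (2 * π)⁻¹ * (∫ α in (0:ℝ)..(2 * π), ‖N β (a * Complex.exp (α * I))‖ ^ (-κ)) ≤
        C * (1 - a ^ 2) ^ (-(κ - 1 + dl)) := by
  have hKc : KfContStmt := fun hw _ h1 h2 => Pool.Agent.Helper26.EK.Kf_cont hw h1 h2
  obtain ⟨C₁, hE⟩ := Pool.Agent.Helper5.EK.entropy
  obtain ⟨C₂, a₀, ha₀, hK⟩ := hK
  refine ⟨Real.exp (C₁ + C₂), max a₀ (Real.exp (-1)), ?_, ?_⟩
  · apply max_lt ha₀
    rw [Real.exp_lt_one_iff]
    norm_num
  intro β R a h haa ha1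
  have ha0 : a₀ < a := (le_max_left _ _).trans_lt haa
  have hae : Real.exp (-1) < a := (le_max_right _ _).trans_lt haa
  have hap : 0 < a := (Real.exp_pos _).trans hae
  have h2π : (0:ℝ) < 2 * π := by positivity
  have hs : 0 < 1 - a ^ 2 := by nlinarith
  set f : ℝ → ℝ := fun α => ‖N β (a * Complex.exp (α * I))‖ with hf
  have hfc : Continuous f := (N_circ_cont h hap ha1).norm
  have hfp : ∀ α, 0 < f α := fun α => N_circ_pos h hap ha1 α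
  set V : ℝ → ℝ := fun α => κ * (Real.log (f α) - Real.log (1 - a ^ 2)) +
    dl * -Real.log (1 - a ^ 2) with hV
  have hVc : Continuous V :=
    (continuous_const.mul ((hfc.log fun α => (hfp α).ne').sub continuous_const)).add
      continuous_const
  have hfper : Function.Periodic f (2 * π) := by
    intro α
    simp only [hf]
    rw [exp_per]
  have hVp : Function.Periodic V (2 * π) := by
    intro α
    simp only [hV]
    rw [hfper α]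
  have hw := wf2_cont hG h.toExt
  have hKV : ∀ α : ℝ, Kf (wf2 G β) (Complex.exp (α * I)) (-1) (Real.log a) ≤ V α + C₂ := by
    intro α
    rw [rot_Kf2 α]
    have h1 := hK (rotβ β α) R a (rot_ExtR h α) ha0 ha1
    have h2 : N (rotβ β α) (a : ℂ) = N β (a * Complex.exp (α * I)) := by
      rw [Pool.Agent.Helper9.EK.rot_N' α, mul_comm]
    rw [h2, Real.log_div (hfp α).ne' hs.ne'] at h1
    simpa only [hV, hf] using h1
  have hmain := Pool.Agent.Helper61.EK.gibbs_core hE hKc hw hae ha1 hVc hVp hKV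
  have e : ∀ α, Real.exp (-V α) = f α ^ (-κ) * (1 - a ^ 2) ^ (κ + dl) := by
    intro α
    rw [Real.rpow_def_of_pos (hfp α), Real.rpow_def_of_pos hs, ← Real.exp_add]
    congr 1
    simp only [hV]
    ring
  simp only [e] at hmain
  rw [intervalIntegral.integral_mul_const, ← mul_assoc] at hmain
  have hsκ : 0 < (1 - a ^ 2) ^ (κ + dl) := Real.rpow_pos_of_pos hs _
  have h5 : (1 - a ^ 2) ^ (-(κ - 1 + dl)) * (1 - a ^ 2) ^ (κ + dl) = 1 - a ^ 2 := by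
    rw [← Real.rpow_add hs]
    have : -(κ - 1 + dl) + (κ + dl) = 1 := by ring
    rw [this, Real.rpow_one]
  refine le_of_mul_le_mul_right (hmain.trans (le_of_eq ?_)) hsκ
  rw [mul_assoc, h5]

theorem moment_ExtD {κ dl : ℝ} (hκ : 1 ≤ κ) (hdl : 0 ≤ dl)
    (hM : ∃ C a₀ : ℝ, a₀ < 1 ∧ ∀ (β : ℂ → ℂ) (R a : ℝ), ExtR β R → a₀ < a → a < 1 →
      (2 * π)⁻¹ * (∫ α in (0:ℝ)..(2 * π), ‖N β (a * Complex.exp (α * I))‖ ^ (-κ)) ≤
        C * (1 - a ^ 2) ^ (-(κ - 1 + dl))) :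
    ∀ p : ℝ, κ ≤ p → ∃ C : ℝ, ∀ (β : ℂ → ℂ) (r : ℝ), Ext β → 0 < r → r < 1 →
      (2 * π)⁻¹ * (∫ α in (0:ℝ)..(2 * π), ‖N β (r * Complex.exp (α * I))‖ ^ (-p)) ≤
        C * (1 - r ^ 2) ^ (-(p - 1 + dl)) := by
  obtain ⟨C₀, a₀, ha₀, hM⟩ := hM
  intro p hp
  obtain ⟨C₁, hC₁⟩ : ∃ C₁ : ℝ, C₁ = |C₀| * 2 ^ (κ - 1 + dl) := ⟨_, rfl⟩
  have hC₁0 : 0 ≤ C₁ := by rw [hC₁]; positivity
  obtain ⟨b, hb⟩ : ∃ b : ℝ, b = max a₀ 0 := ⟨_, rfl⟩
  have hb0 : 0 ≤ b := by rw [hb]; exact le_max_right _ _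
  have hb1 : b < 1 := by rw [hb]; exact max_lt ha₀ one_pos
  have hab : a₀ ≤ b := by rw [hb]; exact le_max_left _ _
  have h1b : 0 < 1 - b ^ 2 := by nlinarith
  obtain ⟨C₂, hC₂⟩ : ∃ C₂ : ℝ, C₂ = (1 - b ^ 2) ^ (-p) := ⟨_, rfl⟩
  have hC₂0 : 0 ≤ C₂ := by rw [hC₂]; positivity
  refine ⟨C₁ + C₂, ?_⟩
  intro β r hβ hr0 hr1
  have hπ : 0 < 2 * π := by positivity
  have h1r : 0 < 1 - r ^ 2 := by nlinarith
  have h1r1 : 1 - r ^ 2 ≤ 1 := by nlinarith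
  have hmem : ∀ α : ℝ, ‖(r : ℂ) * Complex.exp (α * I)‖ = r := by
    intro α
    rw [norm_mul, Complex.norm_exp_ofReal_mul_I, mul_one, Complex.norm_real,
      Real.norm_eq_abs, abs_of_pos hr0]
  have hNge : ∀ α : ℝ, 1 - r ^ 2 ≤ ‖N β (r * Complex.exp (α * I))‖ := by
    intro α
    have := Pool.Agent.Helper39.EK.N_ge hβ (z := (r : ℂ) * Complex.exp (α * I))
      (by rw [hmem]; exact hr1)
    rwa [hmem] at this
  have hcont : ∀ s : ℝ, IntervalIntegrable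
      (fun α : ℝ => ‖N β (r * Complex.exp (α * I))‖ ^ (-s)) volume 0 (2 * π) :=
    fun s => (N_cont hβ hr0 hr1 s).intervalIntegrable _ _
  have hpow1 : 1 ≤ (1 - r ^ 2) ^ (-(p - 1 + dl)) :=
    Real.one_le_rpow_of_pos_of_le_one_of_nonpos h1r h1r1 (by linarith)
  rcases le_or_gt r b with hrb | hrb
  · -- small radius
    have hle : ∀ α : ℝ, ‖N β (r * Complex.exp (α * I))‖ ^ (-p) ≤ C₂ := by
      intro α
      rw [hC₂]
      have h2 : 1 - b ^ 2 ≤ 1 - r ^ 2 := by nlinarith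
      exact Real.rpow_le_rpow_of_nonpos h1b (h2.trans (hNge α)) (by linarith)
    have hint : (∫ α in (0:ℝ)..(2 * π), ‖N β (r * Complex.exp (α * I))‖ ^ (-p)) ≤
        ∫ _α in (0:ℝ)..(2 * π), C₂ :=
      intervalIntegral.integral_mono_on hπ.le (hcont p) intervalIntegrable_const
        (fun α _ => hle α)
    rw [intervalIntegral.integral_const, smul_eq_mul, sub_zero] at hint
    have h3 : (2 * π)⁻¹ * (∫ α in (0:ℝ)..(2 * π), ‖N β (r * Complex.exp (α * I))‖ ^ (-p)) ≤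
        (2 * π)⁻¹ * (2 * π * C₂) := mul_le_mul_of_nonneg_left hint (by positivity)
    rw [inv_mul_cancel_left₀ hπ.ne'] at h3
    calc _ ≤ C₂ := h3
      _ ≤ C₂ * (1 - r ^ 2) ^ (-(p - 1 + dl)) := le_mul_of_one_le_right hC₂0 hpow1
      _ ≤ (C₁ + C₂) * (1 - r ^ 2) ^ (-(p - 1 + dl)) :=
          mul_le_mul_of_nonneg_right (by linarith) (by positivity)
  · -- scaling
    have hex : ∃ ρ : ℝ, r < ρ ∧ ρ < 1 ∧ b < r / ρ ∧ (1 - r ^ 2) / 2 ≤ 1 - (r / ρ) ^ 2 := by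
      have hcts : Filter.Tendsto (fun ρ : ℝ => r / ρ) (nhdsWithin 1 (Iio 1)) (nhds r) := by
        have h2 : ContinuousAt (fun ρ : ℝ => r / ρ) 1 :=
          continuousAt_const.div continuousAt_id one_ne_zero
        have h3 := h2.tendsto
        simp only [div_one] at h3
        exact h3.mono_left nhdsWithin_le_nhds
      have hcts2 : Filter.Tendsto (fun ρ : ℝ => 1 - (r / ρ) ^ 2) (nhdsWithin 1 (Iio 1))
          (nhds (1 - r ^ 2)) := (hcts.pow 2).const_sub 1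
      have e1 : ∀ᶠ ρ in nhdsWithin (1:ℝ) (Iio 1), b < r / ρ := hcts.eventually_const_lt hrb
      have e2 : ∀ᶠ ρ in nhdsWithin (1:ℝ) (Iio 1), (1 - r ^ 2) / 2 < 1 - (r / ρ) ^ 2 :=
        hcts2.eventually_const_lt (by linarith)
      have e3 : ∀ᶠ ρ in nhdsWithin (1:ℝ) (Iio 1), r < ρ :=
        (eventually_gt_nhds hr1).filter_mono nhdsWithin_le_nhds
      have e4 : ∀ᶠ ρ in nhdsWithin (1:ℝ) (Iio 1), ρ < 1 := eventually_mem_nhdsWithin
      obtain ⟨ρ, h4, h5, h6, h7⟩ := (e1.and (e2.and (e3.and e4))).exists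
      exact ⟨ρ, h6, h7, h4, h5.le⟩
    obtain ⟨ρ, hrρ, hρ1, hbρ, hhalf⟩ := hex
    have hρ0 : 0 < ρ := hr0.trans hrρ
    have ha1 : r / ρ < 1 := by rw [div_lt_one hρ0]; exact hrρ
    have ha0 : 0 < r / ρ := by positivity
    have h2 := hM _ _ (r / ρ) (scale_ExtR hβ hρ0 hρ1) (lt_of_le_of_lt hab hbρ) ha1
    have hρC : (ρ : ℂ) ≠ 0 := by exact_mod_cast hρ0.ne'
    have hNeq : ∀ α : ℝ, N (fun z => (ρ : ℂ) * β (ρ * z)) (((r / ρ : ℝ) : ℂ) *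
        Complex.exp (α * I)) = N β (r * Complex.exp (α * I)) := by
      intro α
      have e : (ρ : ℂ) * (((r / ρ : ℝ) : ℂ) * Complex.exp (α * I)) = r * Complex.exp (α * I) := by
        push_cast
        field_simp
      rw [scale_N hβ.diff (by
        rw [e, mem_ball_zero_iff, hmem]
        exact hr1), e]
    simp only [hNeq] at h2
    have hκm1 : 0 ≤ κ - 1 + dl := by linarith
    have h3 : (1 - (r / ρ) ^ 2) ^ (-(κ - 1 + dl)) ≤ 2 ^ (κ - 1 + dl) * (1 - r ^ 2) ^ (-(κ - 1 + dl)) := by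
      have h4 : (1 - (r / ρ) ^ 2) ^ (-(κ - 1 + dl)) ≤ ((1 - r ^ 2) / 2) ^ (-(κ - 1 + dl)) :=
        Real.rpow_le_rpow_of_nonpos (by linarith) hhalf (by linarith)
      refine h4.trans (le_of_eq ?_)
      rw [Real.div_rpow h1r.le (by norm_num), Real.rpow_neg (by norm_num : (0:ℝ) ≤ 2), div_inv_eq_mul,
        mul_comm]
    have h5 : (2 * π)⁻¹ * (∫ α in (0:ℝ)..(2 * π), ‖N β (r * Complex.exp (α * I))‖ ^ (-κ)) ≤
        C₁ * (1 - r ^ 2) ^ (-(κ - 1 + dl)) := by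
      have h6 : 0 < 1 - (r / ρ) ^ 2 := by linarith
      calc _ ≤ C₀ * (1 - (r / ρ) ^ 2) ^ (-(κ - 1 + dl)) := h2
        _ ≤ |C₀| * (1 - (r / ρ) ^ 2) ^ (-(κ - 1 + dl)) :=
            mul_le_mul_of_nonneg_right (le_abs_self _) (by positivity)
        _ ≤ |C₀| * (2 ^ (κ - 1 + dl) * (1 - r ^ 2) ^ (-(κ - 1 + dl))) :=
            mul_le_mul_of_nonneg_left h3 (abs_nonneg _)
        _ = C₁ * (1 - r ^ 2) ^ (-(κ - 1 + dl)) := by rw [hC₁]; ring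
    -- larger powers
    have hpt : ∀ α : ℝ, ‖N β (r * Complex.exp (α * I))‖ ^ (-p) ≤
        (1 - r ^ 2) ^ (-(p - κ)) * ‖N β (r * Complex.exp (α * I))‖ ^ (-κ) := by
      intro α
      have hpos : 0 < ‖N β (r * Complex.exp (α * I))‖ := lt_of_lt_of_le h1r (hNge α)
      have e : (-p) = -(p - κ) + (-κ) := by ring
      rw [e, Real.rpow_add hpos]
      refine mul_le_mul_of_nonneg_right ?_ (by positivity)
      exact Real.rpow_le_rpow_of_nonpos h1r (hNge α) (by linarith)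
    have hint : (∫ α in (0:ℝ)..(2 * π), ‖N β (r * Complex.exp (α * I))‖ ^ (-p)) ≤
        ∫ α in (0:ℝ)..(2 * π), (1 - r ^ 2) ^ (-(p - κ)) *
          ‖N β (r * Complex.exp (α * I))‖ ^ (-κ) :=
      intervalIntegral.integral_mono_on hπ.le (hcont p) ((hcont κ).const_mul _)
        (fun α _ => hpt α)
    rw [intervalIntegral.integral_const_mul] at hint
    have hq0 : (0:ℝ) ≤ (1 - r ^ 2) ^ (-(p - κ)) := by positivity
    calc (2 * π)⁻¹ * (∫ α in (0:ℝ)..(2 * π), ‖N β (r * Complex.exp (α * I))‖ ^ (-p))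
        ≤ (2 * π)⁻¹ * ((1 - r ^ 2) ^ (-(p - κ)) *
          ∫ α in (0:ℝ)..(2 * π), ‖N β (r * Complex.exp (α * I))‖ ^ (-κ)) :=
          mul_le_mul_of_nonneg_left hint (by positivity)
      _ = (1 - r ^ 2) ^ (-(p - κ)) * ((2 * π)⁻¹ *
          ∫ α in (0:ℝ)..(2 * π), ‖N β (r * Complex.exp (α * I))‖ ^ (-κ)) := by ring
      _ ≤ (1 - r ^ 2) ^ (-(p - κ)) * (C₁ * (1 - r ^ 2) ^ (-(κ - 1 + dl))) :=
          mul_le_mul_of_nonneg_left h5 hq0
      _ = C₁ * (1 - r ^ 2) ^ (-(p - 1 + dl)) := by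
          have e : -(p - 1 + dl) = -(p - κ) + -(κ - 1 + dl) := by ring
          rw [e, Real.rpow_add h1r]
          ring
      _ ≤ (C₁ + C₂) * (1 - r ^ 2) ^ (-(p - 1 + dl)) :=
          mul_le_mul_of_nonneg_right (by linarith) (by positivity)

/-- E6e: the class Σ -/
theorem finalD {κ dl : ℝ} (hM : ∀ p : ℝ, κ ≤ p → ∃ C : ℝ, ∀ (β : ℂ → ℂ) (r : ℝ), Ext β → 0 < r →
      r < 1 → (2 * π)⁻¹ * (∫ α in (0:ℝ)..(2 * π), ‖N β (r * Complex.exp (α * I))‖ ^ (-p)) ≤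
        C * (1 - r ^ 2) ^ (-(p - 1 + dl))) :
    ∀ p : ℝ, κ ≤ p → ∃ C : ℝ, ∀ ψ : ℂ → ℂ, DifferentiableOn ℂ ψ {z : ℂ | 1 < ‖z‖} →
      InjOn ψ {z : ℂ | 1 < ‖z‖} →
      (∃ b : ℂ, Filter.Tendsto (fun z => ψ z - z) (Bornology.cobounded ℂ) (nhds b)) →
      ∀ R : ℝ, 1 < R →
      (2 * π)⁻¹ * (∫ θ in (0:ℝ)..(2 * π), ‖deriv ψ (R * Complex.exp (θ * I))‖ ^ (-p)) ≤
        C * (R ^ 2 / (R ^ 2 - 1)) ^ (p - 1 + dl) := by
  intro p hp
  obtain ⟨C, hC⟩ := hM p hp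
  refine ⟨C, ?_⟩
  rintro ψ hψ hinj ⟨b, hb⟩ R hR
  have hR0 : 0 < R := by linarith
  have hne : ∀ z : ℂ, 1 < ‖z‖ → deriv ψ z ≠ 0 := fun z hz =>
    deriv_ne_of_inj isOpen_ext hψ hinj hz
  have hexp : ∀ z : ℂ, 1 < ‖z‖ → Complex.exp ((fun z => Complex.log (deriv ψ z)) z) =
      deriv ψ z := fun z hz => Complex.exp_log (hne z hz)
  obtain ⟨hE, hex⟩ := ext_data hψ hinj hb hexp
  have hr0 : 0 < R⁻¹ := by positivity
  have hr1 : R⁻¹ < 1 := inv_lt_one_of_one_lt₀ hR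
  have hmain := hC (toDisc b (fun z => ψ z - z)) R⁻¹ hE hr0 hr1
  obtain ⟨k, hk⟩ : ∃ k : ℝ → ℝ, k = fun (α : ℝ) =>
    ‖N (toDisc b (fun z => ψ z - z)) (((R⁻¹ : ℝ) : ℂ) * Complex.exp (α * I))‖ ^ (-p) := ⟨_, rfl⟩
  have h1 : ∀ θ : ℝ, ‖deriv ψ (R * Complex.exp (θ * I))‖ ^ (-p) = k (-θ) := by
    intro θ
    have hne0 : ((R⁻¹ : ℝ) : ℂ) * Complex.exp (((-θ : ℝ) : ℂ) * I) ≠ 0 := by
      apply mul_ne_zero _ (Complex.exp_ne_zero _)
      exact_mod_cast inv_ne_zero hR0.ne'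
    have hmem : ((R⁻¹ : ℝ) : ℂ) * Complex.exp (((-θ : ℝ) : ℂ) * I) ∈ ball (0:ℂ) 1 := by
      rw [mem_ball_zero_iff, norm_mul, Complex.norm_exp_ofReal_mul_I, mul_one, Complex.norm_real,
        Real.norm_of_nonneg hr0.le]
      exact hr1
    have h2 : (((R⁻¹ : ℝ) : ℂ) * Complex.exp (((-θ : ℝ) : ℂ) * I))⁻¹ =
        (R : ℂ) * Complex.exp ((θ : ℂ) * I) := by
      rw [mul_inv, ← Complex.exp_neg]
      push_cast
      rw [inv_inv]
      congr 2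
      ring
    have h3 := hex _ hmem
    simp only [toDisc] at h3
    rw [if_neg hne0, h2, hexp] at h3
    · simp only [hk, N]
      rw [h3]
    · rw [norm_mul, Complex.norm_exp_ofReal_mul_I, mul_one, Complex.norm_real,
        Real.norm_of_nonneg hR0.le]
      exact hR
  simp_rw [h1]
  rw [intervalIntegral.integral_comp_neg (fun θ => k θ)]
  have hper : Function.Periodic k (2 * π) := by
    intro θ
    simp only [hk]
    have : Complex.exp (((θ + 2 * π : ℝ) : ℂ) * I) = Complex.exp ((θ : ℂ) * I) := by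
      push_cast
      rw [add_mul, Complex.exp_add, Complex.exp_two_pi_mul_I, mul_one]
    rw [this]
  have h2 := hper.intervalIntegral_add_eq (-(2 * π)) 0
  have e1 : -(2 * π) + 2 * π = (0:ℝ) := by ring
  have e2 : (0:ℝ) + 2 * π = 2 * π := by ring
  rw [e1, e2] at h2
  rw [neg_zero, h2]
  have hRR : 0 < R ^ 2 - 1 := by nlinarith
  have hx : (1 - R⁻¹ ^ 2) ^ (-(p - 1 + dl)) = (R ^ 2 / (R ^ 2 - 1)) ^ (p - 1 + dl) := by
    have h3 : 1 - R⁻¹ ^ 2 = (R ^ 2 / (R ^ 2 - 1))⁻¹ := by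
      rw [inv_pow]
      field_simp
    rw [h3, Real.inv_rpow (by positivity), Real.rpow_neg (by positivity), inv_inv]
  rw [hx] at hmain
  rw [hk]
  exact hmain


/-- **the integral means from the bound for one target, with a loss** -/
theorem moments2D {κ L dl : ℝ} {G : ℂ → ℂ → ℂ} (hG : GLip2 G L) (hκ : 1 ≤ κ) (hdl : 0 ≤ dl)
    (hK : ∃ C a₀ : ℝ, a₀ < 1 ∧ ∀ (β : ℂ → ℂ) (R a : ℝ), ExtR β R → a₀ < a → a < 1 →
      Kf (wf2 G β) 1 (-1) (Real.log a) ≤ κ * Real.log (‖N β a‖ / (1 - a ^ 2)) +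
        dl * -Real.log (1 - a ^ 2) + C) :
    ∀ p : ℝ, κ ≤ p → ∃ C : ℝ, ∀ ψ : ℂ → ℂ, DifferentiableOn ℂ ψ {z : ℂ | 1 < ‖z‖} →
      InjOn ψ {z : ℂ | 1 < ‖z‖} →
      (∃ b : ℂ, Filter.Tendsto (fun z => ψ z - z) (Bornology.cobounded ℂ) (nhds b)) →
      ∀ R : ℝ, 1 < R →
      (2 * π)⁻¹ * (∫ θ in (0:ℝ)..(2 * π), ‖deriv ψ (R * Complex.exp (θ * I))‖ ^ (-p)) ≤
        C * (R ^ 2 / (R ^ 2 - 1)) ^ (p - 1 + dl) :=
  finalD (moment_ExtD hκ hdl (gibbs2D hG hK))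

end Pool.Agent.Helper69.EK7
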