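import Pool.Agent.Helper69.EK3.NullP
import Pool.Agent.Helper69.EK3.Strip3
set_option autoImplicit false
open Complex MeasureTheory Metric Set
open scoped Real ComplexConjugate

/-!
# Project EK7: null Lagrangians of the half strip as functionals
-/

namespace Pool.Agent.Helper69.EK7

open Pool.Agent.Helper52.EK Pool.Agent.Helper69.EK3

/-- the functional `N` is a null Lagrangian of the half strip with the centre line term `K`, for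
the functions `X` with the property `P X x₁ x₂` -/
structure IsNullF (P : (ℂ → ℂ) → ℝ → ℝ → Prop) (N : (ℂ → ℂ) → ℝ → ℝ → ℝ)
    (K : (ℂ → ℂ) → ℝ → ℝ) : Prop where
  cN : ∀ (X : ℂ → ℂ) (x₁ x₂ : ℝ), NiceH X x₁ x₂ → CH x₁ x₂ (π / 2) (N X)
  cK : ∀ (X : ℂ → ℂ) (x₁ x₂ : ℝ), NiceH X x₁ x₂ → ContinuousOn (K X) (Icc x₁ x₂)
  le : ∀ k : ℝ, 0 ≤ k → ∃ C : ℝ, ∀ (X : ℂ → ℂ) (x₁ x₂ l : ℝ) (χ χ₁ χ₂ : ℝ → ℝ), 1 ≤ l →
    x₁ + l ≤ x₂ - l → Cut k l x₁ x₂ χ χ₁ χ₂ → NiceH X x₁ x₂ → P X x₁ x₂ →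
    |IH x₁ x₂ (π / 2) (fun ξ η => χ ξ * N X ξ η) - ∫ ξ in x₁..x₂, χ ξ * K X ξ| ≤
      C * (1 + En X x₁ x₂ / l)

variable {P : (ℂ → ℂ) → ℝ → ℝ → Prop}

/-- null Lagrangians of first order -/
theorem isNullF_of {N : ℂ → ℂ → ℝ → ℝ} {K : ℂ → ℂ → ℝ} (h : IsNull P N K) :
    IsNullF P (fun X ξ η => N (X (pt ξ η)) (deriv X (pt ξ η)) η)
      (fun X ξ => K (X (pt ξ (π / 2))) (deriv X (pt ξ (π / 2)))) :=
  ⟨fun _ _ _ hX => CH_N h.cN hX, fun _ _ _ hX => CC_K h.cK hX, h.le⟩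

theorem IsNullF.add {N N' : (ℂ → ℂ) → ℝ → ℝ → ℝ} {K K' : (ℂ → ℂ) → ℝ → ℝ} (h : IsNullF P N K)
    (h' : IsNullF P N' K') :
    IsNullF P (fun X ξ η => N X ξ η + N' X ξ η) (fun X ξ => K X ξ + K' X ξ) := by
  refine ⟨fun X x₁ x₂ hX => (h.cN X x₁ x₂ hX).add (h'.cN X x₁ x₂ hX),
    fun X x₁ x₂ hX => (h.cK X x₁ x₂ hX).add (h'.cK X x₁ x₂ hX), fun k hk => ?_⟩
  obtain ⟨C, hC⟩ := h.le k hk
  obtain ⟨C', hC'⟩ := h'.le k hk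
  refine ⟨C + C', fun X x₁ x₂ l χ χ₁ χ₂ hl hx hc hX hP => ?_⟩
  have h1 := hC X x₁ x₂ l χ χ₁ χ₂ hl hx hc hX hP
  have h2 := hC' X x₁ x₂ l χ χ₁ χ₂ hl hx hc hX hP
  have hx12 : x₁ ≤ x₂ := by linarith
  have a1 : CH x₁ x₂ (π / 2) (fun ξ η => χ ξ * N X ξ η) :=
    (CH_xi hc.cont).mul (h.cN X x₁ x₂ hX)
  have a2 : CH x₁ x₂ (π / 2) (fun ξ η => χ ξ * N' X ξ η) :=
    (CH_xi hc.cont).mul (h'.cN X x₁ x₂ hX)
  have s1 : IH x₁ x₂ (π / 2) (fun ξ η => χ ξ * (N X ξ η +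
      N' X ξ η)) =
      IH x₁ x₂ (π / 2) (fun ξ η => χ ξ * N X ξ η) +
      IH x₁ x₂ (π / 2) (fun ξ η => χ ξ * N' X ξ η) := by
    rw [← IH_add hx12 (by positivity) a1 a2]
    simp only [mul_add]
  have i1 : IntervalIntegrable (fun ξ => χ ξ * K X ξ)
      volume x₁ x₂ :=
    (hc.cont.continuousOn.mul (h.cK X x₁ x₂ hX)).intervalIntegrable_of_Icc hx12
  have i2 : IntervalIntegrable (fun ξ => χ ξ * K' X ξ)
      volume x₁ x₂ :=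
    (hc.cont.continuousOn.mul (h'.cK X x₁ x₂ hX)).intervalIntegrable_of_Icc hx12
  have s2 := intervalIntegral.integral_add i1 i2
  have s3 : ∫ ξ in x₁..x₂, χ ξ * (K X ξ +
      K' X ξ) =
      (∫ ξ in x₁..x₂, χ ξ * K X ξ) +
      ∫ ξ in x₁..x₂, χ ξ * K' X ξ := by
    rw [← s2]
    simp only [mul_add]
  rw [s1, s3]
  rw [abs_le] at h1 h2 ⊢
  constructor <;> linarith [h1.1, h1.2, h2.1, h2.2, add_mul C C' (1 + En X x₁ x₂ / l)]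

theorem IsNullF.const_mul {N : (ℂ → ℂ) → ℝ → ℝ → ℝ} {K : (ℂ → ℂ) → ℝ → ℝ} (h : IsNullF P N K) (c : ℝ) :
    IsNullF P (fun X ξ η => c * N X ξ η) (fun X ξ => c * K X ξ) := by
  refine ⟨fun X x₁ x₂ hX => (CH_const c).mul (h.cN X x₁ x₂ hX),
    fun X x₁ x₂ hX => continuousOn_const.mul (h.cK X x₁ x₂ hX), fun k hk => ?_⟩
  obtain ⟨C, hC⟩ := h.le k hk
  refine ⟨|c| * C, fun X x₁ x₂ l χ χ₁ χ₂ hl hx hc hX hP => ?_⟩
  have h1 := hC X x₁ x₂ l χ χ₁ χ₂ hl hx hc hX hP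
  have s1 : IH x₁ x₂ (π / 2) (fun ξ η => χ ξ * (c * N X ξ η)) =
      c * IH x₁ x₂ (π / 2) (fun ξ η => χ ξ * N X ξ η) := by
    rw [← IH_const_mul]
    simp only [mul_left_comm c]
  have s2 : ∫ ξ in x₁..x₂, χ ξ * (c * K X ξ) =
      c * ∫ ξ in x₁..x₂, χ ξ * K X ξ := by
    rw [← intervalIntegral.integral_const_mul]
    simp only [mul_left_comm c]
  rw [s1, s2, ← mul_sub, abs_mul, mul_assoc]
  exact mul_le_mul_of_nonneg_left h1 (abs_nonneg c)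

theorem IsNullF.zero : IsNullF P (fun _ _ _ => 0) (fun _ _ => 0) := by
  refine ⟨fun _ _ _ _ => CH_const 0, fun _ _ _ _ => continuousOn_const, fun k _ => ⟨0, ?_⟩⟩
  intro X x₁ x₂ l χ χ₁ χ₂ hl hx hc hX hP
  simp [IH]

theorem IsNullF.sum {ι : Type} (s : Finset ι) {N : ι → (ℂ → ℂ) → ℝ → ℝ → ℝ} {K : ι → (ℂ → ℂ) → ℝ → ℝ}
    (h : ∀ i ∈ s, IsNullF P (N i) (K i)) :
    IsNullF P (fun X ξ η => ∑ i ∈ s, N i X ξ η) (fun X ξ => ∑ i ∈ s, K i X ξ) := by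
  classical
  induction s using Finset.induction_on with
  | empty => simpa using IsNullF.zero (P := P)
  | insert i s hi ih =>
    have h1 := (h i (Finset.mem_insert_self i s)).add
      (ih fun j hj => h j (Finset.mem_insert_of_mem hj))
    simpa only [Finset.sum_insert hi] using h1

theorem IsNullF.congr {N N' : (ℂ → ℂ) → ℝ → ℝ → ℝ} {K K' : (ℂ → ℂ) → ℝ → ℝ} (h : IsNullF P N K)
    (hN : ∀ X ξ η, N X ξ η = N' X ξ η) (hK : ∀ X ξ, K X ξ = K' X ξ) : IsNullF P N' K' := by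
  have e1 : N = N' := by
    funext X ξ η
    exact hN X ξ η
  have e2 : K = K' := by
    funext X ξ
    exact hK X ξ
  rw [← e1, ← e2]
  exact h


/-- the order of integration -/
theorem IH_swap {x₁ x₂ h : ℝ} (hx : x₁ ≤ x₂) (hh : 0 ≤ h) {F : ℝ → ℝ → ℝ} (hF : CH x₁ x₂ h F) :
    IH x₁ x₂ h F = ∫ η in (0:ℝ)..h, ∫ ξ in x₁..x₂, F ξ η := by
  unfold IH
  rw [intervalIntegral.integral_of_le hx, intervalIntegral.integral_of_le hh]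
  simp only [intervalIntegral.integral_of_le hx, intervalIntegral.integral_of_le hh]
  refine integral_integral_swap ?_
  have h1 : IntegrableOn (fun p : ℝ × ℝ => F p.1 p.2) (Ioc x₁ x₂ ×ˢ Ioc 0 h) :=
    hF.integrableOn.mono_set (prod_mono Ioc_subset_Icc_self Ioc_subset_Icc_self)
  rw [IntegrableOn, Measure.volume_eq_prod, ← Measure.prod_restrict] at h1
  exact h1

/-- derivatives in the direction of `ξ` -/
theorem isNullF_xi {F F₁ : (ℂ → ℂ) → ℝ → ℝ → ℝ}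
    (cF : ∀ (X : ℂ → ℂ) (x₁ x₂ : ℝ), NiceH X x₁ x₂ → CH x₁ x₂ (π / 2) (F X))
    (cF₁ : ∀ (X : ℂ → ℂ) (x₁ x₂ : ℝ), NiceH X x₁ x₂ → CH x₁ x₂ (π / 2) (F₁ X))
    (hd : ∀ (X : ℂ → ℂ) (x₁ x₂ : ℝ), NiceH X x₁ x₂ → ∀ ξ ∈ Icc x₁ x₂, ∀ η ∈ Icc (0:ℝ) (π / 2),
      HasDerivAt (fun ξ => F X ξ η) (F₁ X ξ η) ξ) {C : ℝ}
    (hC : ∀ (X : ℂ → ℂ) (x₁ x₂ : ℝ), x₁ ≤ x₂ → NiceH X x₁ x₂ → P X x₁ x₂ →
      ∀ ξ ∈ Icc x₁ x₂, ∀ η ∈ Icc (0:ℝ) (π / 2), |F X ξ η| ≤ C * (1 + ‖X (pt ξ η) - 1‖ ^ 2)) :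
    IsNullF P F₁ (fun _ _ => 0) := by
  refine ⟨cF₁, fun _ _ _ _ => continuousOn_const, fun k hk => ?_⟩
  refine ⟨|C| * (π / 2 * (2 * k) + k), fun X x₁ x₂ l χ χ₁ χ₂ hl hx hc hX hP => ?_⟩
  have hx12 : x₁ ≤ x₂ := by linarith
  have hpi : (0:ℝ) ≤ π / 2 := by positivity
  have c1 : CH x₁ x₂ (π / 2) (fun ξ η => χ ξ * F₁ X ξ η) :=
    (CH_xi hc.cont).mul (cF₁ X x₁ x₂ hX)
  have c2 : CH x₁ x₂ (π / 2) (fun ξ η => χ₁ ξ * F X ξ η) :=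
    (CH_xi hc.cont1).mul (cF X x₁ x₂ hX)
  have h1 : IH x₁ x₂ (π / 2) (fun ξ η => χ ξ * F₁ X ξ η) =
      - IH x₁ x₂ (π / 2) (fun ξ η => χ₁ ξ * F X ξ η) := by
    rw [IH_swap hx12 hpi c1, IH_swap hx12 hpi c2, ← intervalIntegral.integral_neg]
    refine intervalIntegral.integral_congr fun η hη => ?_
    rw [uIcc_of_le hpi] at hη
    have cc : ∀ {G : ℝ → ℝ → ℝ}, CH x₁ x₂ (π / 2) G →
        ContinuousOn (fun ξ => G ξ η) (Icc x₁ x₂) := fun hG =>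
      hG.comp (f := fun ξ : ℝ => (ξ, η)) (by fun_prop) fun ξ hξ => ⟨hξ, hη⟩
    have i1 : IntervalIntegrable (fun ξ => χ₁ ξ * F X ξ η) volume x₁ x₂ :=
      (cc c2).intervalIntegrable_of_Icc hx12
    have i2 : IntervalIntegrable (fun ξ => χ ξ * F₁ X ξ η) volume x₁ x₂ :=
      (cc c1).intervalIntegrable_of_Icc hx12
    have h2 := intervalIntegral.integral_eq_sub_of_hasDerivAt
      (f := fun ξ => χ ξ * F X ξ η) (f' := fun ξ => χ₁ ξ * F X ξ η + χ ξ * F₁ X ξ η)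
      (a := x₁) (b := x₂) (fun ξ hξ => by
        rw [uIcc_of_le hx12] at hξ
        exact (hc.d1 ξ).mul (hd X x₁ x₂ hX ξ hξ η hη)) (i1.add i2)
    rw [intervalIntegral.integral_add i1 i2, hc.e1, hc.e2] at h2
    linarith
  rw [h1]
  simp only [mul_zero, intervalIntegral.integral_zero, sub_zero, abs_neg]
  have n1 : CH x₁ x₂ (π / 2) (fun ξ η => ‖X (pt ξ η) - 1‖ ^ 2) :=
    CH_comp hX.an.continuousOn (W := fun X => ‖X - 1‖ ^ 2) (by fun_prop)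
  have h2 := IH_err hx12 hpi (F := fun ξ η => χ₁ ξ * F X ξ η)
    (N := fun ξ η => ‖X (pt ξ η) - 1‖ ^ 2) (A := |C|) (abs_nonneg C) hc.cont1
    c2 n1 (fun _ _ _ _ => sq_nonneg _) hc.k1 hc.i1 (by
      intro ξ hξ η hη
      rw [abs_mul]
      refine mul_le_mul_of_nonneg_left ?_ (abs_nonneg _)
      exact (hC X x₁ x₂ hx12 hX hP ξ hξ η hη).trans
        (mul_le_mul_of_nonneg_right (le_abs_self C) (by positivity)))
  refine h2.trans ?_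
  have hE := En_nonneg (X := X) hx12
  have e : k / l * IH x₁ x₂ (π / 2) (fun ξ η => ‖X (pt ξ η) - 1‖ ^ 2) =
      k * (En X x₁ x₂ / l) := by
    unfold En
    ring
  rw [e, mul_assoc |C|]
  refine mul_le_mul_of_nonneg_left ?_ (abs_nonneg C)
  have hE' : 0 ≤ En X x₁ x₂ / l := div_nonneg hE (by linarith)
  nlinarith [mul_nonneg (mul_nonneg hpi (mul_nonneg zero_le_two hk)) hE']

/-- derivatives in the direction of `η` -/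
theorem isNullF_eta {F F₂ : (ℂ → ℂ) → ℝ → ℝ → ℝ}
    (cF : ∀ (X : ℂ → ℂ) (x₁ x₂ : ℝ), NiceH X x₁ x₂ → CH x₁ x₂ (π / 2) (F X))
    (cF₂ : ∀ (X : ℂ → ℂ) (x₁ x₂ : ℝ), NiceH X x₁ x₂ → CH x₁ x₂ (π / 2) (F₂ X))
    (hd : ∀ (X : ℂ → ℂ) (x₁ x₂ : ℝ), NiceH X x₁ x₂ → ∀ ξ ∈ Icc x₁ x₂, ∀ η ∈ Icc (0:ℝ) (π / 2),
      HasDerivAt (fun η => F X ξ η) (F₂ X ξ η) η)
    (h0 : ∀ (X : ℂ → ℂ) (ξ : ℝ), F X ξ 0 = 0) :
    IsNullF P F₂ (fun X ξ => F X ξ (π / 2)) := by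
  have hpi : (0:ℝ) ≤ π / 2 := by positivity
  refine ⟨cF₂, fun X x₁ x₂ hX => (cF X x₁ x₂ hX).comp (f := fun ξ : ℝ => (ξ, π / 2))
    (by fun_prop) fun ξ hξ => ⟨hξ, hpi, le_rfl⟩, fun k hk => ⟨0, ?_⟩⟩
  intro X x₁ x₂ l χ χ₁ χ₂ hl hx hc hX _
  have hx12 : x₁ ≤ x₂ := by linarith
  have h1 : IH x₁ x₂ (π / 2) (fun ξ η => χ ξ * F₂ X ξ η) =
      ∫ ξ in x₁..x₂, χ ξ * F X ξ (π / 2) := by
    unfold IH
    refine intervalIntegral.integral_congr fun ξ hξ => ?_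
    rw [uIcc_of_le hx12] at hξ
    have c1 : ContinuousOn (fun η => F₂ X ξ η) (Icc 0 (π / 2)) :=
      (cF₂ X x₁ x₂ hX).comp (f := fun η : ℝ => (ξ, η)) (by fun_prop) fun η hη => ⟨hξ, hη⟩
    have h2 := intervalIntegral.integral_eq_sub_of_hasDerivAt
      (f := fun η => F X ξ η) (f' := fun η => F₂ X ξ η)
      (a := 0) (b := π / 2) (fun η hη => by
        rw [uIcc_of_le hpi] at hη
        exact hd X x₁ x₂ hX ξ hξ η hη) (c1.intervalIntegrable_of_Icc hpi)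
    simp only
    rw [intervalIntegral.integral_const_mul, h2, h0, sub_zero]
  rw [h1]
  simp

end Pool.Agent.Helper69.EK7
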