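import Pool.Agent.Helper69.EK7.NullF
set_option autoImplicit false
open Complex MeasureTheory Metric Set
open scoped Real ComplexConjugate

/-!
# Project EK7: null Lagrangians of the fields `a(η) H(X) f conj h`, `f`, `h` analytic
-/

namespace Pool.Agent.Helper69.EK7

open Pool.Agent.Helper52.EK Pool.Agent.Helper69.EK3

variable {P : (ℂ → ℂ) → ℝ → ℝ → Prop}

theorem d_xi {f : ℂ → ℂ} {ξ η : ℝ} (hf : DifferentiableAt ℂ f (pt ξ η)) :
    HasDerivAt (fun ξ : ℝ => f (pt ξ η)) (deriv f (pt ξ η)) ξ := by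
  have h1 : HasDerivAt (fun ξ : ℝ => pt ξ η) 1 ξ := by
    unfold pt
    simpa using (Complex.ofRealCLM.hasDerivAt (x := ξ)).add_const ((η : ℂ) * I)
  have h2 := hf.hasDerivAt.scomp ξ h1
  rw [one_smul] at h2
  exact h2

theorem d_eta {f : ℂ → ℂ} {ξ η : ℝ} (hf : DifferentiableAt ℂ f (pt ξ η)) :
    HasDerivAt (fun η : ℝ => f (pt ξ η)) (I * deriv f (pt ξ η)) η := by
  have h1 : HasDerivAt (fun η : ℝ => pt ξ η) I η := by
    unfold pt
    simpa using ((Complex.ofRealCLM.hasDerivAt (x := η)).mul_const I).const_add (ξ : ℂ)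
  have h2 := hf.hasDerivAt.scomp η h1
  rw [smul_eq_mul] at h2
  exact h2

theorem d_H {H Hx Hy : ℂ → ℂ} (hH : C1c H Hx Hy) {g : ℝ → ℂ} {t : ℝ} {v : ℂ} (hg : g t ≠ 0)
    (hd : HasDerivAt g v t) :
    HasDerivAt (fun s => H (g s)) (Hx (g t) * (v.re : ℂ) + Hy (g t) * (v.im : ℂ)) t := by
  have h1 := (hH.hd (g t) hg).comp_hasDerivAt t hd
  refine h1.congr_deriv ?_
  simp only [_root_.add_apply, ContinuousLinearMap.smulRight_apply, reCLM_apply, imCLM_apply,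
    real_smul]
  ring

theorem d_conj {g : ℝ → ℂ} {t : ℝ} {v : ℂ} (hd : HasDerivAt g v t) :
    HasDerivAt (fun s => conj (g s)) (conj v) t :=
  (Complex.conjCLE.toContinuousLinearMap.hasFDerivAt (x := g t)).comp_hasDerivAt t hd

theorem d_re {g : ℝ → ℂ} {t : ℝ} {v : ℂ} (hd : HasDerivAt g v t) :
    HasDerivAt (fun s => (g s).re) v.re t :=
  (reCLM.hasFDerivAt (x := g t)).comp_hasDerivAt t hd

theorem d_im {g : ℝ → ℂ} {t : ℝ} {v : ℂ} (hd : HasDerivAt g v t) :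
    HasDerivAt (fun s => (g s).im) v.im t :=
  (imCLM.hasFDerivAt (x := g t)).comp_hasDerivAt t hd

/-- the field -/
noncomputable def FA (a : ℝ → ℝ) (H : ℂ → ℂ) (f h : (ℂ → ℂ) → ℂ → ℂ) (X : ℂ → ℂ) (ξ η : ℝ) : ℂ :=
  (a η : ℂ) * H (X (pt ξ η)) * f X (pt ξ η) * conj (h X (pt ξ η))

/-- the integrand of the field `a(η) H(X) f conj h` -/
noncomputable def NF (a a₁ : ℝ → ℝ) (H Hx Hy : ℂ → ℂ) (f h : (ℂ → ℂ) → ℂ → ℂ)
    (X : ℂ → ℂ) (ξ η : ℝ) : ℝ :=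
  (I * (a₁ η : ℂ) * H (X (pt ξ η)) * f X (pt ξ η) * conj (h X (pt ξ η)) +
    (a η : ℂ) * ((Hx (X (pt ξ η)) + I * Hy (X (pt ξ η))) * conj (deriv X (pt ξ η))) *
      f X (pt ξ η) * conj (h X (pt ξ η)) +
    2 * ((a η : ℂ) * H (X (pt ξ η)) * f X (pt ξ η) * conj (deriv (h X) (pt ξ η)))).re

/-- the derivatives of the field -/
noncomputable def FA1 (a : ℝ → ℝ) (H Hx Hy : ℂ → ℂ) (f h : (ℂ → ℂ) → ℂ → ℂ) (X : ℂ → ℂ)
    (ξ η : ℝ) : ℂ :=
  (a η : ℂ) * (((Hx (X (pt ξ η)) * ((deriv X (pt ξ η)).re : ℂ) + Hy (X (pt ξ η)) *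
      ((deriv X (pt ξ η)).im : ℂ)) * f X (pt ξ η) +
    H (X (pt ξ η)) * deriv (f X) (pt ξ η)) * conj (h X (pt ξ η)) +
    H (X (pt ξ η)) * f X (pt ξ η) * conj (deriv (h X) (pt ξ η)))

noncomputable def FA2 (a a₁ : ℝ → ℝ) (H Hx Hy : ℂ → ℂ) (f h : (ℂ → ℂ) → ℂ → ℂ) (X : ℂ → ℂ)
    (ξ η : ℝ) : ℂ :=
  (a₁ η : ℂ) * (H (X (pt ξ η)) * f X (pt ξ η) * conj (h X (pt ξ η))) +
  (a η : ℂ) * (((Hx (X (pt ξ η)) * ((I * deriv X (pt ξ η)).re : ℂ) + Hy (X (pt ξ η)) *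
      ((I * deriv X (pt ξ η)).im : ℂ)) * f X (pt ξ η) +
    H (X (pt ξ η)) * (I * deriv (f X) (pt ξ η))) * conj (h X (pt ξ η)) +
    H (X (pt ξ η)) * f X (pt ξ η) * conj (I * deriv (h X) (pt ξ η)))

theorem FA_sum (a a₁ : ℝ → ℝ) (H Hx Hy : ℂ → ℂ) (f h : (ℂ → ℂ) → ℂ → ℂ) (X : ℂ → ℂ)
    (ξ η : ℝ) : (FA1 a H Hx Hy f h X ξ η).re + (-1) * (FA2 a a₁ H Hx Hy f h X ξ η).im =
      NF a a₁ H Hx Hy f h X ξ η := by
  unfold FA1 FA2 NF
  generalize H (X (pt ξ η)) = h0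
  generalize Hx (X (pt ξ η)) = hx
  generalize Hy (X (pt ξ η)) = hy
  generalize deriv (h X) (pt ξ η) = k1
  generalize deriv (f X) (pt ξ η) = f1
  generalize deriv X (pt ξ η) = Y
  generalize h X (pt ξ η) = k
  generalize f X (pt ξ η) = f0
  simp only [mul_re, mul_im, add_re, add_im, conj_re, conj_im, ofReal_re, ofReal_im, I_re, I_im,
    re_ofNat, im_ofNat]
  ring

/-- analytic functionals of `X` near the half strip -/
def AnF (f : (ℂ → ℂ) → ℂ → ℂ) : Prop :=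
  ∀ (X : ℂ → ℂ) (x₁ x₂ : ℝ), NiceH X x₁ x₂ → AnalyticOnNhd ℂ (f X) (RectH x₁ x₂ (π / 2))

theorem isNullF_A {H Hx Hy : ℂ → ℂ} (hH : C1c H Hx Hy) {f h : (ℂ → ℂ) → ℂ → ℂ} (hf : AnF f)
    (hh : AnF h) {a a₁ : ℝ → ℝ} (g1 : ∀ η, HasDerivAt a (a₁ η) η) (g1c : Continuous a₁)
    (f1 : a 0 = 0) {C : ℝ}
    (hC : ∀ (X : ℂ → ℂ) (x₁ x₂ : ℝ), x₁ ≤ x₂ → NiceH X x₁ x₂ → P X x₁ x₂ →
      ∀ ξ ∈ Icc x₁ x₂, ∀ η ∈ Icc (0:ℝ) (π / 2),
        ‖FA a H f h X ξ η‖ ≤ C * (1 + ‖X (pt ξ η) - 1‖ ^ 2)) :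
    IsNullF P (NF a a₁ H Hx Hy f h) (fun X ξ => - (FA a H f h X ξ (π / 2)).im) := by
  have ca : Continuous a := continuous_iff_continuousAt.2 fun t => (g1 t).continuousAt
  -- continuity
  have cX : ∀ (X : ℂ → ℂ) (x₁ x₂ : ℝ), NiceH X x₁ x₂ →
      ContinuousOn (fun p : ℝ × ℝ => X (pt p.1 p.2)) (Icc x₁ x₂ ×ˢ Icc 0 (π / 2)) :=
    fun X x₁ x₂ hX => contH hX.an.continuousOn
  have mX : ∀ (X : ℂ → ℂ) (x₁ x₂ : ℝ), NiceH X x₁ x₂ →
      MapsTo (fun p : ℝ × ℝ => X (pt p.1 p.2)) (Icc x₁ x₂ ×ˢ Icc 0 (π / 2)) {X | X ≠ 0} :=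
    fun X x₁ x₂ hX p hp => hX.ne _ (pt_mem_RectH hp.1 hp.2)
  have i2 : ∀ x₁ x₂ : ℝ, ContinuousOn (fun p : ℝ × ℝ => ((a p.2 : ℝ) : ℂ))
      (Icc x₁ x₂ ×ˢ Icc 0 (π / 2)) := fun _ _ =>
    (Complex.continuous_ofReal.comp (ca.comp continuous_snd)).continuousOn
  have i3 : ∀ x₁ x₂ : ℝ, ContinuousOn (fun p : ℝ × ℝ => ((a₁ p.2 : ℝ) : ℂ))
      (Icc x₁ x₂ ×ˢ Icc 0 (π / 2)) := fun _ _ =>
    (Complex.continuous_ofReal.comp (g1c.comp continuous_snd)).continuousOn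
  have cFA : ∀ (X : ℂ → ℂ) (x₁ x₂ : ℝ), NiceH X x₁ x₂ →
      ContinuousOn (fun p : ℝ × ℝ => FA a H f h X p.1 p.2) (Icc x₁ x₂ ×ˢ Icc 0 (π / 2)) := by
    intro X x₁ x₂ hX
    unfold FA
    exact (((i2 x₁ x₂).mul (hH.cont.comp (cX X x₁ x₂ hX) (mX X x₁ x₂ hX))).mul
      (contH (hf X x₁ x₂ hX).continuousOn)).mul
      (Complex.continuous_conj.comp_continuousOn (contH (hh X x₁ x₂ hX).continuousOn))
  have cFA1 : ∀ (X : ℂ → ℂ) (x₁ x₂ : ℝ), NiceH X x₁ x₂ →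
      ContinuousOn (fun p : ℝ × ℝ => FA1 a H Hx Hy f h X p.1 p.2)
        (Icc x₁ x₂ ×ˢ Icc 0 (π / 2)) := by
    intro X x₁ x₂ hX
    have cY := contH hX.an.deriv.continuousOn
    have cf := contH (hf X x₁ x₂ hX).continuousOn
    have cf1 := contH (hf X x₁ x₂ hX).deriv.continuousOn
    have ch := Complex.continuous_conj.comp_continuousOn (contH (hh X x₁ x₂ hX).continuousOn)
    have ch1 := Complex.continuous_conj.comp_continuousOn
      (contH (hh X x₁ x₂ hX).deriv.continuousOn)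
    have c0 := hH.cont.comp (cX X x₁ x₂ hX) (mX X x₁ x₂ hX)
    have cx := hH.cx.comp (cX X x₁ x₂ hX) (mX X x₁ x₂ hX)
    have cy := hH.cy.comp (cX X x₁ x₂ hX) (mX X x₁ x₂ hX)
    have yr := (Complex.continuous_ofReal.comp Complex.continuous_re).comp_continuousOn cY
    have yi := (Complex.continuous_ofReal.comp Complex.continuous_im).comp_continuousOn cY
    unfold FA1
    exact (i2 x₁ x₂).mul ((((((cx.mul yr).add (cy.mul yi)).mul cf).add (c0.mul cf1)).mul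
      ch).add ((c0.mul cf).mul ch1))
  have cFA2 : ∀ (X : ℂ → ℂ) (x₁ x₂ : ℝ), NiceH X x₁ x₂ →
      ContinuousOn (fun p : ℝ × ℝ => FA2 a a₁ H Hx Hy f h X p.1 p.2)
        (Icc x₁ x₂ ×ˢ Icc 0 (π / 2)) := by
    intro X x₁ x₂ hX
    have cY : ContinuousOn (fun p : ℝ × ℝ => I * deriv X (pt p.1 p.2))
        (Icc x₁ x₂ ×ˢ Icc 0 (π / 2)) := continuousOn_const.mul (contH hX.an.deriv.continuousOn)
    have cf := contH (hf X x₁ x₂ hX).continuousOn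
    have cf1 : ContinuousOn (fun p : ℝ × ℝ => I * deriv (f X) (pt p.1 p.2))
        (Icc x₁ x₂ ×ˢ Icc 0 (π / 2)) :=
      continuousOn_const.mul (contH (hf X x₁ x₂ hX).deriv.continuousOn)
    have ch := Complex.continuous_conj.comp_continuousOn (contH (hh X x₁ x₂ hX).continuousOn)
    have ch1' : ContinuousOn (fun p : ℝ × ℝ => I * deriv (h X) (pt p.1 p.2))
        (Icc x₁ x₂ ×ˢ Icc 0 (π / 2)) :=
      continuousOn_const.mul (contH (hh X x₁ x₂ hX).deriv.continuousOn)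
    have ch1 := Complex.continuous_conj.comp_continuousOn ch1'
    have c0 := hH.cont.comp (cX X x₁ x₂ hX) (mX X x₁ x₂ hX)
    have cx := hH.cx.comp (cX X x₁ x₂ hX) (mX X x₁ x₂ hX)
    have cy := hH.cy.comp (cX X x₁ x₂ hX) (mX X x₁ x₂ hX)
    have yr := (Complex.continuous_ofReal.comp Complex.continuous_re).comp_continuousOn cY
    have yi := (Complex.continuous_ofReal.comp Complex.continuous_im).comp_continuousOn cY
    unfold FA2
    exact ((i3 x₁ x₂).mul ((c0.mul cf).mul ch)).add ((i2 x₁ x₂).mul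
      ((((((cx.mul yr).add (cy.mul yi)).mul cf).add (c0.mul cf1)).mul ch).add
      ((c0.mul cf).mul ch1)))
  -- the direction of `ξ`
  have N1 := isNullF_xi (P := P) (F := fun X ξ η => (FA a H f h X ξ η).re)
    (F₁ := fun X ξ η => (FA1 a H Hx Hy f h X ξ η).re)
    (fun X x₁ x₂ hX => Complex.continuous_re.comp_continuousOn (cFA X x₁ x₂ hX))
    (fun X x₁ x₂ hX => Complex.continuous_re.comp_continuousOn (cFA1 X x₁ x₂ hX))
    (by
      intro X x₁ x₂ hX ξ hξ η hη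
      have hm := pt_mem_RectH hξ hη
      have dX := d_xi (hX.an _ hm).differentiableAt
      have df := d_xi (hf X x₁ x₂ hX _ hm).differentiableAt
      have dh := d_xi (hh X x₁ x₂ hX _ hm).differentiableAt
      have dH := d_H hH (g := fun ξ => X (pt ξ η)) (t := ξ) (hX.ne _ hm) dX
      have hd := d_re ((((hasDerivAt_const ξ ((a η : ℝ) : ℂ)).mul dH).mul df).mul (d_conj dh))
      refine (hd.congr_deriv ?_)
      congr 1
      simp only [Pi.mul_apply]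
      unfold FA1
      ring)
    (fun X x₁ x₂ hx hX hP ξ hξ η hη =>
      (abs_re_le_norm _).trans (hC X x₁ x₂ hx hX hP ξ hξ η hη))
  -- the direction of `η`
  have N2 := isNullF_eta (P := P) (F := fun X ξ η => (FA a H f h X ξ η).im)
    (F₂ := fun X ξ η => (FA2 a a₁ H Hx Hy f h X ξ η).im)
    (fun X x₁ x₂ hX => Complex.continuous_im.comp_continuousOn (cFA X x₁ x₂ hX))
    (fun X x₁ x₂ hX => Complex.continuous_im.comp_continuousOn (cFA2 X x₁ x₂ hX))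
    (by
      intro X x₁ x₂ hX ξ hξ η hη
      have hm := pt_mem_RectH hξ hη
      have dX := d_eta (hX.an _ hm).differentiableAt
      have df := d_eta (hf X x₁ x₂ hX _ hm).differentiableAt
      have dh := d_eta (hh X x₁ x₂ hX _ hm).differentiableAt
      have dH := d_H hH (g := fun η => X (pt ξ η)) (t := η) (hX.ne _ hm) dX
      have hd := d_im ((((g1 η).ofReal_comp.mul dH).mul df).mul (d_conj dh))
      refine (hd.congr_deriv ?_)
      congr 1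
      simp only [Pi.mul_apply]
      unfold FA2
      ring)
    (fun X ξ => by
      unfold FA
      rw [f1]
      simp)
  refine (N1.add (N2.const_mul (-1))).congr (fun X ξ η => FA_sum a a₁ H Hx Hy f h X ξ η)
    fun X ξ => by ring

end Pool.Agent.Helper69.EK7
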