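import Pool.Agent.Helper69.EK7.NullF
set_option autoImplicit false
open Complex MeasureTheory Metric Set
open scoped Real ComplexConjugate

/-!
# Project EK7: from the pointwise certificate on the half strip to the integrated inequality
-/

namespace Pool.Agent.Helper69.EK7

open Pool.Agent.Helper52.EK Pool.Agent.Helper69.EK3

variable {P : (ℂ → ℂ) → ℝ → ℝ → Prop}

/-- a null Lagrangian applied to both halves -/
theorem bothF {N : (ℂ → ℂ) → ℝ → ℝ → ℝ} {K : (ℂ → ℂ) → ℝ → ℝ} (h : IsNullF P N K) {k : ℝ} (hk : 0 ≤ k) :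
    ∃ C : ℝ, ∀ (X : ℂ → ℂ) (x₁ x₂ l : ℝ) (χ χ₁ χ₂ : ℝ → ℝ), 1 ≤ l → x₁ + l ≤ x₂ - l →
      Cut k l x₁ x₂ χ χ₁ χ₂ → NiceX X x₁ x₂ → P X x₁ x₂ → P (mir X) x₁ x₂ →
      |IH x₁ x₂ (π / 2) (fun ξ η => χ ξ * N X ξ η) +
        IH x₁ x₂ (π / 2) (fun ξ η => χ ξ * N (mir X) ξ η) -
        ∫ ξ in x₁..x₂, χ ξ * (K X ξ + K (mir X) ξ)| ≤
      C * (1 + II x₁ x₂ (fun ξ η => ‖X (pt ξ η) - 1‖ ^ 2) / l) := by
  obtain ⟨C, hC⟩ := h.le k hk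
  refine ⟨2 * |C|, fun X x₁ x₂ l χ χ₁ χ₂ hl hx hc hX hP hP' => ?_⟩
  have hx12 : x₁ ≤ x₂ := by linarith
  have h1 := hC X x₁ x₂ l χ χ₁ χ₂ hl hx hc (NiceX.half hX) hP
  have h2 := hC (mir X) x₁ x₂ l χ χ₁ χ₂ hl hx hc (NiceX.mir hX) hP'
  have i1 : IntervalIntegrable (fun ξ => χ ξ * K X ξ) volume x₁ x₂ :=
    (hc.cont.continuousOn.mul (h.cK X x₁ x₂ (NiceX.half hX))).intervalIntegrable_of_Icc hx12
  have i2 : IntervalIntegrable (fun ξ => χ ξ * K (mir X) ξ) volume x₁ x₂ :=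
    (hc.cont.continuousOn.mul (h.cK (mir X) x₁ x₂ (NiceX.mir hX))).intervalIntegrable_of_Icc hx12
  have s3 : ∫ ξ in x₁..x₂, χ ξ * (K X ξ + K (mir X) ξ) =
      (∫ ξ in x₁..x₂, χ ξ * K X ξ) + ∫ ξ in x₁..x₂, χ ξ * K (mir X) ξ := by
    rw [← intervalIntegral.integral_add i1 i2]
    simp only [mul_add]
  rw [s3, ← En_add hx12 hX]
  have p1 := En_nonneg (X := X) hx12
  have p2 := En_nonneg (X := mir X) hx12
  have hl0 : 0 < l := by linarith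
  have q1 : 0 ≤ En X x₁ x₂ / l := div_nonneg p1 hl0.le
  have q2 : 0 ≤ En (mir X) x₁ x₂ / l := div_nonneg p2 hl0.le
  have r1 : C * (1 + En X x₁ x₂ / l) ≤ |C| * (1 + En X x₁ x₂ / l) :=
    mul_le_mul_of_nonneg_right (le_abs_self C) (by linarith)
  have r2 : C * (1 + En (mir X) x₁ x₂ / l) ≤ |C| * (1 + En (mir X) x₁ x₂ / l) :=
    mul_le_mul_of_nonneg_right (le_abs_self C) (by linarith)
  have r3 : |C| * (1 + En X x₁ x₂ / l) + |C| * (1 + En (mir X) x₁ x₂ / l) ≤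
      2 * |C| * (1 + (En X x₁ x₂ + En (mir X) x₁ x₂) / l) := by
    rw [add_div]
    nlinarith [mul_nonneg (abs_nonneg C) q1, mul_nonneg (abs_nonneg C) q2]
  rw [abs_le] at h1 h2 ⊢
  constructor <;> linarith [h1.1, h1.2, h2.1, h2.2]

/-- The assembly. The pointwise inequality may have an integrable error `ε ξ`. -/
theorem stripF_core {k₂ lam D : ℝ} (hlam : 0 ≤ lam) (hk₂ : lam ≤ k₂)
    {T : (ℂ → ℂ) → ℝ → ℝ → ℝ} (hT0 : ∀ (X : ℂ → ℂ) (ξ η : ℝ), 0 ≤ T X ξ η)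
    (hTc : ∀ (X : ℂ → ℂ) (x₁ x₂ : ℝ), NiceX X x₁ x₂ → CH x₁ x₂ π (T X))
    (hTh : ∀ (X : ℂ → ℂ) (x₁ x₂ : ℝ), NiceH X x₁ x₂ → CH x₁ x₂ (π / 2) (T X))
    (hTm : ∀ (X : ℂ → ℂ) (x₁ x₂ : ℝ), NiceX X x₁ x₂ → ∀ ξ ∈ Icc x₁ x₂,
      ∀ η ∈ Icc (0:ℝ) (π / 2), T X ξ (π - η) = T (mir X) ξ η)
    {N : (ℂ → ℂ) → ℝ → ℝ → ℝ} {K : (ℂ → ℂ) → ℝ → ℝ} (hN : IsNullF P N K)
    (hp : ∀ (X : ℂ → ℂ) (x₁ x₂ : ℝ), x₁ ≤ x₂ → NiceH X x₁ x₂ → P X x₁ x₂ →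
      ∃ ε : ℝ → ℝ, Continuous ε ∧ (∀ ξ, 0 ≤ ε ξ) ∧ ∫ ξ in x₁..x₂, ε ξ ≤ D ∧
        ∀ ξ ∈ Icc x₁ x₂, ∀ η ∈ Icc (0:ℝ) (π / 2),
          T X ξ η ≤ k₂ * (1 - (X (pt ξ η)).re) +
            lam * (‖X (pt ξ η)‖ ^ 2 - (X (pt ξ η)).re) + N X ξ η + ε ξ) :
    ∃ k C : ℝ, 0 ≤ k ∧ ∀ (X : ℂ → ℂ) (x₁ x₂ l : ℝ), 1 ≤ l → x₁ + l ≤ x₂ - l → NiceX X x₁ x₂ →
      P X x₁ x₂ → P (mir X) x₁ x₂ → ∃ χ χ₁ χ₂ : ℝ → ℝ, Cut k l x₁ x₂ χ χ₁ χ₂ ∧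
      II (x₁ + l) (x₂ - l) (T X) ≤
      lam * II x₁ x₂ (fun ξ η => ‖X (pt ξ η) - 1‖ ^ 2) +
        (k₂ - lam) * (π * ∫ ξ in x₁..x₂, χ ξ * (1 - (X (pt ξ (π / 2))).re)) +
        (∫ ξ in x₁..x₂, χ ξ * (K X ξ + K (mir X) ξ)) +
        C * (1 + II x₁ x₂ (fun ξ η => ‖X (pt ξ η) - 1‖ ^ 2) / l) := by
  obtain ⟨k, hk, hcut⟩ := exists_cut
  obtain ⟨C₁, hC₁⟩ := bothF hN hk
  obtain ⟨C₂, hC₂⟩ := both (isNull_lin (P := P)) hk
  refine ⟨k, |C₁| + (k₂ - lam) * |C₂| + π * |D|, hk, fun X x₁ x₂ l hl hx hX hP hP' => ?_⟩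
  obtain ⟨χ, χ₁, χ₂, hc⟩ := hcut x₁ x₂ l hl hx
  refine ⟨χ, χ₁, χ₂, hc, ?_⟩
  have hx12 : x₁ ≤ x₂ := by linarith
  have hl0 : 0 < l := by linarith
  have hpi : (0:ℝ) ≤ π / 2 := by positivity
  have b1 := hC₁ X x₁ x₂ l χ χ₁ χ₂ hl hx hc hX hP hP'
  have b2 := hC₂ X x₁ x₂ l χ χ₁ χ₂ hl hx hc hX hP hP'
  obtain ⟨E, hE⟩ : ∃ E, E = II x₁ x₂ (fun ξ η => ‖X (pt ξ η) - 1‖ ^ 2) := ⟨_, rfl⟩
  rw [← hE] at b1 b2 ⊢
  have hE0 : 0 ≤ E := by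
    rw [hE, ← En_add hx12 hX]
    exact add_nonneg (En_nonneg hx12) (En_nonneg hx12)
  -- one half
  have half : ∀ Z : ℂ → ℂ, NiceH Z x₁ x₂ → P Z x₁ x₂ →
      IH x₁ x₂ (π / 2) (fun ξ η => χ ξ * T Z ξ η) ≤
      (k₂ - lam) * IH x₁ x₂ (π / 2) (fun ξ η => χ ξ * (1 - (Z (pt ξ η)).re)) +
        lam * En Z x₁ x₂ +
        IH x₁ x₂ (π / 2) (fun ξ η => χ ξ * N Z ξ η) +
        π / 2 * |D| := by
    intro Z hZ hPZ
    obtain ⟨ε, cε, ε0, εD, hε⟩ := hp Z x₁ x₂ hx12 hZ hPZ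
    have cT : CH x₁ x₂ (π / 2) (T Z) := hTh Z x₁ x₂ hZ
    have f1 : CH x₁ x₂ (π / 2) (fun ξ η => (k₂ - lam) * (χ ξ * (1 - (Z (pt ξ η)).re))) :=
      (CH_const _).mul ((CH_xi hc.cont).mul
        (CH_comp hZ.an.continuousOn (W := fun X => 1 - X.re) (by fun_prop)))
    have f2 : CH x₁ x₂ (π / 2) (fun ξ η => lam * ‖Z (pt ξ η) - 1‖ ^ 2) :=
      (CH_const _).mul (CH_comp hZ.an.continuousOn (W := fun X => ‖X - 1‖ ^ 2) (by fun_prop))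
    have f3 : CH x₁ x₂ (π / 2) (fun ξ η => χ ξ * N Z ξ η) :=
      (CH_xi hc.cont).mul (hN.cN Z x₁ x₂ hZ)
    have f4 : CH x₁ x₂ (π / 2) (fun ξ _ => ε ξ) := CH_xi cε
    have m := IH_mono hx12 hpi ((CH_xi hc.cont).mul cT) (((f1.add f2).add f3).add f4) (by
      intro ξ hξ η hη
      have h1 := hε ξ hξ η hη
      have h2 := mul_le_mul_of_nonneg_left h1 (hc.b01 ξ).1
      refine h2.trans ?_
      obtain ⟨Q, hQ⟩ : ∃ Q, Q = Z (pt ξ η) := ⟨_, rfl⟩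
      have hn : ‖Q - 1‖ ^ 2 = ‖Q‖ ^ 2 - 2 * Q.re + 1 := by
        rw [← normSq_eq_norm_sq, ← normSq_eq_norm_sq, normSq_apply, normSq_apply, sub_re, sub_im,
          one_re, one_im]
        ring
      have h3 : χ ξ * ε ξ ≤ ε ξ := mul_le_of_le_one_left (ε0 ξ) (hc.b01 ξ).2
      have h4 : χ ξ * (lam * ‖Q - 1‖ ^ 2) ≤ lam * ‖Q - 1‖ ^ 2 :=
        mul_le_of_le_one_left (mul_nonneg hlam (sq_nonneg _)) (hc.b01 ξ).2
      have h5 : χ ξ * (k₂ * (1 - Q.re) + lam * (‖Q‖ ^ 2 - Q.re) + N Z ξ η + ε ξ) =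
          (k₂ - lam) * (χ ξ * (1 - Q.re)) + χ ξ * (lam * ‖Q - 1‖ ^ 2) +
            χ ξ * N Z ξ η + χ ξ * ε ξ := by
        rw [hn]
        ring
      rw [← hQ, h5]
      linarith)
    rw [IH_add hx12 hpi ((f1.add f2).add f3) f4, IH_add hx12 hpi (f1.add f2) f3,
      IH_add hx12 hpi f1 f2, IH_const_mul, IH_const_mul, IH_xi] at m
    have hD : π / 2 * ∫ ξ in x₁..x₂, ε ξ ≤ π / 2 * |D| :=
      mul_le_mul_of_nonneg_left (εD.trans (le_abs_self D)) hpi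
    refine m.trans ?_
    unfold En
    linarith
  have t1 := half X (NiceX.half hX) hP
  have t2 := half (mir X) (NiceX.mir hX) hP'
  -- the whole strip
  have cTπ : CH x₁ x₂ π (T X) := hTc X x₁ x₂ hX
  have cχT : CH x₁ x₂ π (fun ξ η => χ ξ * T X ξ η) := (CH_xi hc.cont).mul cTπ
  have whole : II (x₁ + l) (x₂ - l) (T X) ≤ II x₁ x₂ (fun ξ η => χ ξ * T X ξ η) := by
    have hin : CH (x₁ + l) (x₂ - l) π (T X) :=
      ContinuousOn.mono cTπ (prod_mono (Icc_subset_Icc (by linarith) (by linarith)) subset_rfl)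
    have hin2 : CH (x₁ + l) (x₂ - l) π (fun ξ η => χ ξ * T X ξ η) :=
      ContinuousOn.mono cχT (prod_mono (Icc_subset_Icc (by linarith) (by linarith)) subset_rfl)
    have e1 : ∀ (y₁ y₂ : ℝ) (F : ℝ → ℝ → ℝ), II y₁ y₂ F = IH y₁ y₂ π F := fun _ _ _ => rfl
    rw [e1, e1]
    refine (IH_mono hx Real.pi_pos.le hin hin2 fun ξ hξ η _ => ?_).trans ?_
    · rw [hc.mid ξ hξ, one_mul]
    · rw [IH_eq hx Real.pi_pos.le hin2, IH_eq hx12 Real.pi_pos.le cχT]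
      refine setIntegral_mono_set cχT.integrableOn ?_ ?_
      · exact (ae_restrict_iff' (measurableSet_Icc.prod measurableSet_Icc)).2
          (Filter.Eventually.of_forall fun p _ => mul_nonneg (hc.b01 _).1 (hT0 _ _ _))
      · exact (prod_mono (Icc_subset_Icc (by linarith) (by linarith)) subset_rfl).eventuallyLE
  have split := II_split hx12 cχT
  have e3 : IH x₁ x₂ (π / 2) (fun ξ η => χ ξ * T X ξ (π - η)) =
      IH x₁ x₂ (π / 2) (fun ξ η => χ ξ * T (mir X) ξ η) := by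
    unfold IH
    refine intervalIntegral.integral_congr fun ξ hξ => ?_
    rw [uIcc_of_le hx12] at hξ
    refine intervalIntegral.integral_congr fun η hη => ?_
    rw [uIcc_of_le hpi] at hη
    simp only
    rw [hTm X x₁ x₂ hX ξ hξ η hη]
  rw [e3] at split
  rw [split] at whole
  -- the linear part
  obtain ⟨A, hA⟩ : ∃ A, A = IH x₁ x₂ (π / 2) (fun ξ η => χ ξ * (1 - (X (pt ξ η)).re)) := ⟨_, rfl⟩
  obtain ⟨A', hA'⟩ : ∃ A', A' = IH x₁ x₂ (π / 2)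
      (fun ξ η => χ ξ * (1 - (mir X (pt ξ η)).re)) := ⟨_, rfl⟩
  obtain ⟨S, hS⟩ : ∃ S, S = ∫ ξ in x₁..x₂, χ ξ * (1 - (X (pt ξ (π / 2))).re) := ⟨_, rfl⟩
  have e4 : ∫ ξ in x₁..x₂, χ ξ *
      ((π / 2 * (1 - (X (pt ξ (π / 2))).re) - π ^ 2 / 8 * (deriv X (pt ξ (π / 2))).im) +
      (π / 2 * (1 - (conj (X (pt ξ (π / 2)))).re) -
        π ^ 2 / 8 * (conj (deriv X (pt ξ (π / 2)))).im)) = π * S := by
    rw [hS, ← intervalIntegral.integral_const_mul]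
    refine intervalIntegral.integral_congr fun ξ _ => ?_
    simp only [conj_re, conj_im]
    ring
  rw [e4, ← hA, ← hA'] at b2
  rw [← hS]
  have hEl : 0 ≤ 1 + E / l := by
    have := div_nonneg hE0 hl0.le
    linarith
  have r1 : C₁ * (1 + E / l) ≤ |C₁| * (1 + E / l) :=
    mul_le_mul_of_nonneg_right (le_abs_self C₁) hEl
  have r2 : C₂ * (1 + E / l) ≤ |C₂| * (1 + E / l) :=
    mul_le_mul_of_nonneg_right (le_abs_self C₂) hEl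
  have r3 : π * |D| ≤ π * |D| * (1 + E / l) := by
    have := div_nonneg hE0 hl0.le
    nlinarith [mul_nonneg Real.pi_pos.le (abs_nonneg D)]
  have hEE := En_add hx12 hX
  rw [← hE] at hEE
  rw [← hA] at t1
  rw [← hA'] at t2
  have b1' := (abs_le.1 b1).2
  have b2' := (abs_le.1 b2).2
  have b3 : (k₂ - lam) * (A + A') ≤ (k₂ - lam) * (π * S + |C₂| * (1 + E / l)) :=
    mul_le_mul_of_nonneg_left (by linarith) (by linarith)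
  have b4 : lam * (En X x₁ x₂ + En (mir X) x₁ x₂) = lam * E := by rw [hEE]
  have b5 : (|C₁| + (k₂ - lam) * |C₂| + π * |D|) * (1 + E / l) =
      |C₁| * (1 + E / l) + (k₂ - lam) * (|C₂| * (1 + E / l)) + π * |D| * (1 + E / l) := by
    ring
  have b6 : lam * En X x₁ x₂ + lam * En (mir X) x₁ x₂ = lam * E := by rw [← mul_add, hEE]
  have b7 : (k₂ - lam) * A + (k₂ - lam) * A' = (k₂ - lam) * (A + A') := by ring
  have b8 : (k₂ - lam) * (π * S + |C₂| * (1 + E / l)) =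
      (k₂ - lam) * (π * S) + (k₂ - lam) * (|C₂| * (1 + E / l)) := by ring
  rw [b8] at b3
  rw [b5]
  linarith [whole, t1, t2, b1', b3, b6, b7, r1, r3]


end Pool.Agent.Helper69.EK7
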